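import Mathlib

/-!
Second order Euler-Maclaurin approximation of the Riemann zeta function by its partial sums.
-/

set_option autoImplicit false

namespace Pool.Agent.Lib.MP_f9aece_nt

open Complex Set Filter Topology

/-- the trapezoid error term of `u ↦ u^(-s)` on `[n, n+1]`. -/
noncomputable def trap (n : ℕ) (s : ℂ) : ℂ :=
  ((n : ℂ) ^ (-s) + ((n : ℂ) + 1) ^ (-s)) / 2
    - (((n : ℂ) + 1) ^ (1 - s) - (n : ℂ) ^ (1 - s)) / (1 - s)

lemma hasDerivAt_cpow_real {u : ℝ} (hu : 0 < u) (c : ℂ) :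
    HasDerivAt (fun v : ℝ => (v : ℂ) ^ c) (c * (u : ℂ) ^ (c - 1)) u := by
  rcases eq_or_ne c 0 with rfl | hc
  · simp only [cpow_zero, zero_mul]
    exact hasDerivAt_const u (1 : ℂ)
  · exact hasDerivAt_ofReal_cpow_const hu.ne' hc

lemma trap_bound {n : ℕ} (hn : 1 ≤ n) {s : ℂ} (hs : 0 ≤ s.re) (hs1 : s ≠ 1) :
    ‖trap n s‖ ≤ ‖s‖ * ‖s + 1‖ * (n : ℝ) ^ (-s.re - 2) / 2 := by
  have hn0 : (0 : ℝ) < n := by exact_mod_cast hn
  have hn0' : (n : ℂ) ≠ 0 := by exact_mod_cast hn0.ne'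
  have h1s : (1 : ℂ) - s ≠ 0 := sub_ne_zero.mpr (Ne.symm hs1)
  set K : ℝ := ‖s‖ * ‖s + 1‖ * (n : ℝ) ^ (-s.re - 2) with hK
  have hK0 : 0 ≤ K := by positivity
  -- first function
  set k : ℝ → ℂ := fun u => (n : ℂ) ^ (-s) - (u : ℂ) ^ (-s) - s * (u : ℂ) ^ (-s - 1) * (u - n) with hk
  have hkd : ∀ u : ℝ, 0 < u → HasDerivAt k (s * (s + 1) * (u : ℂ) ^ (-s - 2) * (u - n)) u := by
    intro u hu
    have h1 := hasDerivAt_cpow_real hu (-s)
    have h2 := hasDerivAt_cpow_real hu (-s - 1)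
    have h3 : HasDerivAt (fun v : ℝ => ((v : ℂ) - n)) 1 u :=
      (Complex.ofRealCLM.hasDerivAt (x := u)).sub_const (n : ℂ)
    have h4 := ((hasDerivAt_const u ((n : ℂ) ^ (-s))).sub h1).sub ((h2.const_mul s).mul h3)
    refine h4.congr_deriv ?_
    have : -s - 1 - 1 = -s - 2 := by ring
    rw [this]
    ring
  have hkb : ∀ u ∈ Icc (n : ℝ) (n + 1), ‖k u‖ ≤ K := by
    intro u hu
    have := norm_image_sub_le_of_norm_deriv_le_segment' (f := k) (a := n) (b := n + 1) (C := K)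
      (f' := fun u => s * (s + 1) * (u : ℂ) ^ (-s - 2) * (u - n))
      (fun v hv => (hkd v (lt_of_lt_of_le hn0 hv.1)).hasDerivWithinAt) ?_ u hu
    · have hkn : k n = 0 := by simp [hk]
      rw [hkn, sub_zero] at this
      refine this.trans ?_
      have : u - n ≤ 1 := by linarith [hu.2]
      nlinarith
    · intro v hv
      have hv0 : 0 < v := lt_of_lt_of_le hn0 hv.1
      rw [norm_mul, norm_mul, norm_mul, Complex.norm_cpow_eq_rpow_re_of_pos hv0]
      have e1 : (-s - 2 : ℂ).re = -s.re - 2 := by simp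
      rw [e1]
      have e2 : v ^ (-s.re - 2) ≤ (n : ℝ) ^ (-s.re - 2) :=
        Real.rpow_le_rpow_of_nonpos hn0 hv.1 (by linarith)
      have e3 : ‖(v : ℂ) - n‖ ≤ 1 := by
        have : (v : ℂ) - n = ((v - n : ℝ) : ℂ) := by push_cast; ring
        rw [this, Complex.norm_real, Real.norm_eq_abs, abs_le]
        constructor <;> linarith [hv.1, hv.2]
      calc ‖s‖ * ‖s + 1‖ * v ^ (-s.re - 2) * ‖(v : ℂ) - n‖
          ≤ ‖s‖ * ‖s + 1‖ * (n : ℝ) ^ (-s.re - 2) * 1 := by gcongr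
        _ = K := by rw [hK]; ring
  -- second function
  set h : ℝ → ℂ := fun u => ((n : ℂ) ^ (-s) + (u : ℂ) ^ (-s)) / 2 * (u - n)
    - ((u : ℂ) ^ (1 - s) - (n : ℂ) ^ (1 - s)) / (1 - s) with hh
  have hhd : ∀ u : ℝ, 0 < u → HasDerivAt h (k u / 2) u := by
    intro u hu
    have h1 := hasDerivAt_cpow_real hu (-s)
    have h2 := hasDerivAt_cpow_real hu (1 - s)
    have h3 : HasDerivAt (fun v : ℝ => ((v : ℂ) - n)) 1 u :=
      (Complex.ofRealCLM.hasDerivAt (x := u)).sub_const (n : ℂ)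
    have h4 := ((((hasDerivAt_const u ((n : ℂ) ^ (-s))).add h1).div_const 2).mul h3).sub
      ((h2.sub_const ((n : ℂ) ^ (1 - s))).div_const (1 - s))
    refine h4.congr_deriv ?_
    have e : (1 - s - 1 : ℂ) = -s := by ring
    rw [e, hk]
    simp only [Pi.add_apply]
    field_simp
    ring
  have hmain : ‖h (n + 1) - h n‖ ≤ K / 2 * ((n + 1 : ℝ) - n) := by
    refine norm_image_sub_le_of_norm_deriv_le_segment' (f := h) (a := n) (b := n + 1) (C := K / 2)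
      (f' := fun u => k u / 2)
      (fun v hv => (hhd v (lt_of_lt_of_le hn0 hv.1)).hasDerivWithinAt) ?_ (n + 1) ⟨by linarith, le_rfl⟩
    intro v hv
    rw [norm_div]
    have := hkb v ⟨hv.1, hv.2.le⟩
    simp only [Complex.norm_ofNat]
    gcongr
  have hn' : h n = 0 := by simp [hh]
  have hn1 : h (n + 1) = trap n s := by
    simp only [hh, trap]
    push_cast
    ring
  rw [hn', sub_zero, hn1] at hmain
  refine hmain.trans (le_of_eq ?_)
  ring

/-- telescoping -/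
lemma sum_trap (N M : ℕ) (hNM : N ≤ M) (s : ℂ) :
    ∑ n ∈ Finset.Ico N M, trap n s = ∑ n ∈ Finset.Ioc N M, (n : ℂ) ^ (-s)
      + (N : ℂ) ^ (-s) / 2 - (M : ℂ) ^ (-s) / 2 - ((M : ℂ) ^ (1 - s) - (N : ℂ) ^ (1 - s)) / (1 - s) := by
  induction M, hNM using Nat.le_induction with
  | base => simp
  | succ M hM ih =>
    rw [Finset.sum_Ico_succ_top hM, ih, ← Finset.insert_Ioc_right_eq_Ioc_add_one hM,
      Finset.sum_insert (by simp), trap]
    push_cast
    ring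


lemma trap_bound' {n : ℕ} (hn : 1 ≤ n) {s : ℂ} (hs : 0 ≤ s.re) (hs1 : s ≠ 1) :
    ‖trap n s‖ ≤ ‖s‖ * ‖s + 1‖ / 2 * (1 / (n : ℝ) ^ 2) := by
  have hn0 : (0 : ℝ) < n := by exact_mod_cast hn
  refine (trap_bound hn hs hs1).trans ?_
  have h1 : (n : ℝ) ^ (-s.re - 2) ≤ 1 / (n : ℝ) ^ 2 := by
    rw [one_div, ← Real.rpow_natCast, ← Real.rpow_neg hn0.le]
    exact Real.rpow_le_rpow_of_exponent_le (by exact_mod_cast hn) (by push_cast; linarith)
  calc ‖s‖ * ‖s + 1‖ * (n : ℝ) ^ (-s.re - 2) / 2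
      = ‖s‖ * ‖s + 1‖ / 2 * (n : ℝ) ^ (-s.re - 2) := by ring
    _ ≤ _ := by gcongr

lemma summable_trap {s : ℂ} (hs : 0 ≤ s.re) (hs1 : s ≠ 1) :
    Summable (fun n : ℕ => trap (n + 1) s) := by
  refine Summable.of_norm_bounded (g := fun n : ℕ => ‖s‖ * ‖s + 1‖ / 2 * (1 / ((n + 1 : ℕ) : ℝ) ^ 2)) ?_ ?_
  · refine Summable.mul_left _ ?_
    exact (summable_nat_add_iff (f := fun n : ℕ => 1 / ((n : ℕ) : ℝ) ^ 2) 1).mpr
        (Real.summable_one_div_nat_pow.mpr (by norm_num : 1 < 2))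
  · intro n
    exact trap_bound' (by omega) hs hs1

lemma zeta_eq_of_one_lt {s : ℂ} (hs : 1 < s.re) :
    riemannZeta s = 1 / 2 + 1 / (s - 1) + ∑' n : ℕ, trap (n + 1) s := by
  have hs1 : s ≠ 1 := by
    rintro rfl
    simp at hs
  have h1s : (1 : ℂ) - s ≠ 0 := sub_ne_zero.mpr (Ne.symm hs1)
  have h2s : s - 1 ≠ 0 := sub_ne_zero.mpr hs1
  -- partial sums
  have hA : Tendsto (fun M : ℕ => ∑ n ∈ Finset.range M, trap (n + 1) s) atTop
      (𝓝 (∑' n : ℕ, trap (n + 1) s)) := (summable_trap (by linarith) hs1).hasSum.tendsto_sum_nat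
  have hB : Tendsto (fun M : ℕ => ∑ n ∈ Finset.range M, 1 / ((n + 1 : ℕ) : ℂ) ^ s) atTop
      (𝓝 (riemannZeta s)) := by
    rw [zeta_eq_tsum_one_div_nat_add_one_cpow hs]
    have : Summable (fun n : ℕ => 1 / ((n + 1 : ℕ) : ℂ) ^ s) := by
      have := Complex.summable_one_div_nat_cpow.mpr hs
      exact (summable_nat_add_iff (f := fun n : ℕ => 1 / ((n : ℕ) : ℂ) ^ s) 1).mpr this
    simpa using this.hasSum.tendsto_sum_nat
  have hC : Tendsto (fun M : ℕ => ((M + 1 : ℕ) : ℂ) ^ (-s)) atTop (𝓝 0) := by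
    rw [tendsto_zero_iff_norm_tendsto_zero]
    have h1 : ∀ M : ℕ, ‖((M + 1 : ℕ) : ℂ) ^ (-s)‖ = ((M + 1 : ℕ) : ℝ) ^ (-s.re) := by
      intro M
      rw [Complex.norm_natCast_cpow_of_pos (by omega)]
      simp
    simp_rw [h1]
    exact (tendsto_rpow_neg_atTop (by linarith)).comp
      (tendsto_natCast_atTop_atTop.comp (tendsto_add_atTop_nat 1))
  have hD : Tendsto (fun M : ℕ => ((M + 1 : ℕ) : ℂ) ^ (1 - s)) atTop (𝓝 0) := by
    rw [tendsto_zero_iff_norm_tendsto_zero]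
    have h1 : ∀ M : ℕ, ‖((M + 1 : ℕ) : ℂ) ^ (1 - s)‖ = ((M + 1 : ℕ) : ℝ) ^ (-(s.re - 1)) := by
      intro M
      rw [Complex.norm_natCast_cpow_of_pos (by omega)]
      simp
    simp_rw [h1]
    exact (tendsto_rpow_neg_atTop (by linarith)).comp
      (tendsto_natCast_atTop_atTop.comp (tendsto_add_atTop_nat 1))
  have hE : ∀ M : ℕ, ∑ n ∈ Finset.range M, trap (n + 1) s
      = ∑ n ∈ Finset.range (M + 1), 1 / ((n + 1 : ℕ) : ℂ) ^ s - 1 / 2
        - ((M + 1 : ℕ) : ℂ) ^ (-s) / 2 - (((M + 1 : ℕ) : ℂ) ^ (1 - s) - 1) / (1 - s) := by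
    intro M
    have h1 := sum_trap 1 (M + 1) (by omega) s
    have h2 : ∑ n ∈ Finset.range M, trap (n + 1) s = ∑ n ∈ Finset.Ico 1 (M + 1), trap n s := by
      rw [Finset.sum_Ico_eq_sum_range]
      simp [add_comm]
    have h3 : ∑ n ∈ Finset.range (M + 1), 1 / ((n + 1 : ℕ) : ℂ) ^ s
        = 1 + ∑ n ∈ Finset.Ioc 1 (M + 1), (n : ℂ) ^ (-s) := by
      rw [Finset.sum_range_succ']
      have h4 : ∑ n ∈ Finset.Ioc 1 (M + 1), (n : ℂ) ^ (-s)
          = ∑ n ∈ Finset.range M, 1 / ((n + 1 + 1 : ℕ) : ℂ) ^ s := by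
        have : Finset.Ioc 1 (M + 1) = Finset.Ico 2 (M + 2) := by
          ext x; simp only [Finset.mem_Ioc, Finset.mem_Ico]; omega
        rw [this, Finset.sum_Ico_eq_sum_range]
        refine Finset.sum_congr (by simp) ?_
        intro n _
        rw [Complex.cpow_neg, one_div]
        congr 3
        omega
      rw [h4]
      simp [add_comm]
    rw [h2, h1, h3]
    simp only [Nat.cast_one, Complex.one_cpow]
    ring
  have hF : Tendsto (fun M : ℕ => ∑ n ∈ Finset.range M, trap (n + 1) s) atTop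
      (𝓝 (riemannZeta s - 1 / 2 - 0 / 2 - (0 - 1) / (1 - s))) := by
    simp_rw [hE]
    exact (((((tendsto_add_atTop_iff_nat 1).mpr hB).sub_const _).sub (hC.div_const 2)).sub
      ((hD.sub_const 1).div_const _))
  have hG := tendsto_nhds_unique hA hF
  rw [hG]
  have : (0 - 1 : ℂ) / (1 - s) = 1 / (s - 1) := by
    rw [div_eq_div_iff h1s h2s]; ring
  rw [this]
  ring


/-- the open quadrant -/
def quad : Set ℂ := {s : ℂ | 0 < s.re ∧ 0 < s.im}

lemma quad_open : IsOpen quad :=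
  (isOpen_lt continuous_const Complex.continuous_re).inter
    (isOpen_lt continuous_const Complex.continuous_im)

lemma quad_convex : Convex ℝ quad := by
  have h1 : Convex ℝ {s : ℂ | 0 < s.re} := convex_halfSpace_re_gt 0
  have h2 : Convex ℝ {s : ℂ | 0 < s.im} := convex_halfSpace_im_gt 0
  exact h1.inter h2

lemma quad_ne_one {s : ℂ} (hs : s ∈ quad) : s ≠ 1 := by
  rintro rfl
  simp [quad] at hs

lemma trap_differentiable (n : ℕ) : DifferentiableOn ℂ (trap (n + 1)) quad := by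
  intro s hs
  have h1s : (1 : ℂ) - s ≠ 0 := sub_ne_zero.mpr (Ne.symm (quad_ne_one hs))
  have hn : ((n + 1 : ℕ) : ℂ) ≠ 0 := by exact_mod_cast (Nat.succ_ne_zero n)
  have hn' : ((n + 1 : ℕ) : ℂ) + 1 ≠ 0 := by exact_mod_cast (Nat.succ_ne_zero (n + 1))
  apply DifferentiableAt.differentiableWithinAt
  unfold trap
  refine DifferentiableAt.sub (DifferentiableAt.div_const (DifferentiableAt.add ?_ ?_) _)
    (DifferentiableAt.div (DifferentiableAt.sub ?_ ?_) ?_ h1s)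
  · exact (differentiableAt_id.neg).const_cpow (Or.inl hn)
  · exact (differentiableAt_id.neg).const_cpow (Or.inl hn')
  · exact ((differentiableAt_const _).sub differentiableAt_id).const_cpow (Or.inl hn')
  · exact ((differentiableAt_const _).sub differentiableAt_id).const_cpow (Or.inl hn)
  · exact (differentiableAt_const _).sub differentiableAt_id

lemma tsum_trap_differentiable : DifferentiableOn ℂ (fun s => ∑' n : ℕ, trap (n + 1) s) quad := by
  intro s hs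
  set V : Set ℂ := quad ∩ Metric.ball s 1 with hV
  have hVo : IsOpen V := quad_open.inter Metric.isOpen_ball
  have hsV : s ∈ V := ⟨hs, Metric.mem_ball_self one_pos⟩
  have key : DifferentiableOn ℂ (fun s => ∑' n : ℕ, trap (n + 1) s) V := by
    refine Complex.differentiableOn_tsum_of_summable_norm
      (u := fun n : ℕ => (‖s‖ + 1) * (‖s‖ + 2) / 2 * (1 / ((n + 1 : ℕ) : ℝ) ^ 2)) ?_ ?_ hVo ?_
    · refine Summable.mul_left _ ?_
      exact (summable_nat_add_iff (f := fun n : ℕ => 1 / ((n : ℕ) : ℝ) ^ 2) 1).mpr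
        (Real.summable_one_div_nat_pow.mpr (by norm_num : 1 < 2))
    · intro n
      exact (trap_differentiable n).mono inter_subset_left
    · intro n w hw
      refine (trap_bound' (by omega) hw.1.1.le (quad_ne_one hw.1)).trans ?_
      have h1 : ‖w‖ ≤ ‖s‖ + 1 := by
        have : ‖w - s‖ < 1 := by simpa [dist_eq_norm] using hw.2
        calc ‖w‖ = ‖s + (w - s)‖ := by ring_nf
          _ ≤ ‖s‖ + ‖w - s‖ := norm_add_le _ _
          _ ≤ _ := by linarith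
      have h2 : ‖w + 1‖ ≤ ‖s‖ + 2 := by
        calc ‖w + 1‖ ≤ ‖w‖ + ‖(1 : ℂ)‖ := norm_add_le _ _
          _ ≤ _ := by rw [norm_one]; linarith
      gcongr
  exact ((key s hsV).differentiableAt (hVo.mem_nhds hsV)).differentiableWithinAt

lemma zeta_eq_quad {s : ℂ} (hs : s ∈ quad) :
    riemannZeta s = 1 / 2 + 1 / (s - 1) + ∑' n : ℕ, trap (n + 1) s := by
  have hf : AnalyticOnNhd ℂ riemannZeta quad := by
    refine DifferentiableOn.analyticOnNhd ?_ quad_open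
    intro w hw
    exact (differentiableAt_riemannZeta (quad_ne_one hw)).differentiableWithinAt
  have hg : AnalyticOnNhd ℂ (fun s : ℂ => 1 / 2 + 1 / (s - 1) + ∑' n : ℕ, trap (n + 1) s) quad := by
    refine DifferentiableOn.analyticOnNhd ?_ quad_open
    refine DifferentiableOn.add ?_ tsum_trap_differentiable
    intro w hw
    have : w - 1 ≠ 0 := sub_ne_zero.mpr (quad_ne_one hw)
    have h1 : DifferentiableAt ℂ (fun s : ℂ => 1 / 2 + 1 / (s - 1)) w := by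
      fun_prop (disch := exact this)
    exact h1.differentiableWithinAt
  have h0 : (2 + I : ℂ) ∈ quad := by simp [quad]
  have hev : riemannZeta =ᶠ[𝓝 (2 + I : ℂ)]
      (fun s : ℂ => 1 / 2 + 1 / (s - 1) + ∑' n : ℕ, trap (n + 1) s) := by
    have ho : IsOpen {s : ℂ | 1 < s.re} := isOpen_lt continuous_const Complex.continuous_re
    have hm : (2 + I : ℂ) ∈ {s : ℂ | 1 < s.re} := by simp
    filter_upwards [ho.mem_nhds hm] with w hw
    exact zeta_eq_of_one_lt hw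
  exact hf.eqOn_of_preconnected_of_eventuallyEq hg quad_convex.isPreconnected h0 hev hs

lemma zeta_eq_sum {s : ℂ} (hs : s ∈ quad) {N : ℕ} (hN : 1 ≤ N) :
    riemannZeta s = ∑ n ∈ Finset.Icc 1 N, (n : ℂ) ^ (-s) - (N : ℂ) ^ (-s) / 2
      + (N : ℂ) ^ (1 - s) / (s - 1) + ∑' n : ℕ, trap (n + N) s := by
  have hs1 := quad_ne_one hs
  have h1s : (1 : ℂ) - s ≠ 0 := sub_ne_zero.mpr (Ne.symm hs1)
  have h2s : s - 1 ≠ 0 := sub_ne_zero.mpr hs1
  have h1 := zeta_eq_quad hs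
  have h2 := (summable_trap hs.1.le hs1).sum_add_tsum_nat_add (N - 1)
  have h3 : ∑ n ∈ Finset.range (N - 1), trap (n + 1) s = ∑ n ∈ Finset.Ico 1 N, trap n s := by
    rw [Finset.sum_Ico_eq_sum_range]
    simp [add_comm]
  have h4 : (fun n : ℕ => trap (n + (N - 1) + 1) s) = fun n : ℕ => trap (n + N) s := by
    funext n
    congr 1
    omega
  rw [h3, h4, sum_trap 1 N hN s] at h2
  rw [h1, ← h2]
  have h5 : Finset.Icc 1 N = insert 1 (Finset.Ioc 1 N) := by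
    ext x; simp only [Finset.mem_Icc, Finset.mem_insert, Finset.mem_Ioc]; omega
  rw [h5, Finset.sum_insert (by simp)]
  simp only [Nat.cast_one, Complex.one_cpow]
  have h6 : (1 : ℂ) / (s - 1) = - (1 / (1 - s)) := by
    rw [← neg_sub 1 s, div_neg]
  have h7 : (N : ℂ) ^ (1 - s) / (s - 1) = - ((N : ℂ) ^ (1 - s) / (1 - s)) := by
    rw [← neg_sub 1 s, div_neg]
  rw [h6, h7]
  ring


lemma tail_sum_sq_partial (N : ℕ) (hN : 1 ≤ N) (M : ℕ) :
    ∑ n ∈ Finset.range M, 1 / ((n + N : ℕ) : ℝ) ^ 2 ≤ 2 / N - 2 / ((M : ℝ) + N) := by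
  have hN0 : (0 : ℝ) < N := by exact_mod_cast hN
  have hN1 : (1 : ℝ) ≤ N := by exact_mod_cast hN
  induction M with
  | zero => simp
  | succ M ih =>
    rw [Finset.sum_range_succ]
    have h0 : (0 : ℝ) < (M : ℝ) + N := by positivity
    have h1 : 1 / ((M + N : ℕ) : ℝ) ^ 2 ≤ 2 / ((M : ℝ) + N) - 2 / ((M : ℝ) + N + 1) := by
      push_cast
      rw [div_sub_div _ _ h0.ne' (by positivity), div_le_div_iff₀ (by positivity) (by positivity)]
      have : (1 : ℝ) ≤ (M : ℝ) + N := by linarith [Nat.cast_nonneg (α := ℝ) M]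
      nlinarith
    push_cast at h1 ⊢
    have e : (M : ℝ) + 1 + N = (M : ℝ) + N + 1 := by ring
    rw [e]
    push_cast at ih
    linarith

lemma tail_sum_sq (N : ℕ) (hN : 1 ≤ N) :
    (∑' n : ℕ, 1 / ((n + N : ℕ) : ℝ) ^ 2) ≤ 2 / (N : ℝ) := by
  refine Real.tsum_le_of_sum_range_le (fun n => by positivity) (fun M => ?_)
  refine (tail_sum_sq_partial N hN M).trans ?_
  have : (0 : ℝ) ≤ 2 / ((M : ℝ) + N) := by positivity
  linarith

/-- the main approximation on the critical line -/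
lemma zeta_approx {t : ℝ} (ht : 1 ≤ t) {N : ℕ} (hN : 1 ≤ N) :
    ‖riemannZeta (1 / 2 + I * t) - ∑ n ∈ Finset.Icc 1 N, (n : ℂ) ^ (-(1 / 2 + I * t : ℂ))‖
      ≤ (N : ℝ) ^ (-(1 / 2) : ℝ) + (N : ℝ) ^ (1 / 2 : ℝ) / t + 9 * t ^ 2 * (N : ℝ) ^ (-(3 / 2) : ℝ) := by
  set s : ℂ := 1 / 2 + I * t with hs
  have hsre : s.re = 1 / 2 := by simp [hs]
  have hsim : s.im = t := by simp [hs]
  have hq : s ∈ quad := by
    constructor
    · rw [hsre]; norm_num
    · rw [hsim]; linarith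
  have hN0 : (0 : ℝ) < N := by exact_mod_cast hN
  have hs1 := quad_ne_one hq
  rw [zeta_eq_sum hq hN]
  have e : ∑ n ∈ Finset.Icc 1 N, (n : ℂ) ^ (-s) - (N : ℂ) ^ (-s) / 2
      + (N : ℂ) ^ (1 - s) / (s - 1) + ∑' n : ℕ, trap (n + N) s
      - ∑ n ∈ Finset.Icc 1 N, (n : ℂ) ^ (-s)
      = - ((N : ℂ) ^ (-s) / 2) + (N : ℂ) ^ (1 - s) / (s - 1) + ∑' n : ℕ, trap (n + N) s := by ring
  rw [e]
  refine (norm_add_le _ _).trans ?_
  refine add_le_add ((norm_add_le _ _).trans (add_le_add ?_ ?_)) ?_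
  · rw [norm_neg, norm_div, Complex.norm_natCast_cpow_of_pos hN]
    simp only [Complex.neg_re, hsre, Complex.norm_ofNat]
    have : (0 : ℝ) ≤ (N : ℝ) ^ (-(1 / 2) : ℝ) := by positivity
    linarith
  · rw [norm_div, Complex.norm_natCast_cpow_of_pos hN]
    have h1 : (1 - s).re = 1 / 2 := by simp [hsre]; norm_num
    rw [h1]
    have h2 : t ≤ ‖s - 1‖ := by
      have h3 : |(s - 1).im| ≤ ‖s - 1‖ := Complex.abs_im_le_norm _
      have h4 : (s - 1).im = t := by simp [hsim]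
      rw [h4] at h3
      exact (le_abs_self t).trans h3
    gcongr
  · -- tail
    have hsum : Summable (fun n : ℕ => 1 / ((n + N : ℕ) : ℝ) ^ 2) := by
      exact (summable_nat_add_iff (f := fun n : ℕ => 1 / ((n : ℕ) : ℝ) ^ 2) N).mpr
        (Real.summable_one_div_nat_pow.mpr (by norm_num : 1 < 2))
    have hns : ‖s‖ ≤ t + 1 / 2 := by
      calc ‖s‖ ≤ ‖(1 / 2 : ℂ)‖ + ‖I * (t : ℂ)‖ := norm_add_le _ _
        _ = 1 / 2 + t := by
            rw [norm_mul, Complex.norm_I, Complex.norm_real, Real.norm_eq_abs, abs_of_pos (by linarith)]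
            norm_num
        _ = _ := by ring
    have hns1 : ‖s + 1‖ ≤ t + 3 / 2 := by
      calc ‖s + 1‖ ≤ ‖s‖ + ‖(1 : ℂ)‖ := norm_add_le _ _
        _ ≤ _ := by rw [norm_one]; linarith
    have hterm : ∀ n : ℕ, ‖trap (n + N) s‖
        ≤ ((t + 1 / 2) * (t + 3 / 2) / 2 * (N : ℝ) ^ (-(1 / 2) : ℝ)) * (1 / ((n + N : ℕ) : ℝ) ^ 2) := by
      intro n
      have hnN : 1 ≤ n + N := by omega
      have h0 : (0 : ℝ) < ((n + N : ℕ) : ℝ) := by exact_mod_cast hnN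
      refine (trap_bound hnN hq.1.le hs1).trans ?_
      rw [hsre]
      have h1 : (((n + N : ℕ)) : ℝ) ^ (-(1 / 2) - 2 : ℝ)
          ≤ (N : ℝ) ^ (-(1 / 2) : ℝ) * (1 / ((n + N : ℕ) : ℝ) ^ 2) := by
        rw [Real.rpow_sub h0, one_div (((n + N : ℕ) : ℝ) ^ 2), ← div_eq_mul_inv]
        have h2 : ((n + N : ℕ) : ℝ) ^ (-(1 / 2) : ℝ) ≤ (N : ℝ) ^ (-(1 / 2) : ℝ) := by
          refine Real.rpow_le_rpow_of_nonpos hN0 ?_ (by norm_num)
          exact_mod_cast (Nat.le_add_left N n)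
        have h3 : ((n + N : ℕ) : ℝ) ^ (2 : ℝ) = ((n + N : ℕ) : ℝ) ^ 2 := by
          exact_mod_cast Real.rpow_natCast ((n + N : ℕ) : ℝ) 2
        rw [h3]
        gcongr
      calc ‖s‖ * ‖s + 1‖ * (((n + N : ℕ)) : ℝ) ^ (-(1 / 2) - 2 : ℝ) / 2
          ≤ (t + 1 / 2) * (t + 3 / 2) * ((N : ℝ) ^ (-(1 / 2) : ℝ) * (1 / ((n + N : ℕ) : ℝ) ^ 2)) / 2 := by
            gcongr
        _ = _ := by ring
    calc ‖∑' n : ℕ, trap (n + N) s‖
        ≤ ∑' n : ℕ, ((t + 1 / 2) * (t + 3 / 2) / 2 * (N : ℝ) ^ (-(1 / 2) : ℝ)) * (1 / ((n + N : ℕ) : ℝ) ^ 2) :=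
          tsum_of_norm_bounded ((hsum.mul_left _).hasSum) hterm
      _ = ((t + 1 / 2) * (t + 3 / 2) / 2 * (N : ℝ) ^ (-(1 / 2) : ℝ)) * ∑' n : ℕ, (1 / ((n + N : ℕ) : ℝ) ^ 2) :=
          tsum_mul_left
      _ ≤ ((t + 1 / 2) * (t + 3 / 2) / 2 * (N : ℝ) ^ (-(1 / 2) : ℝ)) * (2 / N) := by
          gcongr
          exact tail_sum_sq N hN
      _ = (t + 1 / 2) * (t + 3 / 2) * ((N : ℝ) ^ (-(1 / 2) : ℝ) / N) := by ring
      _ ≤ 9 * t ^ 2 * (N : ℝ) ^ (-(3 / 2) : ℝ) := by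
          have h5 : (N : ℝ) ^ (-(1 / 2) : ℝ) / N = (N : ℝ) ^ (-(3 / 2) : ℝ) := by
            rw [← Real.rpow_sub_one hN0.ne']
            norm_num
          rw [h5]
          have h6 : (t + 1 / 2) * (t + 3 / 2) ≤ 9 * t ^ 2 := by nlinarith
          gcongr

end Pool.Agent.Lib.MP_f9aece_nt
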