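import Mathlib

/-!
Elementary estimates for sums over primes.
-/

set_option autoImplicit false

namespace Pool.Agent.Lib.MP_f9aece_nt

open Finset

lemma sum_log_primeFactors_le {m : ℕ} (hm : m ≠ 0) :
    ∑ p ∈ m.primeFactors, Real.log p ≤ Real.log m := by
  have h0 : ∀ p ∈ m.primeFactors, (p : ℝ) ≠ 0 := by
    intro p hp
    exact_mod_cast (Nat.prime_of_mem_primeFactors hp).ne_zero
  rw [← Real.log_prod h0]
  have h1 : ∏ p ∈ m.primeFactors, p ≤ m := Nat.le_of_dvd (Nat.pos_of_ne_zero hm) (Nat.prod_primeFactors_dvd m)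
  have h2 : (0 : ℝ) < ∏ p ∈ m.primeFactors, (p : ℝ) :=
    Finset.prod_pos fun p hp => by exact_mod_cast (Nat.prime_of_mem_primeFactors hp).pos
  apply Real.log_le_log h2
  rw [← Nat.cast_prod]
  exact_mod_cast h1

/-- Mertens' first theorem, upper bound -/
lemma sum_log_div_le {n : ℕ} (hn : 1 ≤ n) :
    ∑ p ∈ Ioc 0 n with p.Prime, Real.log p / p ≤ Real.log n + Real.log 4 := by
  have hn0 : (0 : ℝ) < n := by exact_mod_cast hn
  -- double counting
  have h1 : ∑ p ∈ Ioc 0 n with p.Prime, ((n / p : ℕ) : ℝ) * Real.log p ≤ n * Real.log n := by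
    have e1 : ∀ p ∈ (Ioc 0 n).filter Nat.Prime, ((n / p : ℕ) : ℝ) * Real.log p
        = ∑ m ∈ Ioc 0 n, if p ∣ m then Real.log p else 0 := by
      intro p _
      rw [← Nat.Ioc_filter_dvd_card_eq_div, ← Finset.sum_filter, Finset.sum_const, nsmul_eq_mul]
    rw [Finset.sum_congr rfl e1, Finset.sum_comm]
    calc ∑ m ∈ Ioc 0 n, ∑ p ∈ (Ioc 0 n).filter Nat.Prime, (if p ∣ m then Real.log p else 0)
        ≤ ∑ m ∈ Ioc 0 n, Real.log n := by
          refine Finset.sum_le_sum fun m hm => ?_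
          rw [Finset.mem_Ioc] at hm
          have hm0 : m ≠ 0 := by omega
          rw [← Finset.sum_filter]
          have e2 : ((Ioc 0 n).filter Nat.Prime).filter (· ∣ m) ⊆ m.primeFactors := by
            intro p hp
            rw [Finset.mem_filter, Finset.mem_filter] at hp
            exact Nat.mem_primeFactors.mpr ⟨hp.1.2, hp.2, hm0⟩
          calc ∑ p ∈ ((Ioc 0 n).filter Nat.Prime).filter (· ∣ m), Real.log p
              ≤ ∑ p ∈ m.primeFactors, Real.log p :=
                Finset.sum_le_sum_of_subset_of_nonneg e2 fun p _ _ => Real.log_natCast_nonneg p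
            _ ≤ Real.log m := sum_log_primeFactors_le hm0
            _ ≤ Real.log n := by
                apply Real.log_le_log (by exact_mod_cast hm.1)
                exact_mod_cast hm.2
      _ = n * Real.log n := by
          rw [Finset.sum_const, Nat.card_Ioc, nsmul_eq_mul]
          simp
  have h2 : ∑ p ∈ Ioc 0 n with p.Prime, Real.log p ≤ Real.log 4 * n := by
    have := Chebyshev.theta_le_log4_mul_x (x := (n : ℝ)) hn0.le
    rw [Chebyshev.theta, Nat.floor_natCast] at this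
    exact this
  have h3 : ∑ p ∈ Ioc 0 n with p.Prime, (n : ℝ) * (Real.log p / p)
      ≤ ∑ p ∈ Ioc 0 n with p.Prime, (((n / p : ℕ) : ℝ) * Real.log p + Real.log p) := by
    refine Finset.sum_le_sum fun p hp => ?_
    rw [Finset.mem_filter, Finset.mem_Ioc] at hp
    have hp0 : (0 : ℝ) < p := by exact_mod_cast hp.1.1
    have hl : 0 ≤ Real.log p := Real.log_natCast_nonneg p
    have h4 : (n : ℝ) / p ≤ ((n / p : ℕ) : ℝ) + 1 := by
      rw [div_le_iff₀ hp0]
      have h5 : n < (n / p + 1) * p := by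
        rw [mul_comm]
        exact Nat.lt_mul_div_succ n (by exact_mod_cast hp.1.1)
      have h6 : (n : ℝ) < ((n / p : ℕ) + 1) * p := by exact_mod_cast h5
      exact h6.le
    calc (n : ℝ) * (Real.log p / p) = (n : ℝ) / p * Real.log p := by ring
      _ ≤ (((n / p : ℕ) : ℝ) + 1) * Real.log p := by gcongr
      _ = _ := by ring
  rw [← Finset.mul_sum, Finset.sum_add_distrib] at h3
  have h7 : (n : ℝ) * ∑ p ∈ Ioc 0 n with p.Prime, Real.log p / p ≤ n * (Real.log n + Real.log 4) := by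
    linarith
  exact le_of_mul_le_mul_left h7 hn0

/-- sums of reciprocals over a scale are bounded -/
lemma sum_inv_scale_le {y : ℝ} (hy : 0 < y) (s : Finset ℕ)
    (hs : ∀ p ∈ s, p.Prime ∧ y / 4 < Real.log p ∧ Real.log p ≤ y) :
    ∑ p ∈ s, (p : ℝ)⁻¹ ≤ 12 := by
  rcases s.eq_empty_or_nonempty with rfl | ⟨p0, hp0⟩
  · simp
  have hy2 : Real.log 2 ≤ y := by
    refine le_trans ?_ (hs p0 hp0).2.2
    apply Real.log_le_log (by norm_num)
    exact_mod_cast (hs p0 hp0).1.two_le
  have hn : 1 ≤ ⌊Real.exp y⌋₊ := by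
    apply Nat.le_floor
    simpa using Real.one_le_exp hy.le
  set n := ⌊Real.exp y⌋₊ with hn'
  have hn0 : (0 : ℝ) < n := by exact_mod_cast hn
  have hsub : s ⊆ (Ioc 0 n).filter Nat.Prime := by
    intro p hp
    obtain ⟨h1, h2, h3⟩ := hs p hp
    rw [Finset.mem_filter, Finset.mem_Ioc]
    refine ⟨⟨h1.pos, ?_⟩, h1⟩
    apply Nat.le_floor
    rw [← Real.log_le_iff_le_exp (by exact_mod_cast h1.pos)]
    exact h3
  have h1 : ∑ p ∈ s, (p : ℝ)⁻¹ ≤ ∑ p ∈ s, 4 / y * (Real.log p / p) := by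
    refine Finset.sum_le_sum fun p hp => ?_
    obtain ⟨h1, h2, h3⟩ := hs p hp
    have hp0 : (0 : ℝ) < p := by exact_mod_cast h1.pos
    have : 1 ≤ 4 / y * Real.log p := by
      rw [div_mul_eq_mul_div, le_div_iff₀ hy]
      linarith
    calc (p : ℝ)⁻¹ = 1 * (p : ℝ)⁻¹ := (one_mul _).symm
      _ ≤ (4 / y * Real.log p) * (p : ℝ)⁻¹ := by gcongr
      _ = _ := by ring
  have h2 : ∑ p ∈ s, Real.log p / p ≤ ∑ p ∈ Ioc 0 n with p.Prime, Real.log p / p :=
    Finset.sum_le_sum_of_subset_of_nonneg hsub fun p _ _ =>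
      div_nonneg (Real.log_natCast_nonneg p) (Nat.cast_nonneg p)
  have h3 := sum_log_div_le hn
  have h4 : Real.log n ≤ y := by
    rw [Real.log_le_iff_le_exp hn0]
    exact Nat.floor_le (Real.exp_pos y).le
  have h5 : Real.log 4 = 2 * Real.log 2 := by
    rw [show (4 : ℝ) = 2 ^ 2 by norm_num, Real.log_pow]; norm_num
  rw [← Finset.mul_sum] at h1
  calc ∑ p ∈ s, (p : ℝ)⁻¹ ≤ 4 / y * ∑ p ∈ s, Real.log p / p := h1
    _ ≤ 4 / y * (y + 2 * y) := by
        gcongr
        linarith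
    _ = 12 := by field_simp; norm_num

/-- divergence of the sum of reciprocals, with rate -/
lemma sum_inv_primes_ge {N : ℕ} (hN : 2 ≤ N) :
    Real.log (Real.log N) - 1 ≤ ∑ p ∈ N.primesBelow, (p : ℝ)⁻¹ := by
  classical
  have hN1 : (1 : ℝ) < N := by exact_mod_cast (by omega : 1 < N)
  have hlogN : 0 < Real.log N := Real.log_pos hN1
  let f : ℕ →* ℝ := { toFun := fun n => (n : ℝ)⁻¹, map_one' := by simp, map_mul' := fun m n => by push_cast; rw [mul_inv] }
  have hf : ∀ {p : ℕ}, p.Prime → ‖f p‖ < 1 := by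
    intro p hp
    have h1 : (1 : ℝ) < p := by exact_mod_cast hp.one_lt
    change ‖(p : ℝ)⁻¹‖ < 1
    rw [norm_inv, Real.norm_eq_abs, abs_of_pos (by linarith)]
    exact inv_lt_one_of_one_lt₀ h1
  obtain ⟨h1, h2⟩ := EulerProduct.summable_and_hasSum_smoothNumbers_prod_primesBelow_geometric hf N
  -- lower bound of the product
  have h3 : Real.log N ≤ ∏ p ∈ N.primesBelow, (1 - f p)⁻¹ := by
    have h4 : ∑ n ∈ Finset.Ico 1 N, (n : ℝ)⁻¹ ≤ ∏ p ∈ N.primesBelow, (1 - f p)⁻¹ := by
      let g : (Finset.Ico 1 N) → N.smoothNumbers := fun n =>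
        ⟨n.1, Nat.mem_smoothNumbers_of_lt (by have := Finset.mem_Ico.mp n.2; omega)
          (Finset.mem_Ico.mp n.2).2⟩
      have hg : Function.Injective g := by
        intro a b hab
        have := congrArg (fun x : N.smoothNumbers => (x : ℕ)) hab
        exact Subtype.ext this
      have h5 : ∑ n : Finset.Ico 1 N, f (g n) ≤ ∏ p ∈ N.primesBelow, (1 - f p)⁻¹ := by
        have h6 := sum_le_hasSum (f := fun m : N.smoothNumbers => f m)
          (Finset.univ.map ⟨g, hg⟩) (fun m _ => by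
            change 0 ≤ ((m : ℕ) : ℝ)⁻¹
            positivity) h2
        rw [Finset.sum_map] at h6
        exact h6
      calc ∑ n ∈ Finset.Ico 1 N, (n : ℝ)⁻¹ = ∑ n : Finset.Ico 1 N, f (g n) := by
            rw [← Finset.sum_coe_sort (Finset.Ico 1 N) (fun n => (n : ℝ)⁻¹)]
            rfl
        _ ≤ _ := h5
    refine le_trans ?_ h4
    have h7 := log_add_one_le_harmonic (N - 1)
    have h8 : N - 1 + 1 = N := by omega
    rw [h8] at h7
    refine h7.trans (le_of_eq ?_)
    rw [harmonic_eq_sum_Icc]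
    push_cast
    refine Finset.sum_congr ?_ fun n _ => rfl
    ext n
    simp only [Finset.mem_Icc, Finset.mem_Ico]
    omega
  have h9 : Real.log (Real.log N) ≤ ∑ p ∈ N.primesBelow, -Real.log (1 - (p : ℝ)⁻¹) := by
    calc Real.log (Real.log N) ≤ Real.log (∏ p ∈ N.primesBelow, (1 - f p)⁻¹) :=
          Real.log_le_log hlogN h3
      _ = ∑ p ∈ N.primesBelow, Real.log ((1 - f p)⁻¹) := by
          rw [Real.log_prod]
          intro p hp
          have hp' := Nat.prime_of_mem_primesBelow hp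
          have : (1 : ℝ) < p := by exact_mod_cast hp'.one_lt
          have h10 : f p = (p : ℝ)⁻¹ := rfl
          rw [h10]
          have : (p : ℝ)⁻¹ < 1 := inv_lt_one_of_one_lt₀ this
          exact inv_ne_zero (by linarith)
      _ = _ := by
          refine Finset.sum_congr rfl fun p _ => ?_
          rw [Real.log_inv]
          rfl
  have h11 : ∑ p ∈ N.primesBelow, -Real.log (1 - (p : ℝ)⁻¹)
      ≤ ∑ p ∈ N.primesBelow, ((p : ℝ)⁻¹ + (1 / ((p : ℝ) - 1) - 1 / p)) := by
    refine Finset.sum_le_sum fun p hp => ?_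
    have hp' := Nat.prime_of_mem_primesBelow hp
    have hp1 : (1 : ℝ) < p := by exact_mod_cast hp'.one_lt
    have hp0 : (0 : ℝ) < p := by linarith
    have h12 : 0 < 1 - (p : ℝ)⁻¹ := by
      have : (p : ℝ)⁻¹ < 1 := inv_lt_one_of_one_lt₀ hp1
      linarith
    have h13 : 1 - (1 - (p : ℝ)⁻¹)⁻¹ ≤ Real.log (1 - (p : ℝ)⁻¹) :=
      Real.one_sub_inv_le_log_of_pos h12
    have h14 : (1 - (p : ℝ)⁻¹)⁻¹ - 1 = 1 / ((p : ℝ) - 1) := by
      have : (p : ℝ) - 1 ≠ 0 := by linarith
      field_simp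
      ring
    have h15 : (p : ℝ)⁻¹ = 1 / p := (one_div _).symm
    linarith
  rw [Finset.sum_add_distrib] at h11
  have h16 : ∑ p ∈ N.primesBelow, (1 / ((p : ℝ) - 1) - 1 / p) ≤ 1 := by
    calc ∑ p ∈ N.primesBelow, (1 / ((p : ℝ) - 1) - 1 / p)
        ≤ ∑ p ∈ Finset.Ico 2 N, (1 / ((p : ℝ) - 1) - 1 / p) := by
          refine Finset.sum_le_sum_of_subset_of_nonneg ?_ ?_
          · intro p hp
            have hp' := Nat.prime_of_mem_primesBelow hp
            rw [Finset.mem_Ico]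
            exact ⟨hp'.two_le, Nat.lt_of_mem_primesBelow hp⟩
          · intro p hp _
            rw [Finset.mem_Ico] at hp
            have hp1 : (2 : ℝ) ≤ p := by exact_mod_cast hp.1
            rw [sub_nonneg]
            apply one_div_le_one_div_of_le (by linarith) (by linarith)
      _ = 1 - 1 / ((N : ℝ) - 1) := by
          obtain ⟨K, rfl⟩ : ∃ K, N = K + 2 := ⟨N - 2, by omega⟩
          clear * -
          induction K with
          | zero => norm_num
          | succ K ih =>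
            rw [Finset.sum_Ico_succ_top (by omega), ih]
            push_cast
            ring
      _ ≤ 1 := by
          have : 0 ≤ 1 / ((N : ℝ) - 1) := by
            apply one_div_nonneg.mpr
            linarith
          linarith
  linarith

lemma sum_inv_primes_le (N : ℕ) (s : Finset ℕ) (hs : s ⊆ Finset.Icc 1 N) :
    ∑ p ∈ s, (p : ℝ)⁻¹ ≤ 1 + Real.log N := by
  calc ∑ p ∈ s, (p : ℝ)⁻¹ ≤ ∑ p ∈ Finset.Icc 1 N, (p : ℝ)⁻¹ :=
        Finset.sum_le_sum_of_subset_of_nonneg hs fun p _ _ => by positivity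
    _ = (harmonic N : ℝ) := by rw [harmonic_eq_sum_Icc]; push_cast; rfl
    _ ≤ _ := harmonic_le_one_add_log N

/-- tail of the sum of squares of reciprocals -/
lemma sum_inv_sq_le (P : ℕ) (hP : 1 ≤ P) (s : Finset ℕ) (hs : ∀ p ∈ s, P < p) :
    ∑ p ∈ s, ((p : ℝ)⁻¹) ^ 2 ≤ 1 / P := by
  obtain ⟨N, hN⟩ : ∃ N, ∀ p ∈ s, p ≤ N := ⟨s.sup id, fun p hp => Finset.le_sup (f := id) hp⟩
  have hP0 : (0 : ℝ) < P := by exact_mod_cast hP
  have h1 : ∀ K : ℕ, ∑ p ∈ Finset.Ioc P (P + K), ((p : ℝ)⁻¹) ^ 2 ≤ 1 / P - 1 / (P + K : ℝ) := by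
    intro K
    induction K with
    | zero => simp
    | succ K ih =>
      rw [← Nat.add_assoc, ← Finset.insert_Ioc_right_eq_Ioc_add_one (by omega), Finset.sum_insert (by simp)]
      have h2 : (((P + K + 1 : ℕ) : ℝ)⁻¹) ^ 2 ≤ 1 / (P + K : ℝ) - 1 / (P + K + 1 : ℝ) := by
        push_cast
        have h3 : (0 : ℝ) < P + K := by positivity
        rw [div_sub_div _ _ h3.ne' (by positivity), inv_pow, ← one_div,
          div_le_div_iff₀ (by positivity) (by positivity)]
        nlinarith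
      push_cast at h2 ih ⊢
      have e : (P : ℝ) + (K + 1) = P + K + 1 := by ring
      rw [e]
      linarith
  have h4 : s ⊆ Finset.Ioc P (P + N) := by
    intro p hp
    rw [Finset.mem_Ioc]
    exact ⟨hs p hp, (hN p hp).trans (by omega)⟩
  calc ∑ p ∈ s, ((p : ℝ)⁻¹) ^ 2 ≤ ∑ p ∈ Finset.Ioc P (P + N), ((p : ℝ)⁻¹) ^ 2 :=
        Finset.sum_le_sum_of_subset_of_nonneg h4 fun p _ _ => by positivity
    _ ≤ 1 / P - 1 / (P + N : ℝ) := h1 N
    _ ≤ 1 / P := by
        have : 0 ≤ 1 / (P + N : ℝ) := by positivity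
        linarith

end Pool.Agent.Lib.MP_f9aece_nt
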