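import Mathlib

/-!
Dirichlet polynomials with real coefficients, as elements of the monoid algebra of
the multiplicative monoid of natural numbers.
-/

set_option autoImplicit false

namespace Pool.Agent.Lib.MP_f9aece_nt

open Complex Set Filter Topology MeasureTheory

/-- finitely supported real functions on the naturals with Dirichlet convolution -/
abbrev DP := MonoidAlgebra ℝ ℕ

/-- pairing of a Dirichlet polynomial with a real function -/
noncomputable def pair (φ : ℕ → ℝ) (f : DP) : ℝ := f.coeff.sum fun a x => x * φ a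

lemma pair_def (φ : ℕ → ℝ) (f : DP) : pair φ f = ∑ a ∈ f.coeff.support, f.coeff a * φ a := rfl

@[simp] lemma pair_single (φ : ℕ → ℝ) (a : ℕ) (x : ℝ) :
    pair φ (MonoidAlgebra.single a x) = x * φ a := by
  simp [pair]

@[simp] lemma pair_zero (φ : ℕ → ℝ) : pair φ 0 = 0 := by simp [pair]

lemma pair_add (φ : ℕ → ℝ) (f g : DP) : pair φ (f + g) = pair φ f + pair φ g := by
  simp only [pair, MonoidAlgebra.coeff_add]
  rw [Finsupp.sum_add_index']
  · intro a; simp
  · intro a b c; ring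

lemma pair_smul (φ : ℕ → ℝ) (c : ℝ) (f : DP) : pair φ (c • f) = c * pair φ f := by
  simp only [pair, MonoidAlgebra.coeff_smul]
  rw [Finsupp.sum_smul_index' (by intro i; simp), Finsupp.mul_sum]
  simp [mul_assoc]

lemma pair_sum {ι : Type} (φ : ℕ → ℝ) (s : Finset ι) (f : ι → DP) :
    pair φ (∑ i ∈ s, f i) = ∑ i ∈ s, pair φ (f i) := by
  classical
  induction s using Finset.induction_on with
  | empty => simp
  | insert a s ha ih => rw [Finset.sum_insert ha, Finset.sum_insert ha, pair_add, ih]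

lemma pair_congr {φ ψ : ℕ → ℝ} (f : DP) (h : ∀ a, f.coeff a ≠ 0 → φ a = ψ a) :
    pair φ f = pair ψ f := by
  refine Finset.sum_congr rfl fun a ha => ?_
  simp only
  rw [h a (Finsupp.mem_support_iff.mp ha)]

lemma pair_const_mul (c : ℝ) (φ : ℕ → ℝ) (f : DP) :
    pair (fun a => c * φ a) f = c * pair φ f := by
  simp only [pair_def, Finset.mul_sum]
  exact Finset.sum_congr rfl fun a _ => by ring

lemma pair_mul_const (c : ℝ) (φ : ℕ → ℝ) (f : DP) :
    pair (fun a => φ a * c) f = pair φ f * c := by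
  simp only [pair_def, Finset.sum_mul]
  exact Finset.sum_congr rfl fun a _ => by ring

lemma pair_mul (φ : ℕ → ℝ) (f g : DP) :
    pair φ (f * g) = pair (fun a => pair (fun b => φ (a * b)) g) f := by
  induction f using MonoidAlgebra.induction_linear with
  | zero => simp
  | add x y hx hy => rw [add_mul, pair_add, hx, hy, pair_add]
  | single m r =>
    rw [pair_single]
    induction g using MonoidAlgebra.induction_linear with
    | zero => simp
    | add x y hx hy => rw [mul_add, pair_add, hx, hy, pair_add]; ring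
    | single m' r' => rw [MonoidAlgebra.single_mul_single, pair_single, pair_single]; ring

/-- nonnegative coefficients, supported in `A` -/
def Cone (A : Set ℕ) (f : DP) : Prop := ∀ n, 0 ≤ f.coeff n ∧ (f.coeff n ≠ 0 → n ∈ A)

lemma Cone.mono {A B : Set ℕ} {f : DP} (h : Cone A f) (hAB : A ⊆ B) : Cone B f :=
  fun n => ⟨(h n).1, fun hn => hAB ((h n).2 hn)⟩

lemma Cone.zero (A : Set ℕ) : Cone A 0 := fun n => by simp

lemma Cone.single {A : Set ℕ} {a : ℕ} (ha : a ∈ A) {x : ℝ} (hx : 0 ≤ x) :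
    Cone A (MonoidAlgebra.single a x) := by
  intro n
  rw [MonoidAlgebra.coeff_single, Finsupp.single_apply]
  split_ifs with h
  · subst h; exact ⟨hx, fun _ => ha⟩
  · exact ⟨le_rfl, fun h => absurd rfl h⟩

lemma Cone.add {A : Set ℕ} {f g : DP} (hf : Cone A f) (hg : Cone A g) : Cone A (f + g) := by
  intro n
  rw [MonoidAlgebra.coeff_add, Finsupp.add_apply]
  refine ⟨add_nonneg (hf n).1 (hg n).1, fun h => ?_⟩
  by_cases h1 : f.coeff n = 0
  · exact (hg n).2 (by intro h2; apply h; rw [h1, h2, add_zero])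
  · exact (hf n).2 h1

lemma Cone.smul {A : Set ℕ} {f : DP} (hf : Cone A f) {c : ℝ} (hc : 0 ≤ c) : Cone A (c • f) := by
  intro n
  rw [MonoidAlgebra.coeff_smul, Finsupp.smul_apply, smul_eq_mul]
  exact ⟨mul_nonneg hc (hf n).1, fun h => (hf n).2 (right_ne_zero_of_mul h)⟩

lemma Cone.sum {ι : Type} {A : Set ℕ} (s : Finset ι) {f : ι → DP} (hf : ∀ i ∈ s, Cone A (f i)) :
    Cone A (∑ i ∈ s, f i) := by
  classical
  induction s using Finset.induction_on with
  | empty => simpa using Cone.zero A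
  | insert a s ha ih =>
    rw [Finset.sum_insert ha]
    exact (hf a (Finset.mem_insert_self _ _)).add
      (ih fun i hi => hf i (Finset.mem_insert_of_mem hi))

lemma Cone.mul {A B C : Set ℕ} {f g : DP} (hf : Cone A f) (hg : Cone B g)
    (hABC : ∀ a ∈ A, ∀ b ∈ B, a * b ∈ C) : Cone C (f * g) := by
  classical
  rw [MonoidAlgebra.mul_def, Finsupp.sum]
  refine Cone.sum _ fun a ha => ?_
  rw [Finsupp.sum]
  refine Cone.sum _ fun b hb => ?_
  exact Cone.single (hABC a ((hf a).2 (Finsupp.mem_support_iff.mp ha)) b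
    ((hg b).2 (Finsupp.mem_support_iff.mp hb))) (mul_nonneg (hf a).1 (hg b).1)

lemma Cone.one {A : Set ℕ} (hA : 1 ∈ A) : Cone A 1 := Cone.single hA zero_le_one

lemma Cone.pow {A : Set ℕ} {f : DP} (hf : Cone A f) (hA : 1 ∈ A)
    (hAA : ∀ a ∈ A, ∀ b ∈ A, a * b ∈ A) (r : ℕ) : Cone A (f ^ r) := by
  induction r with
  | zero => simpa using Cone.one hA
  | succ r ih => rw [pow_succ]; exact ih.mul hf hAA

lemma Cone.prod {ι : Type} {A : Set ℕ} (s : Finset ι) {f : ι → DP} (hf : ∀ i ∈ s, Cone A (f i))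
    (hA : 1 ∈ A) (hAA : ∀ a ∈ A, ∀ b ∈ A, a * b ∈ A) : Cone A (∏ i ∈ s, f i) := by
  classical
  induction s using Finset.induction_on with
  | empty => simpa using Cone.one hA
  | insert a s ha ih =>
    rw [Finset.prod_insert ha]
    exact (hf a (Finset.mem_insert_self _ _)).mul
      (ih fun i hi => hf i (Finset.mem_insert_of_mem hi)) hAA

lemma pair_mono {A : Set ℕ} {f : DP} (hf : Cone A f) {φ ψ : ℕ → ℝ} (h : ∀ a ∈ A, φ a ≤ ψ a) :
    pair φ f ≤ pair ψ f := by
  refine Finset.sum_le_sum fun a ha => ?_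
  exact mul_le_mul_of_nonneg_left (h a ((hf a).2 (Finsupp.mem_support_iff.mp ha))) (hf a).1

lemma pair_nonneg {A : Set ℕ} {f : DP} (hf : Cone A f) {φ : ℕ → ℝ} (h : ∀ a ∈ A, 0 ≤ φ a) :
    0 ≤ pair φ f :=
  Finset.sum_nonneg fun a ha => mul_nonneg (hf a).1 (h a ((hf a).2 (Finsupp.mem_support_iff.mp ha)))

/-- monotonicity in the polynomial -/
lemma pair_le_of_coeff_le {f g : DP} (hf : ∀ n, 0 ≤ f.coeff n) (hfg : ∀ n, f.coeff n ≤ g.coeff n)
    {φ : ℕ → ℝ} (h : ∀ a, 0 ≤ φ a) : pair φ f ≤ pair φ g := by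
  classical
  rw [pair_def, pair_def]
  have h1 : f.coeff.support ⊆ g.coeff.support := by
    intro a ha
    rw [Finsupp.mem_support_iff] at ha ⊢
    have := hf a
    have := hfg a
    intro h0
    apply ha
    linarith
  calc ∑ a ∈ f.coeff.support, f.coeff a * φ a
      ≤ ∑ a ∈ f.coeff.support, g.coeff a * φ a := by
        refine Finset.sum_le_sum fun a _ => mul_le_mul_of_nonneg_right (hfg a) (h a)
    _ ≤ ∑ a ∈ g.coeff.support, g.coeff a * φ a := by
        refine Finset.sum_le_sum_of_subset_of_nonneg h1 fun a _ _ => ?_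
        exact mul_nonneg ((hf a).trans (hfg a)) (h a)

/-- bilinear form with kernel `K` -/
noncomputable def BK (K : ℕ → ℕ → ℝ) (f g : DP) : ℝ := pair (fun a => pair (fun b => K a b) g) f

lemma BK_mul (K : ℕ → ℕ → ℝ) {A B : Set ℕ} {f g f' g' : DP}
    (hf : Cone A f) (hf' : Cone A f') (hg : Cone B g) (hg' : Cone B g')
    (hK : ∀ a ∈ A, ∀ a' ∈ A, ∀ b ∈ B, ∀ b' ∈ B, K (a * b) (a' * b') = K a a' * K b b') :
    BK K (f * g) (f' * g') = BK K f f' * BK K g g' := by
  unfold BK
  rw [pair_mul]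
  have h1 : ∀ a, f.coeff a ≠ 0 →
      pair (fun b => pair (fun c => K (a * b) c) (f' * g')) g
        = pair (fun a' => K a a') f' * pair (fun b => pair (fun b' => K b b') g') g := by
    intro a ha
    have h2 : ∀ b, g.coeff b ≠ 0 → pair (fun c => K (a * b) c) (f' * g')
        = pair (fun a' => K a a') f' * pair (fun b' => K b b') g' := by
      intro b hb
      rw [pair_mul]
      have h3 : ∀ a', f'.coeff a' ≠ 0 → pair (fun b' => K (a * b) (a' * b')) g'
          = K a a' * pair (fun b' => K b b') g' := by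
        intro a' ha'
        rw [← pair_const_mul]
        refine pair_congr g' fun b' hb' => ?_
        exact hK a ((hf a).2 ha) a' ((hf' a').2 ha') b ((hg b).2 hb) b' ((hg' b').2 hb')
      rw [pair_congr f' h3, pair_mul_const]
    rw [pair_congr g h2, pair_const_mul]
  rw [pair_congr f h1, pair_mul_const]

lemma BK_nonneg {K : ℕ → ℕ → ℝ} {A : Set ℕ} {f g : DP} (hf : Cone A f) (hg : Cone A g)
    (hK : ∀ a b, 0 ≤ K a b) : 0 ≤ BK K f g :=
  pair_nonneg hf fun a _ => pair_nonneg hg fun b _ => hK a b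

lemma BK_mono {K : ℕ → ℕ → ℝ} {f g f' g' : DP} (hf : ∀ n, 0 ≤ f.coeff n)
    (hff' : ∀ n, f.coeff n ≤ f'.coeff n) (hg : ∀ n, 0 ≤ g.coeff n)
    (hgg' : ∀ n, g.coeff n ≤ g'.coeff n) (hK : ∀ a b, 0 ≤ K a b) :
    BK K f g ≤ BK K f' g' := by
  have hg'0 : ∀ n, 0 ≤ g'.coeff n := fun n => (hg n).trans (hgg' n)
  refine (pair_le_of_coeff_le hf hff' fun a => ?_).trans ?_
  · exact Finset.sum_nonneg fun b _ => mul_nonneg (hg b) (hK a b)
  · refine Finset.sum_le_sum fun a _ => mul_le_mul_of_nonneg_left ?_ ((hf a).trans (hff' a))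
    exact pair_le_of_coeff_le hg hgg' fun b => hK a b

lemma BK_add_left (K : ℕ → ℕ → ℝ) (f g h : DP) : BK K (f + g) h = BK K f h + BK K g h :=
  pair_add _ _ _

lemma BK_add_right (K : ℕ → ℕ → ℝ) (f g h : DP) : BK K f (g + h) = BK K f g + BK K f h := by
  unfold BK
  simp only [pair_add]
  simp only [pair_def, mul_add, Finset.sum_add_distrib]

lemma BK_single (K : ℕ → ℕ → ℝ) (a b : ℕ) (x y : ℝ) :
    BK K (MonoidAlgebra.single a x) (MonoidAlgebra.single b y) = x * y * K a b := by
  simp [BK, mul_assoc]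

end Pool.Agent.Lib.MP_f9aece_nt
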