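import Mathlib

/-!
Smooth compactly supported weights on the line, as measures:
repeated convolution of the restriction of Lebesgue measure to an interval with uniform laws.
-/

set_option autoImplicit false

namespace Pool.Agent.Lib.MP_f9aece_nt

open MeasureTheory Set Filter Topology Complex

/-- the uniform law on `[0,h]` -/
noncomputable def unif (h : ℝ) : Measure ℝ := (ENNReal.ofReal h)⁻¹ • volume.restrict (Icc 0 h)

/-- the smoothed interval measure -/
noncomputable def nu (a b h : ℝ) : ℕ → Measure ℝ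
  | 0 => volume.restrict (Icc a b)
  | (r + 1) => (unif h).conv (nu a b h r)

lemma unif_univ {h : ℝ} (hh : 0 < h) : unif h univ = 1 := by
  simp only [unif, Measure.smul_apply, Measure.restrict_apply_univ, Real.volume_Icc, sub_zero,
    smul_eq_mul]
  exact ENNReal.inv_mul_cancel (by simpa using hh) (by simp)

lemma unif_prob {h : ℝ} (hh : 0 < h) : IsProbabilityMeasure (unif h) := ⟨unif_univ hh⟩

lemma unif_ae {h : ℝ} : ∀ᵐ y ∂(unif h), y ∈ Icc 0 h := by
  have h1 : ∀ᵐ y ∂(volume.restrict (Icc 0 h)), y ∈ Icc 0 h := ae_restrict_mem measurableSet_Icc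
  exact Measure.ae_smul_measure h1 _

lemma nu_finite (a b : ℝ) {h : ℝ} (hh : 0 < h) (r : ℕ) : IsFiniteMeasure (nu a b h r) := by
  induction r with
  | zero => simp only [nu]; infer_instance
  | succ r ih =>
    have := unif_prob hh
    have := ih
    simp only [nu]
    infer_instance

lemma nu_univ {a b h : ℝ} (hh : 0 < h) (r : ℕ) : nu a b h r univ = ENNReal.ofReal (b - a) := by
  induction r with
  | zero => simp [nu]
  | succ r ih =>
    have := unif_prob hh
    have := nu_finite a b hh r
    simp only [nu]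
    rw [Measure.conv, Measure.map_apply (by fun_prop) MeasurableSet.univ]
    simp only [preimage_univ]
    rw [← univ_prod_univ, Measure.prod_prod, unif_univ hh, one_mul, ih]

lemma nu_real_univ {a b h : ℝ} (hh : 0 < h) (hab : a ≤ b) (r : ℕ) :
    (nu a b h r).real univ = b - a := by
  rw [Measure.real, nu_univ hh, ENNReal.toReal_ofReal (by linarith)]

lemma nu_le {a b h : ℝ} (hh : 0 < h) (r : ℕ) : nu a b h r ≤ volume := by
  induction r with
  | zero => exact Measure.restrict_le_self
  | succ r ih =>
    have := unif_prob hh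
    have := nu_finite a b hh r
    rw [Measure.le_iff]
    intro s hs
    simp only [nu]
    rw [← lintegral_indicator_one hs, Measure.lintegral_conv (by
      exact (measurable_const.indicator hs))]
    calc ∫⁻ x, ∫⁻ y, s.indicator 1 (x + y) ∂(nu a b h r) ∂(unif h)
        ≤ ∫⁻ x, ∫⁻ y, s.indicator 1 (x + y) ∂volume ∂(unif h) := by
          gcongr
      _ = ∫⁻ x, volume s ∂(unif h) := by
          congr 1
          funext x
          rw [lintegral_add_left_eq_self (fun y => s.indicator (1 : ℝ → ENNReal) y) x,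
            lintegral_indicator_one hs]
      _ = volume s := by
          rw [lintegral_const, unif_univ hh, mul_one]

lemma nu_ae {a b h : ℝ} (hh : 0 < h) (r : ℕ) :
    ∀ᵐ t ∂(nu a b h r), t ∈ Icc a (b + r * h) := by
  induction r with
  | zero =>
    simp only [nu, CharP.cast_eq_zero, zero_mul, add_zero]
    exact ae_restrict_mem measurableSet_Icc
  | succ r ih =>
    have := unif_prob hh
    have := nu_finite a b hh r
    have hs : MeasurableSet (Icc a (b + ((r + 1 : ℕ) : ℝ) * h))ᶜ := measurableSet_Icc.compl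
    rw [ae_iff]
    change (nu a b h (r + 1)) (Icc a (b + ((r + 1 : ℕ) : ℝ) * h))ᶜ = 0
    simp only [nu]
    rw [← lintegral_indicator_one hs, Measure.lintegral_conv (by
      exact (measurable_const.indicator hs))]
    rw [lintegral_eq_zero_iff' ?_]
    · filter_upwards [unif_ae (h := h)] with x hx
      simp only [Pi.zero_apply]
      rw [lintegral_eq_zero_iff' ?_]
      · filter_upwards [ih] with y hy
        simp only [Pi.zero_apply, indicator_apply_eq_zero, mem_compl_iff, Pi.one_apply, one_ne_zero,
          imp_false, not_not]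
        push_cast
        constructor
        · linarith [hx.1, hy.1]
        · linarith [hx.2, hy.2]
      · exact ((measurable_const.indicator hs).comp (measurable_const.add measurable_id)).aemeasurable
    · refine Measurable.aemeasurable ?_
      refine Measurable.lintegral_prod_right' (f := fun p : ℝ × ℝ => (Icc a (b + ((r + 1 : ℕ) : ℝ) * h))ᶜ.indicator (1 : ℝ → ENNReal) (p.1 + p.2)) ?_
      exact (measurable_const.indicator hs).comp measurable_add

lemma charFun_restrict_norm (a b ξ : ℝ) (hab : a ≤ b) :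
    ‖charFun (volume.restrict (Icc a b)) ξ‖ ≤ b - a := by
  refine (norm_charFun_le ξ).trans ?_
  simp [Measure.real, hab]

lemma charFun_unif_norm {h ξ : ℝ} (hh : 0 < h) (hξ : ξ ≠ 0) :
    ‖charFun (unif h) ξ‖ ≤ 2 / (h * |ξ|) := by
  have hξ0 : 0 < |ξ| := abs_pos.mpr hξ
  have h1 : charFun (unif h) ξ = ((1 / h : ℝ) : ℂ) * ∫ x in (0 : ℝ)..h, cexp (ξ * I * x) := by
    rw [charFun_apply_real, unif, integral_smul_measure, intervalIntegral.integral_of_le hh.le,
      integral_Icc_eq_integral_Ioc]
    rw [ENNReal.toReal_inv, ENNReal.toReal_ofReal hh.le, Complex.real_smul]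
    congr 1
    · simp
    · congr 1
      funext x
      congr 1
      ring
  have hc : (ξ : ℂ) * I ≠ 0 := by simp [hξ]
  rw [h1, integral_exp_mul_complex hc, norm_mul, norm_div]
  have h2 : ‖cexp (ξ * I * h) - cexp (ξ * I * ((0 : ℝ) : ℂ))‖ ≤ 2 := by
    refine (norm_sub_le _ _).trans ?_
    have e1 : (ξ : ℂ) * I * h = ((ξ * h : ℝ) : ℂ) * I := by push_cast; ring
    have e2 : (ξ : ℂ) * I * ((0 : ℝ) : ℂ) = ((0 : ℝ) : ℂ) * I := by push_cast; ring
    rw [e1, e2, Complex.norm_exp_ofReal_mul_I, Complex.norm_exp_ofReal_mul_I]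
    norm_num
  have h3 : ‖(ξ : ℂ) * I‖ = |ξ| := by simp
  rw [h3, Complex.norm_real, Real.norm_eq_abs, abs_of_pos (by positivity : 0 < 1 / h)]
  calc 1 / h * (‖cexp (ξ * I * h) - cexp (ξ * I * ((0 : ℝ) : ℂ))‖ / |ξ|)
      ≤ 1 / h * (2 / |ξ|) := by gcongr
    _ = 2 / (h * |ξ|) := by field_simp

lemma charFun_nu_norm {a b h ξ : ℝ} (hh : 0 < h) (hab : a ≤ b) (hξ : ξ ≠ 0) (r : ℕ) :
    ‖charFun (nu a b h r) ξ‖ ≤ (b - a) * (2 / (h * |ξ|)) ^ r := by
  induction r with
  | zero => simpa [nu] using charFun_restrict_norm a b ξ hab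
  | succ r ih =>
    have := unif_prob hh
    have := nu_finite a b hh r
    simp only [nu]
    rw [charFun_conv, norm_mul, pow_succ]
    have h1 := charFun_unif_norm hh hξ
    calc ‖charFun (unif h) ξ‖ * ‖charFun (nu a b h r) ξ‖
        ≤ (2 / (h * |ξ|)) * ((b - a) * (2 / (h * |ξ|)) ^ r) := by
          gcongr
      _ = _ := by ring

end Pool.Agent.Lib.MP_f9aece_nt
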