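import Mathlib
import Pool.Agent.Lib.MP_f9aece_nt.DirPoly
import Pool.Agent.Lib.MP_f9aece_nt.Weight

/-!
Evaluation of Dirichlet polynomials on the critical line and the mean value theorem.
-/

set_option autoImplicit false

namespace Pool.Agent.Lib.MP_f9aece_nt

open Complex Set Filter Topology MeasureTheory ComplexConjugate

/-- evaluation of a Dirichlet polynomial at `1/2 + i t` -/
noncomputable def ev (t : ℝ) : DP →ₐ[ℝ] ℂ :=
  MonoidAlgebra.lift ℝ ℂ ℕ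
    { toFun := fun n => (n : ℂ) ^ (-(1 / 2 + I * t : ℂ))
      map_one' := by simp
      map_mul' := fun m n => by
        push_cast
        exact Complex.natCast_mul_natCast_cpow m n _ }

/-- evaluation at `1` -/
noncomputable def ev1 : DP →ₐ[ℝ] ℝ :=
  MonoidAlgebra.lift ℝ ℝ ℕ
    { toFun := fun n => (n : ℝ)⁻¹
      map_one' := by simp
      map_mul' := fun m n => by
        push_cast
        rw [mul_inv] }

/-- evaluation at `1/2` -/
noncomputable def evh : DP →ₐ[ℝ] ℝ :=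
  MonoidAlgebra.lift ℝ ℝ ℕ
    { toFun := fun n => (n : ℝ) ^ (-(1 / 2) : ℝ)
      map_one' := by simp
      map_mul' := fun m n => by
        push_cast
        exact Real.mul_rpow (Nat.cast_nonneg _) (Nat.cast_nonneg _) }

lemma ev_apply (t : ℝ) (f : DP) :
    ev t f = ∑ a ∈ f.coeff.support, (f.coeff a : ℂ) * (a : ℂ) ^ (-(1 / 2 + I * t : ℂ)) := by
  rw [ev, MonoidAlgebra.lift_apply, Finsupp.sum]
  refine Finset.sum_congr rfl fun a _ => ?_
  rw [Complex.real_smul]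
  rfl

lemma ev1_apply (f : DP) : ev1 f = pair (fun n => (n : ℝ)⁻¹) f := by
  rw [ev1, MonoidAlgebra.lift_apply, pair]
  rfl

lemma evh_apply (f : DP) : evh f = pair (fun n => (n : ℝ) ^ (-(1 / 2) : ℝ)) f := by
  rw [evh, MonoidAlgebra.lift_apply, pair]
  rfl

@[simp] lemma ev_single (t : ℝ) (a : ℕ) (x : ℝ) :
    ev t (MonoidAlgebra.single a x) = (x : ℂ) * (a : ℂ) ^ (-(1 / 2 + I * t : ℂ)) := by
  rw [ev, MonoidAlgebra.lift_single, Complex.real_smul]
  rfl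

@[simp] lemma ev1_single (a : ℕ) (x : ℝ) :
    ev1 (MonoidAlgebra.single a x) = x * (a : ℝ)⁻¹ := by
  rw [ev1, MonoidAlgebra.lift_single]
  rfl

@[simp] lemma evh_single (a : ℕ) (x : ℝ) :
    evh (MonoidAlgebra.single a x) = x * (a : ℝ) ^ (-(1 / 2) : ℝ) := by
  rw [evh, MonoidAlgebra.lift_single]
  rfl

/-- the diagonal kernel -/
noncomputable def K1 (a b : ℕ) : ℝ := if a = b then (a : ℝ)⁻¹ else 0

lemma K1_nonneg (a b : ℕ) : 0 ≤ K1 a b := by
  unfold K1; split_ifs <;> positivity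

lemma continuous_ev (f : DP) : Continuous (fun t : ℝ => ev t f) := by
  simp_rw [ev_apply]
  refine continuous_finsetSum _ fun a _ => ?_
  refine continuous_const.mul ?_
  rcases eq_or_ne a 0 with rfl | ha
  · have : ∀ t : ℝ, ((0 : ℕ) : ℂ) ^ (-(1 / 2 + I * t : ℂ)) = 0 := by
      intro t
      rw [Nat.cast_zero, Complex.zero_cpow]
      intro h
      have := congrArg Complex.re h
      simp at this
    simp_rw [this]
    exact continuous_const
  · refine Continuous.const_cpow (by fun_prop) (Or.inl (by exact_mod_cast ha))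

lemma norm_ev_le {A : Set ℕ} {f : DP} (hf : Cone A f) (hA : ∀ a ∈ A, 1 ≤ a) (t : ℝ) :
    ‖ev t f‖ ≤ evh f := by
  rw [ev_apply, evh_apply, pair_def]
  refine (norm_sum_le _ _).trans (Finset.sum_le_sum fun a ha => ?_)
  have ha1 : 1 ≤ a := hA a ((hf a).2 (Finsupp.mem_support_iff.mp ha))
  rw [norm_mul, Complex.norm_natCast_cpow_of_pos ha1, Complex.norm_real, Real.norm_eq_abs,
    abs_of_nonneg (hf a).1]
  simp

lemma term_eq {a b : ℕ} (ha : 1 ≤ a) (hb : 1 ≤ b) (t : ℝ) :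
    (a : ℂ) ^ (-(1 / 2 + I * t : ℂ)) * conj ((b : ℂ) ^ (-(1 / 2 + I * t : ℂ)))
      = (((a : ℝ) ^ (-(1 / 2) : ℝ) * (b : ℝ) ^ (-(1 / 2) : ℝ) : ℝ) : ℂ)
        * cexp (((Real.log b - Real.log a : ℝ) : ℂ) * t * I) := by
  have ha0 : (a : ℂ) ≠ 0 := by exact_mod_cast (by omega : a ≠ 0)
  have hb0 : (b : ℂ) ≠ 0 := by exact_mod_cast (by omega : b ≠ 0)
  have ha' : (0 : ℝ) < a := by exact_mod_cast ha
  have hb' : (0 : ℝ) < b := by exact_mod_cast hb
  rw [Complex.cpow_def_of_ne_zero ha0, Complex.cpow_def_of_ne_zero hb0, ← Complex.exp_conj,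
    Real.rpow_def_of_pos ha', Real.rpow_def_of_pos hb', ← Complex.natCast_log,
    ← Complex.natCast_log]
  push_cast
  rw [← Complex.exp_add, ← Complex.exp_add, ← Complex.exp_add]
  congr 1
  simp only [map_mul, map_neg, map_add, map_div₀, map_one, Complex.conj_I, Complex.conj_ofReal,
    Complex.conj_ofNat]
  have e1 : conj (Complex.log (b : ℂ)) = Complex.log (b : ℂ) := by
    rw [← Complex.natCast_log, Complex.conj_ofReal]
  rw [e1]
  ring

lemma term_integral (ν : Measure ℝ) {a b : ℕ} (ha : 1 ≤ a) (hb : 1 ≤ b) :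
    ∫ t, (a : ℂ) ^ (-(1 / 2 + I * t : ℂ)) * conj ((b : ℂ) ^ (-(1 / 2 + I * t : ℂ))) ∂ν
      = (((a : ℝ) ^ (-(1 / 2) : ℝ) * (b : ℝ) ^ (-(1 / 2) : ℝ) : ℝ) : ℂ)
        * charFun ν (Real.log b - Real.log a) := by
  simp_rw [term_eq ha hb]
  rw [integral_const_mul, charFun_apply_real]

lemma continuous_term {a b : ℕ} (ha : 1 ≤ a) (hb : 1 ≤ b) :
    Continuous (fun t : ℝ => (a : ℂ) ^ (-(1 / 2 + I * t : ℂ)) * conj ((b : ℂ) ^ (-(1 / 2 + I * t : ℂ)))) := by
  have ha0 : (a : ℂ) ≠ 0 := by exact_mod_cast (by omega : a ≠ 0)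
  have hb0 : (b : ℂ) ≠ 0 := by exact_mod_cast (by omega : b ≠ 0)
  refine Continuous.mul ?_ (Complex.continuous_conj.comp ?_)
  · exact Continuous.const_cpow (by fun_prop) (Or.inl ha0)
  · exact Continuous.const_cpow (by fun_prop) (Or.inl hb0)

lemma norm_term {a b : ℕ} (ha : 1 ≤ a) (hb : 1 ≤ b) (t : ℝ) :
    ‖(a : ℂ) ^ (-(1 / 2 + I * t : ℂ)) * conj ((b : ℂ) ^ (-(1 / 2 + I * t : ℂ)))‖
      ≤ (a : ℝ) ^ (-(1 / 2) : ℝ) * (b : ℝ) ^ (-(1 / 2) : ℝ) := by
  rw [norm_mul, RCLike.norm_conj, Complex.norm_natCast_cpow_of_pos ha,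
    Complex.norm_natCast_cpow_of_pos hb]
  simp

lemma integrable_term (ν : Measure ℝ) [IsFiniteMeasure ν] {a b : ℕ} (ha : 1 ≤ a) (hb : 1 ≤ b) :
    Integrable (fun t : ℝ => (a : ℂ) ^ (-(1 / 2 + I * t : ℂ)) * conj ((b : ℂ) ^ (-(1 / 2 + I * t : ℂ)))) ν := by
  refine Integrable.of_bound (continuous_term ha hb).aestronglyMeasurable
    ((a : ℝ) ^ (-(1 / 2) : ℝ) * (b : ℝ) ^ (-(1 / 2) : ℝ)) (Eventually.of_forall (norm_term ha hb))

lemma mv {ν : Measure ℝ} [IsFiniteMeasure ν] {ρ : ℝ} {Z : ℕ}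
    (hρ : ∀ a b : ℕ, 1 ≤ a → 1 ≤ b → b ≤ Z → a ≠ b → ‖charFun ν (Real.log b - Real.log a)‖ ≤ ρ)
    (hρ0 : 0 ≤ ρ)
    {f g : DP} (hf : Cone {n | 1 ≤ n} f) (hg : Cone {n | 1 ≤ n ∧ n ≤ Z} g) :
    ‖(∫ t, ev t f * conj (ev t g) ∂ν) - ((ν.real univ * BK K1 f g : ℝ) : ℂ)‖ ≤ ρ * evh f * evh g := by
  have hfs : ∀ a ∈ f.coeff.support, 1 ≤ a := fun a ha => (hf a).2 (Finsupp.mem_support_iff.mp ha)
  have hgs : ∀ a ∈ g.coeff.support, 1 ≤ a ∧ a ≤ Z :=
    fun a ha => (hg a).2 (Finsupp.mem_support_iff.mp ha)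
  have h1 : ∀ t : ℝ, ev t f * conj (ev t g) = ∑ a ∈ f.coeff.support, ∑ b ∈ g.coeff.support,
      ((f.coeff a * g.coeff b : ℝ) : ℂ) *
        ((a : ℂ) ^ (-(1 / 2 + I * t : ℂ)) * conj ((b : ℂ) ^ (-(1 / 2 + I * t : ℂ)))) := by
    intro t
    rw [ev_apply, ev_apply, map_sum, Finset.sum_mul_sum]
    refine Finset.sum_congr rfl fun a _ => Finset.sum_congr rfl fun b _ => ?_
    rw [map_mul, Complex.conj_ofReal]
    push_cast
    ring
  simp_rw [h1]
  rw [integral_finsetSum _ (fun a ha => integrable_finsetSum _ (fun b hb =>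
    (integrable_term ν (hfs a ha) (hgs b hb).1).const_mul _))]
  have h2 : ∀ a ∈ f.coeff.support, ∫ t, ∑ b ∈ g.coeff.support,
      ((f.coeff a * g.coeff b : ℝ) : ℂ) *
        ((a : ℂ) ^ (-(1 / 2 + I * t : ℂ)) * conj ((b : ℂ) ^ (-(1 / 2 + I * t : ℂ)))) ∂ν
      = ∑ b ∈ g.coeff.support, ((f.coeff a * g.coeff b : ℝ) : ℂ) *
        ((((a : ℝ) ^ (-(1 / 2) : ℝ) * (b : ℝ) ^ (-(1 / 2) : ℝ) : ℝ) : ℂ)
        * charFun ν (Real.log b - Real.log a)) := by
    intro a ha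
    rw [integral_finsetSum _ (fun b hb =>
      (integrable_term ν (hfs a ha) (hgs b hb).1).const_mul _)]
    refine Finset.sum_congr rfl fun b hb => ?_
    rw [integral_const_mul, term_integral ν (hfs a ha) (hgs b hb).1]
  rw [Finset.sum_congr rfl h2]
  have h3 : ((ν.real univ * BK K1 f g : ℝ) : ℂ) = ∑ a ∈ f.coeff.support, ∑ b ∈ g.coeff.support,
      ((f.coeff a * g.coeff b * (ν.real univ * K1 a b) : ℝ) : ℂ) := by
    rw [BK, pair_def, Finset.mul_sum]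
    push_cast
    refine Finset.sum_congr rfl fun a _ => ?_
    rw [pair_def]
    push_cast
    rw [Finset.mul_sum, Finset.mul_sum]
    refine Finset.sum_congr rfl fun b _ => ?_
    ring
  rw [h3, ← Finset.sum_sub_distrib]
  simp_rw [← Finset.sum_sub_distrib]
  have h4 : ∀ a ∈ f.coeff.support, ∀ b ∈ g.coeff.support,
      ‖((f.coeff a * g.coeff b : ℝ) : ℂ) *
        ((((a : ℝ) ^ (-(1 / 2) : ℝ) * (b : ℝ) ^ (-(1 / 2) : ℝ) : ℝ) : ℂ)
        * charFun ν (Real.log b - Real.log a))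
        - ((f.coeff a * g.coeff b * (ν.real univ * K1 a b) : ℝ) : ℂ)‖
      ≤ ρ * (f.coeff a * (a : ℝ) ^ (-(1 / 2) : ℝ)) * (g.coeff b * (b : ℝ) ^ (-(1 / 2) : ℝ)) := by
    intro a ha b hb
    have hfa := (hf a).1
    have hgb := (hg b).1
    have ha1 := hfs a ha
    have hb1 := hgs b hb
    by_cases hab : a = b
    · subst hab
      rw [sub_self, charFun_zero]
      have e : (a : ℝ) ^ (-(1 / 2) : ℝ) * (a : ℝ) ^ (-(1 / 2) : ℝ) = (a : ℝ)⁻¹ := by
        rw [← Real.rpow_add (by exact_mod_cast ha1), ← Real.rpow_neg_one]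
        norm_num
      rw [e, K1, if_pos rfl]
      have : ((f.coeff a * g.coeff a : ℝ) : ℂ) * ((((a : ℝ)⁻¹ : ℝ) : ℂ) * ((ν.real univ : ℝ) : ℂ))
          - ((f.coeff a * g.coeff a * (ν.real univ * (a : ℝ)⁻¹) : ℝ) : ℂ) = 0 := by
        push_cast
        ring
      rw [this, norm_zero]
      positivity
    · rw [K1, if_neg hab]
      simp only [mul_zero, Complex.ofReal_zero, sub_zero]
      rw [norm_mul, norm_mul, Complex.norm_real, Complex.norm_real, Real.norm_eq_abs,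
        Real.norm_eq_abs, abs_of_nonneg (by positivity), abs_of_nonneg (by positivity)]
      have := hρ a b ha1 hb1.1 hb1.2 hab
      calc f.coeff a * g.coeff b * ((a : ℝ) ^ (-(1 / 2) : ℝ) * (b : ℝ) ^ (-(1 / 2) : ℝ)
            * ‖charFun ν (Real.log b - Real.log a)‖)
          ≤ f.coeff a * g.coeff b * ((a : ℝ) ^ (-(1 / 2) : ℝ) * (b : ℝ) ^ (-(1 / 2) : ℝ) * ρ) := by
            gcongr
        _ = _ := by ring
  refine (norm_sum_le _ _).trans ?_
  refine (Finset.sum_le_sum fun a ha => (norm_sum_le _ _).trans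
    (Finset.sum_le_sum fun b hb => h4 a ha b hb)).trans (le_of_eq ?_)
  rw [evh_apply, evh_apply, pair_def, pair_def]
  have e : ∀ x y z : ℝ, x * y * z = x * (y * z) := fun x y z => by ring
  rw [e, Finset.sum_mul_sum, Finset.mul_sum]
  refine Finset.sum_congr rfl fun a _ => ?_
  rw [Finset.mul_sum]
  exact Finset.sum_congr rfl fun b _ => by ring

end Pool.Agent.Lib.MP_f9aece_nt
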