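import Mathlib
import Pool.Agent.Lib.MP_f9aece_nt.DirPoly
import Pool.Agent.Lib.MP_f9aece_nt.MeanValue

/-!
Powers of prime polynomials and truncated exponentials.
-/

set_option autoImplicit false

namespace Pool.Agent.Lib.MP_f9aece_nt

open Complex Set Filter Topology MeasureTheory ComplexConjugate
open scoped ArithmeticFunction.Omega

/-- the prime polynomial -/
noncomputable def PP (I : Finset ℕ) : DP := ∑ p ∈ I, MonoidAlgebra.single p 1

/-- sum of reciprocals -/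
noncomputable def VV (I : Finset ℕ) : ℝ := ∑ p ∈ I, (p : ℝ)⁻¹

/-- numbers composed of elements of `I` -/
def Smo (I : Set ℕ) : Set ℕ := {n | n ≠ 0 ∧ ∀ p, p.Prime → p ∣ n → p ∈ I}

/-- truncated exponential -/
noncomputable def expo (c : ℝ) (M : ℕ) (I : Finset ℕ) : DP :=
  ∑ r ∈ Finset.range (M + 1), (c ^ r / (r.factorial : ℝ)) • (PP I) ^ r

lemma VV_nonneg (I : Finset ℕ) : 0 ≤ VV I := Finset.sum_nonneg fun p _ => by positivity

lemma ev1_PP (I : Finset ℕ) : ev1 (PP I) = VV I := by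
  simp [PP, VV]

lemma one_mem_Smo (I : Set ℕ) : 1 ∈ Smo I := by
  refine ⟨one_ne_zero, fun p hp h => ?_⟩
  exact absurd (Nat.dvd_one.mp h) hp.one_lt.ne'

lemma mul_mem_Smo {I : Set ℕ} {a b : ℕ} (ha : a ∈ Smo I) (hb : b ∈ Smo I) : a * b ∈ Smo I := by
  refine ⟨mul_ne_zero ha.1 hb.1, fun p hp h => ?_⟩
  rcases (hp.dvd_mul).mp h with h | h
  · exact ha.2 p hp h
  · exact hb.2 p hp h

lemma prime_mem_Smo {I : Set ℕ} {p : ℕ} (hp : p.Prime) (hI : p ∈ I) : p ∈ Smo I := by
  refine ⟨hp.ne_zero, fun q hq h => ?_⟩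
  rw [(Nat.prime_dvd_prime_iff_eq hq hp).mp h]
  exact hI

lemma Smo_mono {I J : Set ℕ} (h : I ⊆ J) : Smo I ⊆ Smo J := fun _ hn => ⟨hn.1, fun p hp hd => h (hn.2 p hp hd)⟩

lemma Smo_pos {I : Set ℕ} {n : ℕ} (h : n ∈ Smo I) : 1 ≤ n := Nat.one_le_iff_ne_zero.mpr h.1

/-- support and nonnegativity of powers -/
lemma cone_PP_pow {I : Finset ℕ} (hI : ∀ p ∈ I, p.Prime) (r : ℕ) :
    Cone {n | n ∈ Smo I ∧ Ω n = r} ((PP I) ^ r) := by
  induction r with
  | zero =>
    rw [pow_zero]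
    refine Cone.one ⟨one_mem_Smo _, by simp⟩
  | succ r ih =>
    rw [pow_succ]
    refine ih.mul (B := {n | n ∈ Smo I ∧ Ω n = 1}) ?_ ?_
    · refine Cone.sum _ fun p hp => Cone.single ?_ zero_le_one
      exact ⟨prime_mem_Smo (hI p hp) hp, ArithmeticFunction.cardFactors_apply_prime (hI p hp)⟩
    · rintro a ⟨ha, ha'⟩ b ⟨hb, hb'⟩
      refine ⟨mul_mem_Smo ha hb, ?_⟩
      rw [ArithmeticFunction.cardFactors_mul ha.1 hb.1, ha', hb']

lemma coeff_single_mul (p : ℕ) (hp : p ≠ 0) (f : DP) (n : ℕ) :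
    (MonoidAlgebra.single p (1 : ℝ) * f).coeff n = if p ∣ n then f.coeff (n / p) else 0 := by
  split_ifs with h
  · rw [MonoidAlgebra.coeff_single_mul_eq_mul_coeff (n / p), one_mul]
    intro m' _
    obtain ⟨c, rfl⟩ := h
    rw [Nat.mul_div_cancel_left c (Nat.pos_of_ne_zero hp)]
    constructor
    · intro h; exact Nat.eq_of_mul_eq_mul_left (Nat.pos_of_ne_zero hp) h
    · rintro rfl; rfl
  · apply MonoidAlgebra.coeff_single_mul_of_forall_mul_ne
    intro d hd
    exact h ⟨d, hd.symm⟩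

lemma coeff_PP_pow_succ {I : Finset ℕ} (hI : ∀ p ∈ I, p.Prime) (r n : ℕ) :
    ((PP I) ^ (r + 1)).coeff n = ∑ p ∈ I with p ∣ n, ((PP I) ^ r).coeff (n / p) := by
  rw [pow_succ', PP, Finset.sum_mul, MonoidAlgebra.coeff_sum, Finsupp.finsetSum_apply,
    Finset.sum_filter]
  refine Finset.sum_congr rfl fun p hp => ?_
  exact coeff_single_mul p (hI p hp).ne_zero _ n

lemma coeff_PP_pow_le {I : Finset ℕ} (hI : ∀ p ∈ I, p.Prime) (r n : ℕ) :
    ((PP I) ^ r).coeff n ≤ r.factorial := by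
  induction r generalizing n with
  | zero =>
    rw [pow_zero, MonoidAlgebra.one_def, MonoidAlgebra.coeff_single, Finsupp.single_apply]
    split_ifs <;> simp
  | succ r ih =>
    by_cases h : ((PP I) ^ (r + 1)).coeff n = 0
    · rw [h]; positivity
    · have hm := (cone_PP_pow hI (r + 1) n).2 h
      obtain ⟨⟨hn0, _⟩, hn⟩ := hm
      rw [coeff_PP_pow_succ hI]
      calc ∑ p ∈ I with p ∣ n, ((PP I) ^ r).coeff (n / p)
          ≤ ∑ p ∈ I with p ∣ n, (r.factorial : ℝ) := Finset.sum_le_sum fun p _ => ih (n / p)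
        _ = ((I.filter (· ∣ n)).card : ℝ) * r.factorial := by rw [Finset.sum_const, nsmul_eq_mul]
        _ ≤ ((r + 1 : ℕ) : ℝ) * r.factorial := by
            gcongr
            calc (I.filter (· ∣ n)).card ≤ n.primeFactors.card := by
                  refine Finset.card_le_card fun p hp => ?_
                  rw [Finset.mem_filter] at hp
                  exact Nat.mem_primeFactors.mpr ⟨hI p hp.1, hp.2, hn0⟩
              _ ≤ n.primeFactorsList.length := List.toFinset_card_le _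
              _ = r + 1 := by rw [← ArithmeticFunction.cardFactors_apply, hn]
        _ = ((r + 1).factorial : ℝ) := by rw [Nat.factorial_succ]; push_cast; ring

lemma BK_K1_eq (f g : DP) : BK K1 f g = pair (fun n => g.coeff n * (n : ℝ)⁻¹) f := by
  unfold BK
  refine pair_congr f fun a _ => ?_
  rw [pair_def]
  simp only [K1, mul_ite, mul_zero]
  by_cases h : a ∈ g.coeff.support
  · rw [Finset.sum_ite_eq]
    simp [h]
  · rw [Finset.sum_ite_eq]
    rw [Finsupp.notMem_support_iff] at h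
    simp [h]

lemma BK_K1_comm (f g : DP) : BK K1 f g = BK K1 g f := by
  classical
  rw [BK_K1_eq, BK_K1_eq, pair_def, pair_def]
  have h1 : ∑ a ∈ f.coeff.support, f.coeff a * (g.coeff a * (a : ℝ)⁻¹)
      = ∑ a ∈ f.coeff.support ∪ g.coeff.support, f.coeff a * (g.coeff a * (a : ℝ)⁻¹) := by
    refine Finset.sum_subset Finset.subset_union_left fun a _ ha => ?_
    rw [Finsupp.notMem_support_iff] at ha
    simp [ha]
  have h2 : ∑ a ∈ g.coeff.support, g.coeff a * (f.coeff a * (a : ℝ)⁻¹)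
      = ∑ a ∈ f.coeff.support ∪ g.coeff.support, g.coeff a * (f.coeff a * (a : ℝ)⁻¹) := by
    refine Finset.sum_subset Finset.subset_union_right fun a _ ha => ?_
    rw [Finsupp.notMem_support_iff] at ha
    simp [ha]
  rw [h1, h2]
  exact Finset.sum_congr rfl fun a _ => by ring

lemma BK_PP_pow_self {I : Finset ℕ} (hI : ∀ p ∈ I, p.Prime) (r : ℕ) :
    BK K1 ((PP I) ^ r) ((PP I) ^ r) ≤ r.factorial * (VV I) ^ r := by
  rw [BK_K1_eq]
  have h1 : pair (fun n => ((PP I) ^ r).coeff n * (n : ℝ)⁻¹) ((PP I) ^ r)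
      ≤ pair (fun n => (r.factorial : ℝ) * (n : ℝ)⁻¹) ((PP I) ^ r) := by
    refine pair_mono (cone_PP_pow hI r) fun a _ => ?_
    have := coeff_PP_pow_le hI r a
    gcongr
  refine h1.trans (le_of_eq ?_)
  rw [pair_const_mul, ← ev1_apply, map_pow, ev1_PP]

lemma BK_PP_pow_ne {I : Finset ℕ} (hI : ∀ p ∈ I, p.Prime) {r s : ℕ} (h : r ≠ s) :
    BK K1 ((PP I) ^ r) ((PP I) ^ s) = 0 := by
  rw [BK_K1_eq]
  have : pair (fun n => ((PP I) ^ s).coeff n * (n : ℝ)⁻¹) ((PP I) ^ r)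
      = pair (fun _ => 0) ((PP I) ^ r) := by
    refine pair_congr _ fun a ha => ?_
    have h1 := ((cone_PP_pow hI r a).2 ha).2
    have h2 : ((PP I) ^ s).coeff a = 0 := by
      by_contra h3
      have h4 := ((cone_PP_pow hI s a).2 h3).2
      exact h (h1.symm.trans h4)
    rw [h2, zero_mul]
  rw [this, pair_def]
  simp

lemma BK_sum_left {ι : Type} (K : ℕ → ℕ → ℝ) (s : Finset ι) (f : ι → DP) (g : DP) :
    BK K (∑ i ∈ s, f i) g = ∑ i ∈ s, BK K (f i) g := pair_sum _ _ _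

lemma BK_sum_right {ι : Type} (K : ℕ → ℕ → ℝ) (s : Finset ι) (f : DP) (g : ι → DP) :
    BK K f (∑ i ∈ s, g i) = ∑ i ∈ s, BK K f (g i) := by
  unfold BK
  simp only [pair_sum]
  simp only [pair_def]
  rw [Finset.sum_comm]
  refine Finset.sum_congr rfl fun a _ => ?_
  rw [Finset.mul_sum]

lemma BK_smul_left (K : ℕ → ℕ → ℝ) (c : ℝ) (f g : DP) : BK K (c • f) g = c * BK K f g :=
  pair_smul _ _ _

lemma BK_smul_right (K : ℕ → ℕ → ℝ) (c : ℝ) (f g : DP) : BK K f (c • g) = c * BK K f g := by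
  unfold BK
  simp only [pair_smul]
  exact pair_const_mul _ _ _

lemma BK_expo {I : Finset ℕ} (hI : ∀ p ∈ I, p.Prime) (c : ℝ) (M : ℕ) :
    BK K1 (expo c M I) (expo c M I) ≤ Real.exp (c ^ 2 * VV I) := by
  unfold expo
  rw [BK_sum_left]
  have h1 : ∀ r ∈ Finset.range (M + 1),
      BK K1 ((c ^ r / (r.factorial : ℝ)) • (PP I) ^ r)
        (∑ s ∈ Finset.range (M + 1), (c ^ s / (s.factorial : ℝ)) • (PP I) ^ s)
      ≤ (c ^ 2 * VV I) ^ r / r.factorial := by
    intro r hr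
    rw [BK_sum_right, Finset.sum_eq_single r]
    · rw [BK_smul_left, BK_smul_right]
      have h2 := BK_PP_pow_self hI r
      have h3 : (0 : ℝ) < r.factorial := by positivity
      calc c ^ r / (r.factorial : ℝ) * (c ^ r / (r.factorial : ℝ) * BK K1 ((PP I) ^ r) ((PP I) ^ r))
          = (c ^ r / (r.factorial : ℝ)) ^ 2 * BK K1 ((PP I) ^ r) ((PP I) ^ r) := by ring
        _ ≤ (c ^ r / (r.factorial : ℝ)) ^ 2 * (r.factorial * (VV I) ^ r) := by gcongr
        _ = _ := by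
            rw [div_pow, mul_pow, ← pow_mul, mul_comm r 2, pow_mul]
            field_simp
    · intro s _ hs
      rw [BK_smul_left, BK_smul_right, BK_PP_pow_ne hI hs.symm]
      simp
    · intro h; exact absurd hr h
  refine (Finset.sum_le_sum h1).trans ?_
  exact Real.sum_le_exp_of_nonneg (mul_nonneg (sq_nonneg _) (VV_nonneg I)) _

lemma ev1_expo_le {I : Finset ℕ} {c : ℝ} (hc : 0 ≤ c) (M : ℕ) :
    ev1 (expo c M I) ≤ Real.exp (c * VV I) := by
  unfold expo
  rw [map_sum]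
  have h1 : ∀ r ∈ Finset.range (M + 1), ev1 ((c ^ r / (r.factorial : ℝ)) • (PP I) ^ r)
      = (c * VV I) ^ r / r.factorial := by
    intro r _
    rw [map_smul, map_pow, ev1_PP, smul_eq_mul, mul_pow]
    ring
  rw [Finset.sum_congr rfl h1]
  exact Real.sum_le_exp_of_nonneg (mul_nonneg hc (VV_nonneg I)) _

lemma cone_expo {I : Finset ℕ} (hI : ∀ p ∈ I, p.Prime) {c : ℝ} (hc : 0 ≤ c) (M : ℕ) :
    Cone {n | n ∈ Smo I ∧ Ω n ≤ M} (expo c M I) := by
  refine Cone.sum _ fun r hr => ?_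
  rw [Finset.mem_range] at hr
  refine ((cone_PP_pow hI r).mono ?_).smul (by positivity)
  rintro n ⟨h1, h2⟩
  exact ⟨h1, by omega⟩

lemma log_le_of_Omega {I : Set ℕ} {lam : ℝ} (hlam : ∀ p ∈ I, Real.log p ≤ lam) (hlam0 : 0 ≤ lam)
    {n M : ℕ} (hn : n ∈ Smo I) (hO : Ω n ≤ M) : Real.log n ≤ M * lam := by
  have h0 : n ≠ 0 := hn.1
  have h1 : (n : ℝ) = ((n.primeFactorsList.map (fun p : ℕ => (p : ℝ))).prod) := by
    conv_lhs => rw [← Nat.prod_primeFactorsList h0]
    rw [Nat.cast_list_prod]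
  have h2 : Real.log n = ((n.primeFactorsList.map (fun p : ℕ => Real.log p)).sum) := by
    rw [h1, Real.log_list_prod]
    · rw [List.map_map]; rfl
    · intro x hx
      rw [List.mem_map] at hx
      obtain ⟨p, hp, rfl⟩ := hx
      exact_mod_cast (Nat.prime_of_mem_primeFactorsList hp).ne_zero
  rw [h2]
  calc (n.primeFactorsList.map (fun p : ℕ => Real.log p)).sum
      ≤ (n.primeFactorsList.map (fun _ : ℕ => lam)).sum := by
        refine List.sum_le_sum fun p hp => ?_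
        exact hlam p (hn.2 p (Nat.prime_of_mem_primeFactorsList hp) (Nat.dvd_of_mem_primeFactorsList hp))
    _ = Ω n * lam := by
        rw [List.map_const', List.sum_replicate, nsmul_eq_mul, ArithmeticFunction.cardFactors_apply]
    _ ≤ M * lam := by gcongr

end Pool.Agent.Lib.MP_f9aece_nt
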