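import Mathlib
import Pool.Agent.Lib.MP_f9aece_nt.PrimeSums
import Pool.Agent.Lib.MP_f9aece_nt.PrimePoly

/-!
Geometric scales of primes.
-/

set_option autoImplicit false

namespace Pool.Agent.Lib.MP_f9aece_nt

open Finset

/-- the `j`-th scale of primes -/
noncomputable def sc (Y : ℝ) (p0 : ℕ) (j : ℕ) : Finset ℕ :=
  (Finset.Icc 1 ⌊Real.exp Y⌋₊).filter
    (fun p => p.Prime ∧ p0 < p ∧ Y / 4 ^ (j + 1) < Real.log p ∧ Real.log p ≤ Y / 4 ^ j)

lemma mem_sc {Y : ℝ} {p0 j p : ℕ} : p ∈ sc Y p0 j ↔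
    p ∈ Finset.Icc 1 ⌊Real.exp Y⌋₊ ∧ p.Prime ∧ p0 < p ∧ Y / 4 ^ (j + 1) < Real.log p ∧
      Real.log p ≤ Y / 4 ^ j := by
  rw [sc, Finset.mem_filter]

lemma sc_prime {Y : ℝ} {p0 j p : ℕ} (h : p ∈ sc Y p0 j) : p.Prime := (mem_sc.mp h).2.1

lemma sc_log_le {Y : ℝ} {p0 j p : ℕ} (h : p ∈ sc Y p0 j) : Real.log p ≤ Y / 4 ^ j :=
  (mem_sc.mp h).2.2.2.2

lemma sc_disjoint {Y : ℝ} (hY : 0 < Y) {p0 i j : ℕ} (h : i ≠ j) :
    Disjoint (sc Y p0 i) (sc Y p0 j) := by
  rw [Finset.disjoint_left]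
  intro p hi hj
  rw [mem_sc] at hi hj
  rcases lt_or_gt_of_ne h with h | h
  · -- i < j
    have h1 : Y / 4 ^ j ≤ Y / 4 ^ (i + 1) := by
      apply div_le_div_of_nonneg_left hY.le (by positivity)
      exact pow_le_pow_right₀ (by norm_num) h
    linarith [hi.2.2.2.1, hj.2.2.2.2]
  · have h1 : Y / 4 ^ i ≤ Y / 4 ^ (j + 1) := by
      apply div_le_div_of_nonneg_left hY.le (by positivity)
      exact pow_le_pow_right₀ (by norm_num) h
    linarith [hj.2.2.2.1, hi.2.2.2.2]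

lemma VV_sc_le {Y : ℝ} (hY : 0 < Y) (p0 j : ℕ) : VV (sc Y p0 j) ≤ 12 := by
  refine sum_inv_scale_le (y := Y / 4 ^ j) (by positivity) _ fun p hp => ?_
  rw [mem_sc] at hp
  refine ⟨hp.2.1, ?_, hp.2.2.2.2⟩
  have : Y / 4 ^ j / 4 = Y / 4 ^ (j + 1) := by rw [pow_succ]; field_simp
  rw [this]
  exact hp.2.2.2.1

lemma sum_VV_eq {Y : ℝ} (hY : 0 < Y) (p0 J : ℕ) :
    ∑ j ∈ Finset.range J, VV (sc Y p0 j)
      = ∑ p ∈ (Finset.range J).biUnion (sc Y p0), (p : ℝ)⁻¹ := by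
  rw [Finset.sum_biUnion]
  · rfl
  · intro i _ j _ hij
    exact sc_disjoint hY hij

lemma sum_VV_le {Y : ℝ} (hY : 0 < Y) (p0 J : ℕ) :
    ∑ j ∈ Finset.range J, VV (sc Y p0 j) ≤ 1 + Y := by
  rw [sum_VV_eq hY]
  refine (sum_inv_primes_le ⌊Real.exp Y⌋₊ _ ?_).trans ?_
  · intro p hp
    rw [Finset.mem_biUnion] at hp
    obtain ⟨j, _, hj⟩ := hp
    exact (mem_sc.mp hj).1
  · have h1 : 0 < ⌊Real.exp Y⌋₊ := Nat.floor_pos.mpr (Real.one_le_exp hY.le)
    have h2 : Real.log ⌊Real.exp Y⌋₊ ≤ Y := by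
      rw [Real.log_le_iff_le_exp (by exact_mod_cast h1)]
      exact Nat.floor_le (Real.exp_pos Y).le
    linarith

lemma sum_sq_sc_le {Y : ℝ} (hY : 0 < Y) {p0 : ℕ} (hp0 : 1 ≤ p0) (J : ℕ) :
    ∑ j ∈ Finset.range J, ∑ p ∈ sc Y p0 j, ((p : ℝ)⁻¹) ^ 2 ≤ 1 / p0 := by
  have h1 : ∑ j ∈ Finset.range J, ∑ p ∈ sc Y p0 j, ((p : ℝ)⁻¹) ^ 2
      = ∑ p ∈ (Finset.range J).biUnion (sc Y p0), ((p : ℝ)⁻¹) ^ 2 := by
    rw [Finset.sum_biUnion]
    intro i _ j _ hij
    exact sc_disjoint hY hij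
  rw [h1]
  refine sum_inv_sq_le p0 hp0 _ fun p hp => ?_
  rw [Finset.mem_biUnion] at hp
  obtain ⟨j, _, hj⟩ := hp
  exact (mem_sc.mp hj).2.2.1

lemma sum_VV_ge {Y : ℝ} (hY : 1 ≤ Y) {p0 : ℕ} (hp0 : 1 ≤ p0) {J : ℕ} (hJ : Y / 4 ^ J < Real.log 2) :
    Real.log Y - 2 - Real.log p0 ≤ ∑ j ∈ Finset.range J, VV (sc Y p0 j) := by
  have hY0 : 0 < Y := by linarith
  rw [sum_VV_eq hY0]
  set N := ⌊Real.exp Y⌋₊ + 1 with hN
  have hexp : 2 ≤ Real.exp Y := by
    have h1 := Real.add_one_le_exp Y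
    linarith
  have hN2 : 2 ≤ N := by
    have : 1 ≤ ⌊Real.exp Y⌋₊ := Nat.le_floor (by push_cast; linarith)
    omega
  have hNY : Real.exp Y < N := by
    rw [hN]; push_cast; exact Nat.lt_floor_add_one _
  have h1 := sum_inv_primes_ge hN2
  have h2 : Real.log Y ≤ Real.log (Real.log N) := by
    apply Real.log_le_log hY0
    rw [Real.le_log_iff_exp_le (by linarith)]
    exact hNY.le
  -- the primes below N are small or in the union
  have h3 : N.primesBelow ⊆ Finset.Icc 1 p0 ∪ (Finset.range J).biUnion (sc Y p0) := by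
    intro p hp
    have hp1 := Nat.prime_of_mem_primesBelow hp
    have hp2 := Nat.lt_of_mem_primesBelow hp
    have hp0' : (0 : ℝ) < p := by exact_mod_cast hp1.pos
    rw [Finset.mem_union]
    rcases le_or_gt p p0 with h | h
    · left
      rw [Finset.mem_Icc]
      exact ⟨hp1.one_le, h⟩
    · right
      have hple : p ≤ ⌊Real.exp Y⌋₊ := by omega
      have hlogp : Real.log p ≤ Y := by
        rw [Real.log_le_iff_le_exp hp0']
        exact (Nat.le_floor_iff (Real.exp_pos Y).le).mp hple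
      have hlog2 : Real.log 2 ≤ Real.log p := by
        apply Real.log_le_log (by norm_num)
        exact_mod_cast hp1.two_le
      -- choose the largest j with log p ≤ Y / 4 ^ j
      have hex : ∃ j, Y / 4 ^ (j + 1) < Real.log p := by
        refine ⟨J, ?_⟩
        have : Y / 4 ^ (J + 1) ≤ Y / 4 ^ J := by
          apply div_le_div_of_nonneg_left hY0.le (by positivity)
          exact pow_le_pow_right₀ (by norm_num) (by omega)
        linarith
      classical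
      set j := Nat.find hex with hj
      have hj1 : Y / 4 ^ (j + 1) < Real.log p := Nat.find_spec hex
      have hj2 : Real.log p ≤ Y / 4 ^ j := by
        rcases Nat.eq_zero_or_pos j with h0 | h0
        · rw [h0]; simpa using hlogp
        · have := Nat.find_min hex (m := j - 1) (by omega)
          rw [not_lt] at this
          have e : j - 1 + 1 = j := by omega
          rw [e] at this
          exact this
      have hjJ : j < J := by
        by_contra hcon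
        rw [not_lt] at hcon
        have : Y / 4 ^ j ≤ Y / 4 ^ J := by
          apply div_le_div_of_nonneg_left hY0.le (by positivity)
          exact pow_le_pow_right₀ (by norm_num) hcon
        linarith
      rw [Finset.mem_biUnion]
      refine ⟨j, Finset.mem_range.mpr hjJ, ?_⟩
      rw [mem_sc, Finset.mem_Icc]
      exact ⟨⟨hp1.one_le, hple⟩, hp1, h, hj1, hj2⟩
  have h4 : ∑ p ∈ N.primesBelow, (p : ℝ)⁻¹
      ≤ ∑ p ∈ Finset.Icc 1 p0, (p : ℝ)⁻¹ + ∑ p ∈ (Finset.range J).biUnion (sc Y p0), (p : ℝ)⁻¹ := by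
    refine (Finset.sum_le_sum_of_subset_of_nonneg h3 fun p _ _ => by positivity).trans ?_
    rw [← Finset.sum_union_inter]
    have : 0 ≤ ∑ p ∈ Finset.Icc 1 p0 ∩ (Finset.range J).biUnion (sc Y p0), (p : ℝ)⁻¹ :=
      Finset.sum_nonneg fun p _ => by positivity
    linarith
  have h5 := sum_inv_primes_le p0 (Finset.Icc 1 p0) (Finset.Subset.refl _)
  linarith

end Pool.Agent.Lib.MP_f9aece_nt
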