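import Mathlib

/-!
Pointwise inequalities for truncated exponentials.
-/

set_option autoImplicit false

namespace Pool.Agent.Lib.MP_f9aece_nt

open Complex Set Filter Topology

/-- truncated exponential series -/
noncomputable def EE (M : ℕ) (z : ℂ) : ℂ := ∑ r ∈ Finset.range (M + 1), z ^ r / (r.factorial : ℂ)

lemma exp_eleven_tenth : Real.exp (11 / 10) ≤ 10 / 3 := by
  have h1 : Real.exp 1 < 2.7182818286 := Real.exp_one_lt_d9
  have h2 : Real.exp (1 / 10) ≤ 1.2 := by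
    have h := Real.exp_bound' (x := 1 / 10) (by norm_num) (by norm_num) (n := 2) (by norm_num)
    refine h.trans ?_
    norm_num [Finset.sum_range_succ]
  have h3 : Real.exp (11 / 10) = Real.exp 1 * Real.exp (1 / 10) := by
    rw [← Real.exp_add]; norm_num
  rw [h3]
  calc Real.exp 1 * Real.exp (1 / 10) ≤ 2.7182818286 * 1.2 := by gcongr
    _ ≤ 10 / 3 := by norm_num

lemma EE_sub_exp {M : ℕ} {w : ℂ} (hw : ‖w‖ ≤ ((M + 1 : ℕ) : ℝ) / 10) :
    ‖cexp w - EE M w‖ ≤ 2 * (1 / 3) ^ (M + 1) * ‖cexp w‖ := by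
  set n := M + 1 with hn
  have hn0 : (0 : ℝ) < n := by positivity
  have h1 : ‖w‖ / n.succ ≤ 1 / 2 := by
    rw [div_le_iff₀ (by positivity)]
    push_cast
    have : (1 : ℝ) ≤ n := by rw [hn]; push_cast; linarith [Nat.cast_nonneg (α := ℝ) M]
    linarith
  have h2 := Complex.exp_bound' h1
  have h3 : ‖w‖ ^ n / (n.factorial : ℝ) ≤ (Real.exp 1 / 10) ^ n := by
    have h4 := Real.pow_div_factorial_le_exp (n : ℝ) hn0.le n
    have h5 : ‖w‖ ^ n ≤ ((n : ℝ) / 10) ^ n := pow_le_pow_left₀ (norm_nonneg _) hw n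
    calc ‖w‖ ^ n / (n.factorial : ℝ) ≤ ((n : ℝ) / 10) ^ n / (n.factorial : ℝ) := by gcongr
      _ = ((n : ℝ) ^ n / (n.factorial : ℝ)) / 10 ^ n := by rw [div_pow]; ring
      _ ≤ Real.exp n / 10 ^ n := by gcongr
      _ = (Real.exp 1 / 10) ^ n := by rw [div_pow, ← Real.exp_nat_mul, mul_one]
  have h6 : Real.exp (-((n : ℝ) / 10)) ≤ ‖cexp w‖ := by
    rw [Complex.norm_exp]
    apply Real.exp_le_exp.mpr
    have := Complex.abs_re_le_norm w
    have := neg_abs_le w.re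
    linarith
  have h7 : (Real.exp 1 / 10) ^ n ≤ (1 / 3) ^ n * Real.exp (-((n : ℝ) / 10)) := by
    have e1 : Real.exp (-((n : ℝ) / 10)) = (Real.exp (-(1 / 10))) ^ n := by
      rw [← Real.exp_nat_mul]; congr 1; ring
    rw [e1, ← mul_pow]
    refine pow_le_pow_left₀ (by positivity) ?_ n
    have e2 : Real.exp 1 = Real.exp (11 / 10) * Real.exp (-(1 / 10)) := by
      rw [← Real.exp_add]; norm_num
    rw [e2]
    have := exp_eleven_tenth
    have h8 : 0 < Real.exp (-(1 / 10)) := Real.exp_pos _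
    calc Real.exp (11 / 10) * Real.exp (-(1 / 10)) / 10
        ≤ 10 / 3 * Real.exp (-(1 / 10)) / 10 := by gcongr
      _ = _ := by ring
  calc ‖cexp w - EE M w‖ ≤ ‖w‖ ^ n / (n.factorial : ℝ) * 2 := h2
    _ ≤ (Real.exp 1 / 10) ^ n * 2 := by gcongr
    _ ≤ ((1 / 3) ^ n * Real.exp (-((n : ℝ) / 10))) * 2 := by gcongr
    _ ≤ ((1 / 3) ^ n * ‖cexp w‖) * 2 := by gcongr
    _ = _ := by ring

lemma norm_EE_le {M : ℕ} {w : ℂ} (hw : ‖w‖ ≤ ((M + 1 : ℕ) : ℝ) / 10) :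
    ‖EE M w‖ ≤ (1 + 2 * (1 / 3) ^ (M + 1)) * ‖cexp w‖ := by
  have h1 := EE_sub_exp hw
  have h2 : ‖EE M w‖ ≤ ‖cexp w‖ + ‖cexp w - EE M w‖ := by
    have : EE M w = cexp w - (cexp w - EE M w) := by ring
    calc ‖EE M w‖ = ‖cexp w - (cexp w - EE M w)‖ := by rw [← this]
      _ ≤ _ := norm_sub_le _ _
  linarith

lemma norm_exp_le {M : ℕ} {w : ℂ} (hw : ‖w‖ ≤ ((M + 1 : ℕ) : ℝ) / 10) :
    (1 - 2 * (1 / 3) ^ (M + 1)) * ‖cexp w‖ ≤ ‖EE M w‖ := by
  have h1 := EE_sub_exp hw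
  have h2 : ‖cexp w‖ ≤ ‖EE M w‖ + ‖cexp w - EE M w‖ := by
    have : cexp w = EE M w + (cexp w - EE M w) := by ring
    calc ‖cexp w‖ = ‖EE M w + (cexp w - EE M w)‖ := by rw [← this]
      _ ≤ _ := norm_add_le _ _
  linarith

lemma norm_EE_le_large {l : ℕ} {a R : ℝ} (ha : 0 ≤ a) (hR : 0 < R) {z : ℂ} (hz : R ≤ ‖z‖) :
    ‖EE l (a * z)‖ ≤ Real.exp (a * R) * (‖z‖ / R) ^ l := by
  unfold EE
  have h1 : 1 ≤ ‖z‖ / R := by rw [le_div_iff₀ hR]; linarith
  calc ‖∑ r ∈ Finset.range (l + 1), ((a : ℂ) * z) ^ r / (r.factorial : ℂ)‖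
      ≤ ∑ r ∈ Finset.range (l + 1), ‖((a : ℂ) * z) ^ r / (r.factorial : ℂ)‖ := norm_sum_le _ _
    _ ≤ ∑ r ∈ Finset.range (l + 1), (a * R) ^ r / (r.factorial : ℝ) * (‖z‖ / R) ^ l := by
        refine Finset.sum_le_sum fun r hr => ?_
        rw [Finset.mem_range] at hr
        rw [norm_div, norm_pow, norm_mul, Complex.norm_real, Real.norm_eq_abs, abs_of_nonneg ha,
          Complex.norm_natCast]
        have h2 : (‖z‖ / R) ^ r ≤ (‖z‖ / R) ^ l := pow_le_pow_right₀ h1 (by omega)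
        calc (a * ‖z‖) ^ r / (r.factorial : ℝ)
            = (a * R) ^ r / (r.factorial : ℝ) * (‖z‖ / R) ^ r := by
              rw [mul_pow, mul_pow, div_pow]
              field_simp
          _ ≤ _ := by gcongr
    _ = (∑ r ∈ Finset.range (l + 1), (a * R) ^ r / (r.factorial : ℝ)) * (‖z‖ / R) ^ l := by
        rw [Finset.sum_mul]
    _ ≤ _ := by
        gcongr
        exact Real.sum_le_exp_of_nonneg (by positivity) _

lemma inv_one_sub_le {x : ℝ} (hx0 : 0 ≤ x) (hx : x ≤ 1 / 2) : 1 ≤ Real.exp (2 * x) * (1 - x) := by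
  have h1 := Real.add_one_le_exp (2 * x)
  have h2 : (2 * x + 1) * (1 - x) ≤ Real.exp (2 * x) * (1 - x) := by
    gcongr
    linarith
  nlinarith

/-- the pointwise majorant -/
lemma pointwise {a k : ℝ} (ha : 0 < a) (hk : k = 1 + a) {l M : ℕ} (hM : 1 ≤ M)
    {R : ℝ} (hR : R = M / (20 * k)) (h1 : a * R ≤ ((l + 1 : ℕ) : ℝ) / 10) (h3 : k * l ≤ a * M)
    (z : ℂ) :
    ‖EE l (a * z)‖ ^ (2 * k / a)
      ≤ Real.exp (2 * k / a * (2 * (1 / 3) ^ (l + 1)) + 8 * (1 / 3) ^ (M + 1)) * ‖EE M (k * z)‖ ^ 2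
        + Real.exp (2 * k * R) * (‖z‖ / R) ^ (2 * M) := by
  have hk0 : 0 < k := by linarith
  have hM0 : (0 : ℝ) < M := by exact_mod_cast hM
  have hR0 : 0 < R := by rw [hR]; positivity
  have hq0 : 0 < 2 * k / a := by positivity
  rcases le_or_gt ‖z‖ R with hz | hz
  · -- small case
    have hw1 : ‖(a : ℂ) * z‖ ≤ ((l + 1 : ℕ) : ℝ) / 10 := by
      rw [norm_mul, Complex.norm_real, Real.norm_eq_abs, abs_of_pos ha]
      exact (mul_le_mul_of_nonneg_left hz ha.le).trans h1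
    have hw2 : ‖(k : ℂ) * z‖ ≤ ((M + 1 : ℕ) : ℝ) / 10 := by
      rw [norm_mul, Complex.norm_real, Real.norm_eq_abs, abs_of_pos hk0]
      refine (mul_le_mul_of_nonneg_left hz hk0.le).trans ?_
      rw [hR]
      push_cast
      have : k * (M / (20 * k)) = M / 20 := by field_simp
      rw [this]
      linarith
    have hA := norm_EE_le hw1
    have hB := norm_exp_le hw2
    set e1 : ℝ := 2 * (1 / 3) ^ (l + 1) with he1
    set e2 : ℝ := 2 * (1 / 3) ^ (M + 1) with he2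
    have he1' : 0 ≤ e1 := by positivity
    have he2' : 0 ≤ e2 := by positivity
    have he2'' : e2 ≤ 1 / 2 := by
      rw [he2]
      have : (1 / 3 : ℝ) ^ (M + 1) ≤ (1 / 3) ^ 2 :=
        pow_le_pow_of_le_one (by norm_num) (by norm_num) (by omega)
      linarith [this, (by norm_num : (1 / 3 : ℝ) ^ 2 = 1 / 9)]
    -- step 1
    have s1 : ‖EE l (a * z)‖ ^ (2 * k / a) ≤ ((1 + e1) * ‖cexp (a * z)‖) ^ (2 * k / a) :=
      Real.rpow_le_rpow (norm_nonneg _) hA hq0.le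
    have s2 : ((1 + e1) * ‖cexp (a * z)‖) ^ (2 * k / a)
        = (1 + e1) ^ (2 * k / a) * ‖cexp (k * z)‖ ^ 2 := by
      rw [Real.mul_rpow (by positivity) (norm_nonneg _)]
      congr 1
      rw [Complex.norm_exp, Complex.norm_exp, ← Real.exp_mul, ← Real.exp_nat_mul]
      congr 1
      simp only [Complex.re_ofReal_mul]
      push_cast
      field_simp
    have s3 : (1 + e1) ^ (2 * k / a) ≤ Real.exp (2 * k / a * e1) := by
      rw [mul_comm (2 * k / a) e1, Real.exp_mul]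
      refine Real.rpow_le_rpow (by positivity) ?_ hq0.le
      linarith [Real.add_one_le_exp e1]
    have s4 : ‖cexp (k * z)‖ ≤ Real.exp (2 * e2) * ‖EE M (k * z)‖ := by
      have i1 := inv_one_sub_le he2' he2''
      calc ‖cexp (k * z)‖ = 1 * ‖cexp (k * z)‖ := (one_mul _).symm
        _ ≤ (Real.exp (2 * e2) * (1 - e2)) * ‖cexp (k * z)‖ := by gcongr
        _ = Real.exp (2 * e2) * ((1 - e2) * ‖cexp (k * z)‖) := by ring
        _ ≤ _ := by gcongr
    have s5 : ‖cexp (k * z)‖ ^ 2 ≤ Real.exp (4 * e2) * ‖EE M (k * z)‖ ^ 2 := by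
      calc ‖cexp (k * z)‖ ^ 2 ≤ (Real.exp (2 * e2) * ‖EE M (k * z)‖) ^ 2 := by gcongr
        _ = _ := by
          rw [mul_pow, ← Real.exp_nat_mul]
          congr 2
          push_cast
          ring
    have s6 : 0 ≤ Real.exp (2 * k * R) * (‖z‖ / R) ^ (2 * M) := by positivity
    calc ‖EE l (a * z)‖ ^ (2 * k / a)
        ≤ (1 + e1) ^ (2 * k / a) * ‖cexp (k * z)‖ ^ 2 := by rw [← s2]; exact s1
      _ ≤ Real.exp (2 * k / a * e1) * (Real.exp (4 * e2) * ‖EE M (k * z)‖ ^ 2) := by gcongr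
      _ = Real.exp (2 * k / a * e1 + 8 * (1 / 3) ^ (M + 1)) * ‖EE M (k * z)‖ ^ 2 := by
          rw [← mul_assoc, ← Real.exp_add, he2]
          congr 3
          ring
      _ ≤ _ := by linarith
  · -- large case
    have hA := norm_EE_le_large ha.le hR0 hz.le (l := l)
    have hz1 : 1 ≤ ‖z‖ / R := by rw [le_div_iff₀ hR0]; linarith
    have s1 : ‖EE l (a * z)‖ ^ (2 * k / a)
        ≤ (Real.exp (a * R) * (‖z‖ / R) ^ l) ^ (2 * k / a) :=
      Real.rpow_le_rpow (norm_nonneg _) hA hq0.le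
    have s2 : (Real.exp (a * R) * (‖z‖ / R) ^ l) ^ (2 * k / a)
        = Real.exp (2 * k * R) * (‖z‖ / R) ^ ((l : ℝ) * (2 * k / a)) := by
      rw [Real.mul_rpow (by positivity) (by positivity), ← Real.exp_mul]
      congr 1
      · congr 1
        field_simp
      · rw [← Real.rpow_natCast, ← Real.rpow_mul (by positivity)]
    have s3 : (‖z‖ / R) ^ ((l : ℝ) * (2 * k / a)) ≤ (‖z‖ / R) ^ (2 * M) := by
      rw [← Real.rpow_natCast]
      refine Real.rpow_le_rpow_of_exponent_le hz1 ?_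
      push_cast
      have : (l : ℝ) * (2 * k / a) = 2 * (k * l) / a := by ring
      rw [this, div_le_iff₀ ha]
      linarith
    have s4 : 0 ≤ Real.exp (2 * k / a * (2 * (1 / 3) ^ (l + 1)) + 8 * (1 / 3) ^ (M + 1))
        * ‖EE M (k * z)‖ ^ 2 := by positivity
    calc ‖EE l (a * z)‖ ^ (2 * k / a)
        ≤ Real.exp (2 * k * R) * (‖z‖ / R) ^ ((l : ℝ) * (2 * k / a)) := by rw [← s2]; exact s1
      _ ≤ Real.exp (2 * k * R) * (‖z‖ / R) ^ (2 * M) := by gcongr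
      _ ≤ _ := by linarith

end Pool.Agent.Lib.MP_f9aece_nt
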