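import Mathlib
import Pool.Agent.Lib.MP_f9aece_nt.PrimePoly

/-!
The quadratic form with kernel `1/lcm(a,b)` on truncated exponentials.
-/

set_option autoImplicit false

namespace Pool.Agent.Lib.MP_f9aece_nt

open Complex Set Filter Topology MeasureTheory ComplexConjugate
open scoped ArithmeticFunction.Omega

/-- the kernel `gcd(a,b)/(ab) = 1/lcm(a,b)` -/
noncomputable def K2 (a b : ℕ) : ℝ := (Nat.gcd a b : ℝ) / (a * b)

lemma K2_nonneg (a b : ℕ) : 0 ≤ K2 a b := by unfold K2; positivity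

lemma K2_comm (a b : ℕ) : K2 a b = K2 b a := by
  unfold K2; rw [Nat.gcd_comm, mul_comm]

lemma K2_eq_inv_lcm {a b : ℕ} (ha : a ≠ 0) (hb : b ≠ 0) : K2 a b = ((Nat.lcm a b : ℕ) : ℝ)⁻¹ := by
  unfold K2
  have h1 : (Nat.gcd a b : ℝ) * (Nat.lcm a b : ℝ) = a * b := by
    exact_mod_cast Nat.gcd_mul_lcm a b
  have h2 : (Nat.lcm a b : ℝ) ≠ 0 := by
    exact_mod_cast Nat.lcm_ne_zero ha hb
  have ha' : (a : ℝ) ≠ 0 := by exact_mod_cast ha
  have hb' : (b : ℝ) ≠ 0 := by exact_mod_cast hb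
  rw [← h1]
  have h3 : (Nat.gcd a b : ℝ) ≠ 0 := by
    exact_mod_cast (Nat.gcd_pos_of_pos_left b (Nat.pos_of_ne_zero ha)).ne'
  field_simp

lemma coprime_of_Smo {A B : Set ℕ} (hAB : Disjoint A B) {a b : ℕ} (ha : a ∈ Smo A) (hb : b ∈ Smo B) :
    Nat.Coprime a b := by
  refine Nat.Coprime.symm ?_
  refine Nat.coprime_of_dvd ?_
  intro p hp hpb hpa
  exact Set.disjoint_left.mp hAB (ha.2 p hp hpa) (hb.2 p hp hpb)

lemma K2_mul {A B : Set ℕ} (hAB : Disjoint A B) {a a' b b' : ℕ} (ha : a ∈ Smo A) (ha' : a' ∈ Smo A)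
    (hb : b ∈ Smo B) (hb' : b' ∈ Smo B) : K2 (a * b) (a' * b') = K2 a a' * K2 b b' := by
  have h1 : Nat.Coprime a' b' := coprime_of_Smo hAB ha' hb'
  have h2 : Nat.Coprime a' b := coprime_of_Smo hAB ha' hb
  have h3 : Nat.Coprime a b' := coprime_of_Smo hAB ha hb'
  have e : Nat.gcd (a * b) (a' * b') = Nat.gcd a a' * Nat.gcd b b' := by
    rw [Nat.Coprime.gcd_mul _ h1, Nat.Coprime.gcd_mul_right_cancel a h2.symm,
      Nat.Coprime.gcd_mul_left_cancel b h3]
  unfold K2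
  rw [e]
  push_cast
  have : (a : ℝ) ≠ 0 := by exact_mod_cast ha.1
  have : (a' : ℝ) ≠ 0 := by exact_mod_cast ha'.1
  have : (b : ℝ) ≠ 0 := by exact_mod_cast hb.1
  have : (b' : ℝ) ≠ 0 := by exact_mod_cast hb'.1
  field_simp

lemma K1_mul {A B : Set ℕ} (hAB : Disjoint A B) {a a' b b' : ℕ} (ha : a ∈ Smo A) (ha' : a' ∈ Smo A)
    (hb : b ∈ Smo B) (hb' : b' ∈ Smo B) : K1 (a * b) (a' * b') = K1 a a' * K1 b b' := by
  have h2 : Nat.Coprime a' b := coprime_of_Smo hAB ha' hb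
  have h3 : Nat.Coprime a b' := coprime_of_Smo hAB ha hb'
  have key : a * b = a' * b' ↔ a = a' ∧ b = b' := by
    constructor
    · intro h
      have h4 : a ∣ a' := by
        have : a ∣ a' * b' := ⟨b, h.symm⟩
        exact h3.dvd_of_dvd_mul_right this
      have h5 : a' ∣ a := by
        have : a' ∣ a * b := ⟨b', h⟩
        exact h2.dvd_of_dvd_mul_right this
      have h6 := Nat.dvd_antisymm h4 h5
      subst h6
      exact ⟨rfl, Nat.eq_of_mul_eq_mul_left (Nat.pos_of_ne_zero ha.1) h⟩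
    · rintro ⟨rfl, rfl⟩; rfl
  unfold K1
  by_cases h : a * b = a' * b'
  · obtain ⟨h1, h2⟩ := key.mp h
    rw [if_pos h, if_pos h1, if_pos h2]
    push_cast
    rw [mul_inv]
  · rw [if_neg h]
    by_cases h1 : a = a'
    · have h2 : b ≠ b' := fun h2 => h (key.mpr ⟨h1, h2⟩)
      rw [if_neg h2, mul_zero]
    · rw [if_neg h1, zero_mul]

/-- the squarefree Euler product polynomial -/
noncomputable def GG (c : ℝ) (I : Finset ℕ) : DP := ∏ p ∈ I, (1 + MonoidAlgebra.single p c)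

lemma cone_one_add {p : ℕ} (hp : p.Prime) {c : ℝ} (hc : 0 ≤ c) :
    Cone (Smo {p}) (1 + MonoidAlgebra.single p c) :=
  (Cone.one (one_mem_Smo _)).add (Cone.single (prime_mem_Smo hp (Set.mem_singleton p)) hc)

lemma cone_GG {I : Finset ℕ} (hI : ∀ p ∈ I, p.Prime) {c : ℝ} (hc : 0 ≤ c) :
    Cone (Smo I) (GG c I) := by
  refine Cone.prod I (fun p hp => ?_) (one_mem_Smo _) (fun a ha b hb => mul_mem_Smo ha hb)
  refine (cone_one_add (hI p hp) hc).mono (Smo_mono ?_)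
  simpa using hp

lemma BK_K2_GG {I : Finset ℕ} (hI : ∀ p ∈ I, p.Prime) {c d : ℝ} (hc : 0 ≤ c) (hd : 0 ≤ d) :
    BK K2 (GG c I) (GG d I) = ∏ p ∈ I, (1 + (c + d + c * d) / p) := by
  classical
  induction I using Finset.induction_on with
  | empty =>
    simp only [GG, Finset.prod_empty]
    rw [MonoidAlgebra.one_def, BK_single]
    simp [K2]
  | insert p I hpI ih =>
    have hp : p.Prime := hI p (Finset.mem_insert_self _ _)
    have hI' : ∀ q ∈ I, q.Prime := fun q hq => hI q (Finset.mem_insert_of_mem hq)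
    have e1 : ∀ c : ℝ, GG c (insert p I) = (1 + MonoidAlgebra.single p c) * GG c I := by
      intro c
      rw [GG, GG, Finset.prod_insert hpI]
    rw [e1, e1, Finset.prod_insert hpI, ← ih hI']
    have hdis : Disjoint ({p} : Set ℕ) (I : Set ℕ) := by
      rw [Set.disjoint_singleton_left]
      exact_mod_cast hpI
    rw [BK_mul K2 (cone_one_add hp hc) (cone_one_add hp hd) (cone_GG hI' hc) (cone_GG hI' hd)
      (fun a ha a' ha' b hb b' hb' => K2_mul hdis ha ha' hb hb')]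
    congr 1
    rw [MonoidAlgebra.one_def, BK_add_left, BK_add_right, BK_add_right, BK_single, BK_single,
      BK_single, BK_single]
    have hp0 : (p : ℝ) ≠ 0 := by exact_mod_cast hp.ne_zero
    simp only [K2, Nat.gcd_self, Nat.gcd_one_left, Nat.gcd_one_right, Nat.cast_one]
    field_simp
    ring

lemma GG_eq (c : ℝ) (I : Finset ℕ) :
    GG c I = ∑ H ∈ I.powerset, MonoidAlgebra.single (∏ p ∈ H, p) (c ^ H.card) := by
  rw [GG, Finset.prod_one_add]
  refine Finset.sum_congr rfl fun H hH => ?_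
  clear hH
  classical
  induction H using Finset.induction_on with
  | empty => simp [MonoidAlgebra.one_def]
  | insert p H hp ih =>
    rw [Finset.prod_insert hp, ih, MonoidAlgebra.single_mul_single, Finset.prod_insert hp,
      Finset.card_insert_of_notMem hp, pow_succ']

/-- truncation -/
noncomputable def GT (c : ℝ) (M : ℕ) (I : Finset ℕ) : DP :=
  ∑ H ∈ I.powerset with H.card ≤ M, MonoidAlgebra.single (∏ p ∈ H, p) (c ^ H.card)

lemma coeff_PP_pow_ge {I : Finset ℕ} (hI : ∀ p ∈ I, p.Prime) (H : Finset ℕ) (hH : H ⊆ I) :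
    ((H.card).factorial : ℝ) ≤ ((PP I) ^ H.card).coeff (∏ p ∈ H, p) := by
  classical
  induction h : H.card generalizing H with
  | zero =>
    rw [Finset.card_eq_zero] at h
    subst h
    simp [MonoidAlgebra.one_def]
  | succ r ih =>
    rw [coeff_PP_pow_succ hI]
    have hsub : H ⊆ I.filter (· ∣ ∏ p ∈ H, p) := by
      intro p hp
      exact Finset.mem_filter.mpr ⟨hH hp, Finset.dvd_prod_of_mem _ hp⟩
    calc (((r + 1).factorial : ℕ) : ℝ) = ∑ p ∈ H, (r.factorial : ℝ) := by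
          rw [Finset.sum_const, h, nsmul_eq_mul, Nat.factorial_succ]
          push_cast
          ring
      _ ≤ ∑ p ∈ H, ((PP I) ^ r).coeff ((∏ q ∈ H, q) / p) := by
          refine Finset.sum_le_sum fun p hp => ?_
          have hp0 : 0 < p := (hI p (hH hp)).pos
          have e : (∏ q ∈ H, q) / p = ∏ q ∈ H.erase p, q := by
            rw [← Finset.mul_prod_erase H _ hp, Nat.mul_div_cancel_left _ hp0]
          rw [e]
          exact ih (H.erase p) ((Finset.erase_subset _ _).trans hH)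
            (by rw [Finset.card_erase_of_mem hp, h]; rfl)
      _ ≤ ∑ p ∈ I with p ∣ ∏ p ∈ H, p, ((PP I) ^ r).coeff ((∏ q ∈ H, q) / p) := by
          refine Finset.sum_le_sum_of_subset_of_nonneg hsub fun p _ _ => ?_
          exact (cone_PP_pow hI r _).1

lemma coeff_GT {I : Finset ℕ} (c : ℝ) (M n : ℕ) :
    (GT c M I).coeff n = ∑ H ∈ I.powerset with H.card ≤ M, if ∏ p ∈ H, p = n then c ^ H.card else 0 := by
  classical
  rw [GT, MonoidAlgebra.coeff_sum, Finsupp.finsetSum_apply]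
  refine Finset.sum_congr rfl fun H _ => ?_
  rw [MonoidAlgebra.coeff_single, Finsupp.single_apply]

lemma coeff_GT_nonneg {I : Finset ℕ} {c : ℝ} (hc : 0 ≤ c) (M n : ℕ) :
    0 ≤ (GT c M I).coeff n := by
  rw [coeff_GT]
  refine Finset.sum_nonneg fun H _ => ?_
  split_ifs <;> positivity

lemma coeff_GT_le {I : Finset ℕ} (hI : ∀ p ∈ I, p.Prime) {c : ℝ} (hc : 0 ≤ c) (M n : ℕ) :
    (GT c M I).coeff n ≤ (expo c M I).coeff n := by
  classical
  have hnn : 0 ≤ (expo c M I).coeff n := (cone_expo hI hc M n).1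
  rw [coeff_GT]
  by_cases hex : ∃ H ∈ I.powerset.filter (fun H => H.card ≤ M), ∏ p ∈ H, p = n
  · obtain ⟨H, hH, rfl⟩ := hex
    rw [Finset.mem_filter, Finset.mem_powerset] at hH
    have huniq : ∀ H' ∈ I.powerset.filter (fun H => H.card ≤ M), H' ≠ H →
        (if ∏ p ∈ H', p = ∏ p ∈ H, p then c ^ H'.card else 0) = 0 := by
      intro H' hH' hne
      rw [Finset.mem_filter, Finset.mem_powerset] at hH'
      rw [if_neg]
      intro h
      apply hne
      rw [← Nat.primeFactors_prod (fun p hp => hI p (hH'.1 hp)), h,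
        Nat.primeFactors_prod (fun p hp => hI p (hH.1 hp))]
    rw [Finset.sum_eq_single_of_mem H (by rw [Finset.mem_filter, Finset.mem_powerset]; exact hH) huniq,
      if_pos rfl]
    have h1 : (expo c M I).coeff (∏ p ∈ H, p)
        = ∑ r ∈ Finset.range (M + 1), c ^ r / (r.factorial : ℝ) * ((PP I) ^ r).coeff (∏ p ∈ H, p) := by
      rw [expo, MonoidAlgebra.coeff_sum, Finsupp.finsetSum_apply]
      refine Finset.sum_congr rfl fun r _ => ?_
      rw [MonoidAlgebra.coeff_smul, Finsupp.smul_apply, smul_eq_mul]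
    rw [h1]
    have h2 : c ^ H.card / ((H.card).factorial : ℝ) * ((PP I) ^ H.card).coeff (∏ p ∈ H, p)
        ≤ ∑ r ∈ Finset.range (M + 1), c ^ r / (r.factorial : ℝ) * ((PP I) ^ r).coeff (∏ p ∈ H, p) := by
      refine Finset.single_le_sum (f := fun r => c ^ r / (r.factorial : ℝ) * ((PP I) ^ r).coeff (∏ p ∈ H, p))
        (fun r _ => mul_nonneg (by positivity) (cone_PP_pow hI r _).1) ?_
      rw [Finset.mem_range]
      omega
    refine le_trans ?_ h2
    have h3 := coeff_PP_pow_ge hI H hH.1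
    have h4 : (0 : ℝ) < (H.card).factorial := by positivity
    calc c ^ H.card = c ^ H.card / ((H.card).factorial : ℝ) * ((H.card).factorial : ℝ) := by
          field_simp
      _ ≤ _ := by gcongr
  · have : ∑ H ∈ I.powerset with H.card ≤ M, (if ∏ p ∈ H, p = n then c ^ H.card else 0) = 0 := by
      refine Finset.sum_eq_zero fun H hH => ?_
      rw [if_neg]
      intro h
      exact hex ⟨H, hH, h⟩
    rw [this]
    exact hnn


/-- The weight of a pair of subsets. -/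
noncomputable def wt (c d : ℝ) (H H' : Finset ℕ) : ℝ :=
  c ^ H.card * d ^ H'.card * K2 (∏ p ∈ H, p) (∏ p ∈ H', p)

lemma wt_nonneg {c d : ℝ} (hc : 0 ≤ c) (hd : 0 ≤ d) (H H' : Finset ℕ) : 0 ≤ wt c d H H' := by
  unfold wt
  have := K2_nonneg (∏ p ∈ H, p) (∏ p ∈ H', p)
  positivity

lemma BK_K2_GG_sum (c d : ℝ) (I : Finset ℕ) :
    BK K2 (GG c I) (GG d I) = ∑ H ∈ I.powerset, ∑ H' ∈ I.powerset, wt c d H H' := by
  rw [GG_eq, GG_eq, BK_sum_left]
  refine Finset.sum_congr rfl fun H _ => ?_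
  rw [BK_sum_right]
  refine Finset.sum_congr rfl fun H' _ => ?_
  rw [BK_single, wt]

lemma BK_K2_GT_sum (c d : ℝ) (M : ℕ) (I : Finset ℕ) :
    BK K2 (GT c M I) (GT d M I)
      = ∑ H ∈ I.powerset with H.card ≤ M, ∑ H' ∈ I.powerset with H'.card ≤ M, wt c d H H' := by
  rw [GT, GT, BK_sum_left]
  refine Finset.sum_congr rfl fun H _ => ?_
  rw [BK_sum_right]
  refine Finset.sum_congr rfl fun H' _ => ?_
  rw [BK_single, wt]

lemma BK_K2_GT_ge {I : Finset ℕ} {c : ℝ} (hc : 0 ≤ c) (M : ℕ) :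
    BK K2 (GG c I) (GG c I) - 2 * ((1 / 2) ^ M * BK K2 (GG (2 * c) I) (GG c I))
      ≤ BK K2 (GT c M I) (GT c M I) := by
  rw [BK_K2_GG_sum, BK_K2_GG_sum, BK_K2_GT_sum]
  set P := I.powerset with hP
  -- split
  have h1 : ∑ H ∈ P, ∑ H' ∈ P, wt c c H H'
      ≤ (∑ H ∈ P with H.card ≤ M, ∑ H' ∈ P with H'.card ≤ M, wt c c H H')
        + ∑ H ∈ P with ¬ H.card ≤ M, ∑ H' ∈ P, wt c c H H'
        + ∑ H ∈ P, ∑ H' ∈ P with ¬ H'.card ≤ M, wt c c H H' := by
    have e1 : ∑ H ∈ P, ∑ H' ∈ P, wt c c H H'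
        = ∑ H ∈ P with H.card ≤ M, ∑ H' ∈ P, wt c c H H'
          + ∑ H ∈ P with ¬ H.card ≤ M, ∑ H' ∈ P, wt c c H H' :=
      (Finset.sum_filter_add_sum_filter_not P (fun H => H.card ≤ M) _).symm
    have e2 : ∑ H ∈ P with H.card ≤ M, ∑ H' ∈ P, wt c c H H'
        = (∑ H ∈ P with H.card ≤ M, ∑ H' ∈ P with H'.card ≤ M, wt c c H H')
          + ∑ H ∈ P with H.card ≤ M, ∑ H' ∈ P with ¬ H'.card ≤ M, wt c c H H' := by
      rw [← Finset.sum_add_distrib]
      refine Finset.sum_congr rfl fun H _ => ?_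
      exact (Finset.sum_filter_add_sum_filter_not P (fun H' => H'.card ≤ M) _).symm
    have e3 : ∑ H ∈ P with H.card ≤ M, ∑ H' ∈ P with ¬ H'.card ≤ M, wt c c H H'
        ≤ ∑ H ∈ P, ∑ H' ∈ P with ¬ H'.card ≤ M, wt c c H H' := by
      refine Finset.sum_le_sum_of_subset_of_nonneg (Finset.filter_subset _ _) fun H _ _ => ?_
      exact Finset.sum_nonneg fun H' _ => wt_nonneg hc hc H H'
    rw [e1, e2]
    linarith
  have h2 : ∑ H ∈ P with ¬ H.card ≤ M, ∑ H' ∈ P, wt c c H H'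
      ≤ (1 / 2) ^ M * ∑ H ∈ P, ∑ H' ∈ P, wt (2 * c) c H H' := by
    rw [Finset.mul_sum]
    refine (Finset.sum_le_sum fun H hH => ?_).trans
      (Finset.sum_le_sum_of_subset_of_nonneg (Finset.filter_subset (fun H : Finset ℕ => ¬ H.card ≤ M) P)
        (fun H _ _ => mul_nonneg (by positivity)
          (Finset.sum_nonneg fun H' _ => wt_nonneg (by positivity) hc H H')))
    rw [Finset.mem_filter, not_le] at hH
    rw [Finset.mul_sum]
    refine Finset.sum_le_sum fun H' _ => ?_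
    have h3 : c ^ H.card ≤ (1 / 2) ^ M * (2 * c) ^ H.card := by
      rw [mul_pow, ← mul_assoc]
      have h4 : (1 : ℝ) ≤ (1 / 2) ^ M * 2 ^ H.card := by
        have h5 : (2 : ℝ) ^ M ≤ 2 ^ H.card := pow_le_pow_right₀ (by norm_num) hH.2.le
        have h6 : (1 / 2 : ℝ) ^ M * 2 ^ M = 1 := by rw [← mul_pow]; norm_num
        calc (1 : ℝ) = (1 / 2) ^ M * 2 ^ M := h6.symm
          _ ≤ _ := by gcongr
      calc c ^ H.card = 1 * c ^ H.card := (one_mul _).symm
        _ ≤ _ := by gcongr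
    unfold wt
    have hK := K2_nonneg (∏ p ∈ H, p) (∏ p ∈ H', p)
    calc c ^ H.card * c ^ H'.card * K2 (∏ p ∈ H, p) (∏ p ∈ H', p)
        ≤ ((1 / 2) ^ M * (2 * c) ^ H.card) * c ^ H'.card * K2 (∏ p ∈ H, p) (∏ p ∈ H', p) := by
          gcongr
      _ = _ := by ring
  have h3 : ∑ H ∈ P, ∑ H' ∈ P with ¬ H'.card ≤ M, wt c c H H'
      = ∑ H ∈ P with ¬ H.card ≤ M, ∑ H' ∈ P, wt c c H H' := by
    rw [Finset.sum_comm]
    refine Finset.sum_congr rfl fun H _ => Finset.sum_congr rfl fun H' _ => ?_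
    unfold wt
    rw [K2_comm, mul_comm (c ^ H'.card)]
  rw [h3] at h1
  linarith

/-- lower bound of the quadratic form for the truncated exponential -/
lemma BK_K2_expo_ge {I : Finset ℕ} (hI : ∀ p ∈ I, p.Prime) {c : ℝ} (hc : 0 ≤ c) (M : ℕ) :
    (∏ p ∈ I, (1 + (2 * c + c ^ 2) / (p : ℝ)))
        * (1 - 2 * ((1 / 2) ^ M * Real.exp ((3 * c + 2 * c ^ 2) * VV I)))
      ≤ BK K2 (expo c M I) (expo c M I) := by
  have h1 : BK K2 (GT c M I) (GT c M I) ≤ BK K2 (expo c M I) (expo c M I) :=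
    BK_mono (coeff_GT_nonneg hc M) (coeff_GT_le hI hc M) (coeff_GT_nonneg hc M)
      (coeff_GT_le hI hc M) K2_nonneg
  refine le_trans ?_ ((BK_K2_GT_ge hc M).trans h1)
  rw [BK_K2_GG hI hc hc, BK_K2_GG hI (by positivity) hc]
  have e1 : ∏ p ∈ I, (1 + (c + c + c * c) / (p : ℝ)) = ∏ p ∈ I, (1 + (2 * c + c ^ 2) / (p : ℝ)) := by
    refine Finset.prod_congr rfl fun p _ => ?_
    ring
  have hF1 : 1 ≤ ∏ p ∈ I, (1 + (2 * c + c ^ 2) / (p : ℝ)) := by
    calc (1 : ℝ) = ∏ p ∈ I, (1 : ℝ) := by simp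
      _ ≤ _ := by
        refine Finset.prod_le_prod (fun p _ => zero_le_one) fun p _ => ?_
        have : 0 ≤ (2 * c + c ^ 2) / (p : ℝ) := by positivity
        linarith
  have h2 : ∏ p ∈ I, (1 + (2 * c + c + 2 * c * c) / (p : ℝ)) ≤ Real.exp ((3 * c + 2 * c ^ 2) * VV I) := by
    rw [VV, Finset.mul_sum, Real.exp_sum]
    refine Finset.prod_le_prod (fun p _ => by positivity) fun p _ => ?_
    have := Real.add_one_le_exp ((3 * c + 2 * c ^ 2) * (p : ℝ)⁻¹)
    calc 1 + (2 * c + c + 2 * c * c) / (p : ℝ) = (3 * c + 2 * c ^ 2) * (p : ℝ)⁻¹ + 1 := by ring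
      _ ≤ _ := this
  rw [e1]
  set F := ∏ p ∈ I, (1 + (2 * c + c ^ 2) / (p : ℝ)) with hF
  set E := Real.exp ((3 * c + 2 * c ^ 2) * VV I) with hE
  have hE0 : 0 < E := Real.exp_pos _
  have h3 : (1 / 2 : ℝ) ^ M * ∏ p ∈ I, (1 + (2 * c + c + 2 * c * c) / (p : ℝ)) ≤ F * ((1 / 2) ^ M * E) := by
    calc (1 / 2 : ℝ) ^ M * ∏ p ∈ I, (1 + (2 * c + c + 2 * c * c) / (p : ℝ))
        ≤ (1 / 2) ^ M * E := by gcongr
      _ = 1 * ((1 / 2) ^ M * E) := (one_mul _).symm
      _ ≤ F * ((1 / 2) ^ M * E) := by gcongr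
  linarith

end Pool.Agent.Lib.MP_f9aece_nt
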