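import Mathlib
import Pool.Agent.Lib.MP_f9aece_nt.SPoly

/-!
Products of Dirichlet polynomials with coprime supports, and mean values of products.
-/

set_option autoImplicit false

namespace Pool.Agent.Lib.MP_f9aece_nt

open Complex Set Filter Topology MeasureTheory ComplexConjugate
open scoped ArithmeticFunction.Omega

/-- kernels which are multiplicative over coprime supports -/
def MulKer (K : ℕ → ℕ → ℝ) : Prop :=
  K 1 1 = 1 ∧ ∀ A B : Set ℕ, Disjoint A B → ∀ a ∈ Smo A, ∀ a' ∈ Smo A, ∀ b ∈ Smo B, ∀ b' ∈ Smo B,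
    K (a * b) (a' * b') = K a a' * K b b'

lemma mulKer_K1 : MulKer K1 :=
  ⟨by simp [K1], fun _ _ hAB _ ha _ ha' _ hb _ hb' => K1_mul hAB ha ha' hb hb'⟩

lemma mulKer_K2 : MulKer K2 :=
  ⟨by simp [K2], fun _ _ hAB _ ha _ ha' _ hb _ hb' => K2_mul hAB ha ha' hb hb'⟩

lemma cone_prod_Smo (s : Finset ℕ) (I : ℕ → Finset ℕ) (f : ℕ → DP)
    (hf : ∀ j ∈ s, Cone (Smo (I j)) (f j)) :
    Cone (Smo (⋃ j ∈ s, (I j : Set ℕ))) (∏ j ∈ s, f j) := by
  refine Cone.prod s (fun j hj => (hf j hj).mono (Smo_mono ?_)) (one_mem_Smo _)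
    (fun a ha b hb => mul_mem_Smo ha hb)
  exact Set.subset_biUnion_of_mem (u := fun j => (I j : Set ℕ)) hj

lemma BK_prod {K : ℕ → ℕ → ℝ} (hK : MulKer K) (s : Finset ℕ) (I : ℕ → Finset ℕ)
    (hI : ∀ i ∈ s, ∀ j ∈ s, i ≠ j → Disjoint (I i) (I j)) (f g : ℕ → DP)
    (hf : ∀ j ∈ s, Cone (Smo (I j)) (f j)) (hg : ∀ j ∈ s, Cone (Smo (I j)) (g j)) :
    BK K (∏ j ∈ s, f j) (∏ j ∈ s, g j) = ∏ j ∈ s, BK K (f j) (g j) := by
  classical
  induction s using Finset.induction_on with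
  | empty =>
    simp only [Finset.prod_empty]
    rw [MonoidAlgebra.one_def, BK_single, hK.1]
    norm_num
  | insert a s ha ih =>
    rw [Finset.prod_insert ha, Finset.prod_insert ha, Finset.prod_insert ha]
    have hf' : ∀ j ∈ s, Cone (Smo (I j)) (f j) := fun j hj => hf j (Finset.mem_insert_of_mem hj)
    have hg' : ∀ j ∈ s, Cone (Smo (I j)) (g j) := fun j hj => hg j (Finset.mem_insert_of_mem hj)
    have hdis : Disjoint (I a : Set ℕ) (⋃ j ∈ s, (I j : Set ℕ)) := by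
      rw [Set.disjoint_iUnion₂_right]
      intro j hj
      rw [Finset.disjoint_coe]
      exact hI a (Finset.mem_insert_self _ _) j (Finset.mem_insert_of_mem hj)
        (by rintro rfl; exact ha hj)
    rw [BK_mul K (hf a (Finset.mem_insert_self _ _)) (hg a (Finset.mem_insert_self _ _))
      (cone_prod_Smo s I f hf') (cone_prod_Smo s I g hg') (hK.2 _ _ hdis)]
    rw [ih (fun i hi j hj hij => hI i (Finset.mem_insert_of_mem hi) j (Finset.mem_insert_of_mem hj) hij)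
      hf' hg']

lemma mv_sq {ν : Measure ℝ} [IsFiniteMeasure ν] {ρ : ℝ} {Z : ℕ}
    (hρ : ∀ a b : ℕ, 1 ≤ a → 1 ≤ b → b ≤ Z → a ≠ b → ‖charFun ν (Real.log b - Real.log a)‖ ≤ ρ)
    (hρ0 : 0 ≤ ρ) {f : DP} (hf : Cone {n | 1 ≤ n ∧ n ≤ Z} f) :
    |(∫ t, ‖ev t f‖ ^ 2 ∂ν) - ν.real univ * BK K1 f f| ≤ ρ * evh f ^ 2 := by
  have h1 := mv hρ hρ0 (hf.mono (fun n hn => hn.1)) hf
  have h2 : ∫ t, ev t f * conj (ev t f) ∂ν = ((∫ t, ‖ev t f‖ ^ 2 ∂ν : ℝ) : ℂ) := by
    rw [← integral_complex_ofReal]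
    congr 1
    funext t
    rw [Complex.mul_conj, Complex.normSq_eq_norm_sq]
  rw [h2, ← Complex.ofReal_sub, Complex.norm_real, Real.norm_eq_abs] at h1
  refine h1.trans (le_of_eq ?_)
  ring

lemma evh_le {Z : ℕ} {f : DP} (hf : Cone {n | 1 ≤ n ∧ n ≤ Z} f) : evh f ^ 2 ≤ Z * ev1 f ^ 2 := by
  have h0 : 0 ≤ evh f := by
    rw [evh_apply]
    exact pair_nonneg hf fun a _ => by positivity
  have h1 : evh f ≤ Real.sqrt Z * ev1 f := by
    rw [evh_apply, ev1_apply, ← pair_const_mul]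
    refine pair_mono hf fun a ha => ?_
    have ha0 : (0 : ℝ) < a := by exact_mod_cast ha.1
    have e : (a : ℝ) ^ (-(1 / 2) : ℝ) = Real.sqrt a * (a : ℝ)⁻¹ := by
      rw [Real.sqrt_eq_rpow, ← Real.rpow_neg_one, ← Real.rpow_add ha0]
      norm_num
    rw [e]
    have : Real.sqrt a ≤ Real.sqrt Z := Real.sqrt_le_sqrt (by exact_mod_cast ha.2)
    gcongr
  calc evh f ^ 2 ≤ (Real.sqrt Z * ev1 f) ^ 2 := by gcongr
    _ = Z * ev1 f ^ 2 := by rw [mul_pow, Real.sq_sqrt (Nat.cast_nonneg _)]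

lemma integrable_norm_ev_sq (ν : Measure ℝ) [IsFiniteMeasure ν] {A : Set ℕ} {f : DP} (hf : Cone A f)
    (hA : ∀ a ∈ A, 1 ≤ a) : Integrable (fun t => ‖ev t f‖ ^ 2) ν := by
  refine Integrable.of_bound ((continuous_ev f).norm.pow 2).aestronglyMeasurable (evh f ^ 2)
    (Eventually.of_forall fun t => ?_)
  rw [Real.norm_eq_abs, abs_of_nonneg (by positivity)]
  exact pow_le_pow_left₀ (norm_nonneg _) (norm_ev_le hf hA t) 2

/-- mean values of products of majorants -/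
lemma upper_abstract {ν : Measure ℝ} [IsFiniteMeasure ν] {ρ Lam : ℝ}
    (hρ : ∀ a b : ℕ, 1 ≤ a → 1 ≤ b → b ≤ ⌊Real.exp Lam⌋₊ → a ≠ b →
      ‖charFun ν (Real.log b - Real.log a)‖ ≤ ρ)
    (hρ0 : 0 ≤ ρ) (J : ℕ) (I : ℕ → Finset ℕ)
    (hI : ∀ i ∈ Finset.range J, ∀ j ∈ Finset.range J, i ≠ j → Disjoint (I i) (I j))
    (lam : ℕ → ℝ) (hlam : ∑ j ∈ Finset.range J, lam j ≤ Lam)
    (G0 G1 : ℕ → DP)
    (hG0 : ∀ j ∈ Finset.range J, Cone {n | n ∈ Smo (I j) ∧ Real.log n ≤ lam j} (G0 j))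
    (hG1 : ∀ j ∈ Finset.range J, Cone {n | n ∈ Smo (I j) ∧ Real.log n ≤ lam j} (G1 j))
    (F : ℕ → ℝ → ℝ) (hF0 : ∀ j ∈ Finset.range J, ∀ t, 0 ≤ F j t)
    (hF : ∀ j ∈ Finset.range J, ∀ t, F j t ≤ ‖ev t (G0 j)‖ ^ 2 + ‖ev t (G1 j)‖ ^ 2) :
    ∫ t, ∏ j ∈ Finset.range J, F j t ∂ν
      ≤ ν.real univ * ∏ j ∈ Finset.range J, (BK K1 (G0 j) (G0 j) + BK K1 (G1 j) (G1 j))
        + ρ * ⌊Real.exp Lam⌋₊ * ∏ j ∈ Finset.range J, (ev1 (G0 j) ^ 2 + ev1 (G1 j) ^ 2) := by
  classical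
  set Z := ⌊Real.exp Lam⌋₊ with hZ
  set D : Finset ℕ → DP := fun S => ∏ j ∈ Finset.range J, if j ∈ S then G0 j else G1 j with hD
  have hsel : ∀ S : Finset ℕ, ∀ j ∈ Finset.range J,
      Cone {n | n ∈ Smo (I j) ∧ Real.log n ≤ lam j} (if j ∈ S then G0 j else G1 j) := by
    intro S j hj
    split_ifs
    · exact hG0 j hj
    · exact hG1 j hj
  -- expansion of products
  have hexp : ∀ (φ : DP → ℝ) , (∀ S ∈ (Finset.range J).powerset,
      φ (D S) = ∏ j ∈ Finset.range J, φ (if j ∈ S then G0 j else G1 j)) →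
      ∑ S ∈ (Finset.range J).powerset, φ (D S)
        = ∏ j ∈ Finset.range J, (φ (G0 j) + φ (G1 j)) := by
    intro φ hφ
    rw [Finset.prod_add]
    refine Finset.sum_congr rfl fun S hS => ?_
    rw [hφ S hS]
    rw [Finset.mem_powerset] at hS
    rw [← Finset.prod_sdiff hS, mul_comm]
    congr 1
    · exact Finset.prod_congr rfl fun j hj => by rw [if_pos hj]
    · exact Finset.prod_congr rfl fun j hj => by rw [if_neg (Finset.mem_sdiff.mp hj).2]
  -- support of `D S`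
  have hDsup : ∀ S, Cone {n | 1 ≤ n ∧ n ≤ Z} (D S) := by
    intro S
    have key : ∀ s ⊆ Finset.range J, Cone {n | 1 ≤ n ∧ Real.log n ≤ ∑ j ∈ s, lam j}
        (∏ j ∈ s, if j ∈ S then G0 j else G1 j) := by
      intro s hs
      induction s using Finset.induction_on with
      | empty => simpa using Cone.one (A := {n | 1 ≤ n ∧ Real.log n ≤ 0}) (by simp)
      | insert a s ha ih =>
        rw [Finset.prod_insert ha, Finset.sum_insert ha]
        refine (hsel S a (hs (Finset.mem_insert_self _ _))).mul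
          (ih ((Finset.subset_insert _ _).trans hs)) ?_
        rintro x ⟨hx1, hx2⟩ y ⟨hy1, hy2⟩
        have hx0 := Smo_pos hx1
        refine ⟨Nat.one_le_iff_ne_zero.mpr (mul_ne_zero (by omega) (by omega)), ?_⟩
        push_cast
        rw [Real.log_mul (by exact_mod_cast (by omega : x ≠ 0)) (by exact_mod_cast (by omega : y ≠ 0))]
        linarith
    refine (key (Finset.range J) (Finset.Subset.refl _)).mono ?_
    rintro n ⟨h1, h2⟩
    refine ⟨h1, ?_⟩
    apply Nat.le_floor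
    rw [← Real.log_le_iff_le_exp (by exact_mod_cast h1)]
    exact h2.trans hlam
  -- pointwise
  have hpt : ∀ t, ∏ j ∈ Finset.range J, F j t ≤ ∑ S ∈ (Finset.range J).powerset, ‖ev t (D S)‖ ^ 2 := by
    intro t
    rw [hexp (fun f => ‖ev t f‖ ^ 2)]
    · exact Finset.prod_le_prod (fun j hj => hF0 j hj t) (fun j hj => hF j hj t)
    · intro S _
      simp only [hD, map_prod, norm_prod, Finset.prod_pow]
  have hint : Integrable (fun t => ∑ S ∈ (Finset.range J).powerset, ‖ev t (D S)‖ ^ 2) ν :=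
    integrable_finsetSum _ fun S _ => integrable_norm_ev_sq ν (hDsup S) (fun a ha => ha.1)
  have hprod0 : ∀ t, 0 ≤ ∏ j ∈ Finset.range J, F j t := fun t =>
    Finset.prod_nonneg fun j hj => hF0 j hj t
  calc ∫ t, ∏ j ∈ Finset.range J, F j t ∂ν
      ≤ ∫ t, ∑ S ∈ (Finset.range J).powerset, ‖ev t (D S)‖ ^ 2 ∂ν :=
        integral_mono_of_nonneg (Eventually.of_forall hprod0) hint (Eventually.of_forall hpt)
    _ = ∑ S ∈ (Finset.range J).powerset, ∫ t, ‖ev t (D S)‖ ^ 2 ∂ν :=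
        integral_finsetSum _ fun S _ => integrable_norm_ev_sq ν (hDsup S) (fun a ha => ha.1)
    _ ≤ ∑ S ∈ (Finset.range J).powerset,
          (ν.real univ * BK K1 (D S) (D S) + ρ * Z * (ev1 (D S)) ^ 2) := by
        refine Finset.sum_le_sum fun S _ => ?_
        have h1 := mv_sq hρ hρ0 (hDsup S)
        have h2 := (abs_le.mp h1).2
        have h3 := evh_le (hDsup S)
        have h4 : ρ * evh (D S) ^ 2 ≤ ρ * (Z * ev1 (D S) ^ 2) := by gcongr
        linarith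
    _ = ν.real univ * ∑ S ∈ (Finset.range J).powerset, BK K1 (D S) (D S)
          + ρ * Z * ∑ S ∈ (Finset.range J).powerset, (ev1 (D S)) ^ 2 := by
        rw [Finset.sum_add_distrib, ← Finset.mul_sum, ← Finset.mul_sum]
    _ = _ := by
        rw [hexp (fun f => BK K1 f f), hexp (fun f => (ev1 f) ^ 2)]
        · intro S _
          simp only [hD, map_prod, Finset.prod_pow]
        · intro S _
          simp only [hD]
          refine BK_prod mulKer_K1 _ I hI _ _ ?_ ?_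
          · exact fun j hj => (hsel S j hj).mono fun n hn => hn.1
          · exact fun j hj => (hsel S j hj).mono fun n hn => hn.1

end Pool.Agent.Lib.MP_f9aece_nt
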