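import Mathlib
import Pool.Agent.Lib.MP_f9aece_nt.Upper
import Pool.Agent.Lib.MP_f9aece_nt.TruncExp
import Pool.Agent.Lib.MP_f9aece_nt.Scales

/-!
Upper bound for the fractional moment of the truncated exponential polynomial.
-/

set_option autoImplicit false

namespace Pool.Agent.Lib.MP_f9aece_nt

open Complex Set Filter Topology MeasureTheory ComplexConjugate
open scoped ArithmeticFunction.Omega

lemma ev_expo (t : ℝ) (c : ℝ) (M : ℕ) (I : Finset ℕ) :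
    ev t (expo c M I) = EE M (c * ev t (PP I)) := by
  rw [expo, map_sum, EE]
  refine Finset.sum_congr rfl fun r _ => ?_
  rw [map_smul, map_pow, Complex.real_smul, mul_pow]
  push_cast
  ring

/-- Parameters of the construction. -/
structure Par where
  /-- the exponent -/
  k : ℝ
  /-- the exponent minus one -/
  a : ℝ
  /-- rounding of `k / a` -/
  m : ℕ
  /-- base length -/
  l : ℕ
  ha : 0 < a
  hk : k = 1 + a
  hm1 : k ≤ a * m
  hm2 : a * m ≤ k + a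
  hl1 : 16000 * k ^ 2 ≤ l
  hl2 : m + 20 ≤ l

namespace Par

variable (P : Par)

lemma k_pos : 0 < P.k := by have := P.ha; have := P.hk; linarith

lemma k_ge : 1 ≤ P.k := by have := P.ha; have := P.hk; linarith

/-- length of the short truncation -/
def L (j : ℕ) : ℕ := P.l * 2 ^ j

/-- length of the long truncation -/
def M (j : ℕ) : ℕ := P.m * P.l * 2 ^ j

/-- threshold -/
noncomputable def R (j : ℕ) : ℝ := P.M j / (20 * P.k)

/-- error exponent -/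
noncomputable def eta (j : ℕ) : ℝ :=
  2 * P.k / P.a * (2 * (1 / 3) ^ (P.L j + 1)) + 8 * (1 / 3) ^ (P.M j + 1)

lemma m_pos : 1 ≤ P.m := by
  by_contra h
  have h0 : P.m = 0 := by omega
  have := P.hm1
  have := P.k_pos
  rw [h0] at *
  simp at *
  linarith

lemma l_pos : 20 ≤ P.l := by have := P.hl2; omega

lemma M_pos (j : ℕ) : 1 ≤ P.M j := by
  have := P.m_pos
  have := P.l_pos
  unfold M
  have h1 : 0 < P.m * P.l * 2 ^ j := by positivity
  omega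

lemma M_ge (j : ℕ) : 16000 * P.k ^ 2 ≤ (P.M j : ℝ) := by
  refine P.hl1.trans ?_
  have h : P.l ≤ P.M j := by
    unfold M
    calc P.l = 1 * P.l * 1 := by ring
      _ ≤ P.m * P.l * 2 ^ j := by
        gcongr
        · exact P.m_pos
        · exact Nat.one_le_two_pow
  exact_mod_cast h

lemma L_ge (j : ℕ) : P.l + j ≤ P.L j := by
  unfold L
  have h1 : j < 2 ^ j := Nat.lt_two_pow_self
  have h2 := P.l_pos
  nlinarith

lemma M_ge_L (j : ℕ) : P.L j ≤ P.M j := by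
  unfold M L
  calc P.l * 2 ^ j = 1 * P.l * 2 ^ j := by ring
    _ ≤ _ := by gcongr; exact P.m_pos

lemma eta_nonneg (j : ℕ) : 0 ≤ P.eta j := by
  have := P.ha
  have := P.k_pos
  unfold eta
  positivity

lemma eta_bound (j : ℕ) : P.eta j + Real.exp (-(P.M j : ℝ)) ≤ (1 / 2) ^ (j + 1) := by
  have ha := P.ha
  have hk := P.k_pos
  have h1 : 2 * P.k / P.a ≤ 2 * P.m := by
    rw [div_le_iff₀ ha]
    have := P.hm1
    nlinarith
  have h2 : (1 / 3 : ℝ) ^ (P.L j + 1) ≤ (1 / 3) ^ (P.m + 20 + j) := by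
    apply pow_le_pow_of_le_one (by norm_num) (by norm_num)
    have := P.L_ge j
    have := P.hl2
    omega
  have h3 : (1 / 3 : ℝ) ^ (P.M j + 1) ≤ (1 / 3) ^ (P.m + 20 + j) := by
    apply pow_le_pow_of_le_one (by norm_num) (by norm_num)
    have := P.L_ge j
    have := P.hl2
    have := P.M_ge_L j
    omega
  have h4 : Real.exp (-(P.M j : ℝ)) ≤ (1 / 2) ^ (20 + j) := by
    have h5 : (20 : ℝ) + j ≤ P.M j := by
      have := P.L_ge j
      have := P.hl2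
      have := P.M_ge_L j
      exact_mod_cast (by omega : 20 + j ≤ P.M j)
    calc Real.exp (-(P.M j : ℝ)) ≤ Real.exp (-((20 + j : ℕ) : ℝ)) := by
          apply Real.exp_le_exp.mpr
          push_cast
          linarith
      _ = (Real.exp (-1)) ^ (20 + j) := by rw [← Real.exp_nat_mul]; congr 1; ring
      _ ≤ (1 / 2) ^ (20 + j) := by
          apply pow_le_pow_left₀ (Real.exp_pos _).le
          rw [Real.exp_neg, one_div]
          apply inv_anti₀ (by norm_num)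
          linarith [Real.add_one_le_exp (1 : ℝ)]
  have h6 : (4 * (P.m : ℝ) + 8) * (1 / 3) ^ P.m ≤ 8 := by
    have h7 : 1 + 2 * (P.m : ℝ) ≤ 3 ^ P.m := by
      have := one_add_mul_le_pow (a := (2 : ℝ)) (by norm_num) P.m
      norm_num at this
      linarith
    rw [one_div, inv_pow, ← div_eq_mul_inv, div_le_iff₀ (by positivity)]
    nlinarith
  have h8 : (1 / 3 : ℝ) ^ (P.m + 20 + j) = (1 / 3) ^ P.m * (1 / 3) ^ 20 * (1 / 3) ^ j := by
    rw [pow_add, pow_add]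
  have h9 : (1 / 3 : ℝ) ^ j ≤ (1 / 2) ^ j := pow_le_pow_left₀ (by norm_num) (by norm_num) j
  have h10 : (0 : ℝ) ≤ (1 / 2) ^ j := by positivity
  unfold eta
  calc 2 * P.k / P.a * (2 * (1 / 3) ^ (P.L j + 1)) + 8 * (1 / 3) ^ (P.M j + 1) + Real.exp (-(P.M j : ℝ))
      ≤ 2 * P.m * (2 * (1 / 3) ^ (P.m + 20 + j)) + 8 * (1 / 3) ^ (P.m + 20 + j) + (1 / 2) ^ (20 + j) := by
        gcongr
    _ = ((4 * (P.m : ℝ) + 8) * (1 / 3) ^ P.m) * ((1 / 3) ^ 20 * (1 / 3) ^ j) + (1 / 2) ^ 20 * (1 / 2) ^ j := by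
        rw [h8, pow_add]; ring
    _ ≤ 8 * ((1 / 3) ^ 20 * (1 / 2) ^ j) + (1 / 2) ^ 20 * (1 / 2) ^ j := by gcongr
    _ ≤ (1 / 2) ^ (j + 1) := by
        rw [pow_succ (1 / 2 : ℝ) j]
        set y : ℝ := (1 / 2) ^ j with hy
        have e1 : 8 * ((1 / 3 : ℝ) ^ 20 * y) + (1 / 2) ^ 20 * y = (8 * (1 / 3 : ℝ) ^ 20 + (1 / 2) ^ 20) * y := by
          ring
        rw [e1, mul_comm y]
        refine mul_le_mul_of_nonneg_right ?_ h10
        norm_num

lemma sum_half (J : ℕ) : ∑ j ∈ Finset.range J, (1 / 2 : ℝ) ^ (j + 1) ≤ 1 := by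
  have h : ∑ j ∈ Finset.range J, (1 / 2 : ℝ) ^ (j + 1) = 1 - (1 / 2) ^ J := by
    induction J with
    | zero => simp
    | succ J ih => rw [Finset.sum_range_succ, ih, pow_succ]; ring
  rw [h]
  have : (0 : ℝ) ≤ (1 / 2) ^ J := by positivity
  linarith

/-- the constant of the exceptional part -/
noncomputable def cQ (j : ℕ) : ℝ := Real.exp (P.k * P.R j) / (P.R j) ^ (P.M j)

lemma R_pos (j : ℕ) : 0 < P.R j := by
  have := P.k_pos
  have : (0 : ℝ) < P.M j := by exact_mod_cast P.M_pos j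
  unfold R
  positivity

lemma cQ_pos (j : ℕ) : 0 < P.cQ j := by
  have := P.R_pos j
  unfold cQ
  positivity

lemma cQ_sq (j : ℕ) : P.cQ j ^ 2 = (Real.exp (1 / 10) * (400 * P.k ^ 2 / (P.M j : ℝ) ^ 2)) ^ (P.M j) := by
  have hk := P.k_pos
  have hM : (0 : ℝ) < P.M j := by exact_mod_cast P.M_pos j
  have hR := P.R_pos j
  have e1 : Real.exp (P.k * P.R j) ^ 2 = Real.exp (1 / 10) ^ (P.M j) := by
    rw [← Real.exp_nat_mul, ← Real.exp_nat_mul]
    congr 1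
    unfold R
    push_cast
    field_simp
    norm_num
  have e2 : (P.R j) ^ 2 = (400 * P.k ^ 2 / (P.M j : ℝ) ^ 2)⁻¹ := by
    unfold R
    rw [div_pow, inv_div]
    ring
  unfold cQ
  rw [div_pow, e1, ← pow_mul, mul_comm (P.M j) 2, pow_mul, e2, mul_pow, inv_pow, div_inv_eq_mul]

lemma cQ_bound1 (j : ℕ) {V : ℝ} (hV0 : 0 ≤ V) (hV : V ≤ 12) :
    P.cQ j ^ 2 * ((P.M j).factorial * V ^ (P.M j)) ≤ Real.exp (-(P.M j : ℝ)) := by
  have hk := P.k_pos
  have hM : (0 : ℝ) < P.M j := by exact_mod_cast P.M_pos j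
  have hMge := P.M_ge j
  have h1 : ((P.M j).factorial : ℝ) ≤ (P.M j : ℝ) ^ (P.M j) := by
    exact_mod_cast Nat.factorial_le_pow (P.M j)
  have h2 : Real.exp (1 / 10) * (400 * P.k ^ 2 / (P.M j : ℝ) ^ 2) * (P.M j * 12) ≤ Real.exp (-1) := by
    have h3 := exp_eleven_tenth
    have h4 : Real.exp (1 / 10) = Real.exp (11 / 10) * Real.exp (-1) := by
      rw [← Real.exp_add]; norm_num
    have h5 : (400 * P.k ^ 2 / (P.M j : ℝ) ^ 2) * (P.M j * 12) ≤ 3 / 10 := by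
      have e : (400 * P.k ^ 2 / (P.M j : ℝ) ^ 2) * (P.M j * 12) = 4800 * P.k ^ 2 / P.M j := by
        field_simp
        norm_num
      rw [e, div_le_iff₀ hM]
      linarith
    have h6 : 0 ≤ (400 * P.k ^ 2 / (P.M j : ℝ) ^ 2) * (P.M j * 12) := by positivity
    calc Real.exp (1 / 10) * (400 * P.k ^ 2 / (P.M j : ℝ) ^ 2) * (P.M j * 12)
        = Real.exp (1 / 10) * ((400 * P.k ^ 2 / (P.M j : ℝ) ^ 2) * (P.M j * 12)) := by ring
      _ ≤ (10 / 3 * Real.exp (-1)) * (3 / 10) := by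
          rw [h4]; gcongr
      _ = Real.exp (-1) := by ring
  calc P.cQ j ^ 2 * ((P.M j).factorial * V ^ (P.M j))
      ≤ (Real.exp (1 / 10) * (400 * P.k ^ 2 / (P.M j : ℝ) ^ 2)) ^ (P.M j)
          * ((P.M j : ℝ) ^ (P.M j) * 12 ^ (P.M j)) := by
        rw [cQ_sq]; gcongr
    _ = (Real.exp (1 / 10) * (400 * P.k ^ 2 / (P.M j : ℝ) ^ 2) * (P.M j * 12)) ^ (P.M j) := by
        rw [← mul_pow, ← mul_pow]
    _ ≤ (Real.exp (-1)) ^ (P.M j) := pow_le_pow_left₀ (by positivity) h2 _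
    _ = Real.exp (-(P.M j : ℝ)) := by rw [← Real.exp_nat_mul]; congr 1; ring

lemma cQ_bound2 (j : ℕ) {V : ℝ} (hV0 : 0 ≤ V) (hV : V ≤ 12) :
    P.cQ j ^ 2 * (V ^ (P.M j)) ^ 2 ≤ Real.exp (-(P.M j : ℝ)) := by
  have hk := P.k_pos
  have hk1 := P.k_ge
  have hM : (0 : ℝ) < P.M j := by exact_mod_cast P.M_pos j
  have hMge := P.M_ge j
  have h2 : Real.exp (1 / 10) * (400 * P.k ^ 2 / (P.M j : ℝ) ^ 2) * 144 ≤ Real.exp (-1) := by
    have h3 := exp_eleven_tenth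
    have h4 : Real.exp (1 / 10) = Real.exp (11 / 10) * Real.exp (-1) := by
      rw [← Real.exp_add]; norm_num
    have h5 : (400 * P.k ^ 2 / (P.M j : ℝ) ^ 2) * 144 ≤ 3 / 10 := by
      have e : (400 * P.k ^ 2 / (P.M j : ℝ) ^ 2) * 144 = 57600 * P.k ^ 2 / (P.M j : ℝ) ^ 2 := by
        ring
      rw [e, div_le_iff₀ (by positivity)]
      have h7 : (16000 : ℝ) ≤ P.M j := by nlinarith
      have h8 : 16000 * P.k ^ 2 * 16000 ≤ (P.M j : ℝ) * P.M j := by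
        apply mul_le_mul hMge h7 (by norm_num) hM.le
      nlinarith
    have h6 : 0 ≤ (400 * P.k ^ 2 / (P.M j : ℝ) ^ 2) * 144 := by positivity
    calc Real.exp (1 / 10) * (400 * P.k ^ 2 / (P.M j : ℝ) ^ 2) * 144
        = Real.exp (1 / 10) * ((400 * P.k ^ 2 / (P.M j : ℝ) ^ 2) * 144) := by ring
      _ ≤ (10 / 3 * Real.exp (-1)) * (3 / 10) := by
          rw [h4]; gcongr
      _ = Real.exp (-1) := by ring
  calc P.cQ j ^ 2 * (V ^ (P.M j)) ^ 2
      ≤ (Real.exp (1 / 10) * (400 * P.k ^ 2 / (P.M j : ℝ) ^ 2)) ^ (P.M j)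
          * (12 ^ (P.M j)) ^ 2 := by
        rw [cQ_sq]; gcongr
    _ = (Real.exp (1 / 10) * (400 * P.k ^ 2 / (P.M j : ℝ) ^ 2) * 144) ^ (P.M j) := by
        rw [← pow_mul, mul_comm (P.M j) 2, pow_mul, ← mul_pow]
        norm_num
    _ ≤ (Real.exp (-1)) ^ (P.M j) := pow_le_pow_left₀ (by positivity) h2 _
    _ = Real.exp (-(P.M j : ℝ)) := by rw [← Real.exp_nat_mul]; congr 1; ring

/-- main majorant polynomial -/
noncomputable def G0 (I : ℕ → Finset ℕ) (j : ℕ) : DP :=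
  Real.exp (P.eta j / 2) • expo P.k (P.M j) (I j)

/-- exceptional majorant polynomial -/
noncomputable def G1 (I : ℕ → Finset ℕ) (j : ℕ) : DP :=
  P.cQ j • (PP (I j)) ^ (P.M j)

lemma norm_G0_sq (I : ℕ → Finset ℕ) (j : ℕ) (t : ℝ) :
    ‖ev t (P.G0 I j)‖ ^ 2 = Real.exp (P.eta j) * ‖EE (P.M j) (P.k * ev t (PP (I j)))‖ ^ 2 := by
  unfold G0
  rw [map_smul, ev_expo, Complex.real_smul, norm_mul, Complex.norm_real, Real.norm_eq_abs,
    abs_of_pos (Real.exp_pos _), mul_pow, ← Real.exp_nat_mul]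
  congr 2
  push_cast
  ring

lemma norm_G1_sq (I : ℕ → Finset ℕ) (j : ℕ) (t : ℝ) :
    ‖ev t (P.G1 I j)‖ ^ 2
      = Real.exp (2 * P.k * P.R j) * (‖ev t (PP (I j))‖ / P.R j) ^ (2 * P.M j) := by
  have hR := P.R_pos j
  unfold G1
  rw [map_smul, map_pow, Complex.real_smul, norm_mul, Complex.norm_real, Real.norm_eq_abs,
    abs_of_pos (P.cQ_pos j), mul_pow, norm_pow, cQ, div_pow, div_pow, ← Real.exp_nat_mul,
    ← pow_mul, ← pow_mul, mul_comm (P.M j) 2]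
  have e : ((2 : ℕ) : ℝ) * (P.k * P.R j) = 2 * P.k * P.R j := by push_cast; ring
  rw [e]
  ring

lemma majorant (I : ℕ → Finset ℕ) (j : ℕ) (t : ℝ) :
    ‖ev t (expo P.a (P.L j) (I j))‖ ^ (2 * P.k / P.a)
      ≤ ‖ev t (P.G0 I j)‖ ^ 2 + ‖ev t (P.G1 I j)‖ ^ 2 := by
  have ha := P.ha
  have hk := P.k_pos
  rw [ev_expo, norm_G0_sq, norm_G1_sq]
  have hcast : (P.M j : ℝ) = P.m * P.l * 2 ^ j := by unfold M; push_cast; ring
  have hcastL : (P.L j : ℝ) = P.l * 2 ^ j := by unfold L; push_cast; ring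
  have hl0 : (0 : ℝ) ≤ P.l * 2 ^ j := by positivity
  have h1 : P.a * P.R j ≤ ((P.L j + 1 : ℕ) : ℝ) / 10 := by
    have e : P.a * P.R j = (P.a * P.m) * (P.l * 2 ^ j) / (20 * P.k) := by
      unfold R; rw [hcast]; ring
    rw [e, div_le_iff₀ (by positivity)]
    push_cast
    rw [hcastL]
    have h2 : P.a * P.m ≤ 2 * P.k := by
      have := P.hm2
      have := P.hk
      linarith
    calc P.a * P.m * (P.l * 2 ^ j) ≤ 2 * P.k * (P.l * 2 ^ j) := by gcongr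
      _ ≤ (P.l * 2 ^ j + 1) / 10 * (20 * P.k) := by nlinarith
  have h3 : P.k * P.L j ≤ P.a * P.M j := by
    rw [hcast, hcastL]
    calc P.k * (P.l * 2 ^ j) ≤ (P.a * P.m) * (P.l * 2 ^ j) := by
          gcongr
          exact P.hm1
      _ = _ := by ring
  exact pointwise ha P.hk (P.M_pos j) rfl h1 h3 _

lemma BK_G0 {I : ℕ → Finset ℕ} {j : ℕ} (hI : ∀ p ∈ I j, p.Prime) :
    BK K1 (P.G0 I j) (P.G0 I j) ≤ Real.exp (P.eta j) * Real.exp (P.k ^ 2 * VV (I j)) := by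
  unfold G0
  rw [BK_smul_left, BK_smul_right, ← mul_assoc, ← Real.exp_add]
  have e : P.eta j / 2 + P.eta j / 2 = P.eta j := by ring
  rw [e]
  gcongr
  exact BK_expo hI _ _

lemma BK_G1 {I : ℕ → Finset ℕ} {j : ℕ} (hI : ∀ p ∈ I j, p.Prime) (hV : VV (I j) ≤ 12) :
    BK K1 (P.G1 I j) (P.G1 I j) ≤ Real.exp (-(P.M j : ℝ)) := by
  unfold G1
  rw [BK_smul_left, BK_smul_right, ← mul_assoc]
  have e : P.cQ j * P.cQ j = P.cQ j ^ 2 := by ring
  rw [e]
  refine le_trans ?_ (P.cQ_bound1 j (VV_nonneg _) hV)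
  gcongr
  exact BK_PP_pow_self hI _

lemma ev1_G0 {I : ℕ → Finset ℕ} {j : ℕ} (hI : ∀ p ∈ I j, p.Prime) :
    ev1 (P.G0 I j) ^ 2 ≤ Real.exp (P.eta j) * Real.exp (2 * P.k * VV (I j)) := by
  have h0 : 0 ≤ ev1 (P.G0 I j) := by
    rw [ev1_apply]
    refine pair_nonneg ((cone_expo hI P.k_pos.le (P.M j)).smul (Real.exp_pos _).le) fun a _ => ?_
    positivity
  have h1 : ev1 (P.G0 I j) ≤ Real.exp (P.eta j / 2) * Real.exp (P.k * VV (I j)) := by
    unfold G0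
    rw [map_smul, smul_eq_mul]
    gcongr
    exact ev1_expo_le P.k_pos.le _
  calc ev1 (P.G0 I j) ^ 2 ≤ (Real.exp (P.eta j / 2) * Real.exp (P.k * VV (I j))) ^ 2 := by gcongr
    _ = _ := by
      rw [mul_pow, ← Real.exp_nat_mul, ← Real.exp_nat_mul]
      congr 2 <;> (push_cast; ring)

lemma ev1_G1 {I : ℕ → Finset ℕ} {j : ℕ} (hV : VV (I j) ≤ 12) :
    ev1 (P.G1 I j) ^ 2 ≤ Real.exp (-(P.M j : ℝ)) := by
  unfold G1
  rw [map_smul, map_pow, ev1_PP, smul_eq_mul, mul_pow]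
  exact P.cQ_bound2 j (VV_nonneg _) hV

lemma log_M_bound {J : ℕ} {Y : ℝ} (hY : 0 ≤ Y) :
    ∑ j ∈ Finset.range J, (P.M j : ℝ) * (Y / 4 ^ j) ≤ 2 * P.m * P.l * Y := by
  have h1 : ∀ j ∈ Finset.range J, (P.M j : ℝ) * (Y / 4 ^ j) = (2 * P.m * P.l * Y) * (1 / 2) ^ (j + 1) := by
    intro j _
    unfold M
    have e : (4 : ℝ) ^ j = 2 ^ j * 2 ^ j := by rw [← mul_pow]; norm_num
    push_cast
    rw [e, pow_succ, one_div, inv_pow]
    field_simp
  rw [Finset.sum_congr rfl h1, ← Finset.mul_sum]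
  calc (2 * P.m * P.l * Y) * ∑ j ∈ Finset.range J, (1 / 2 : ℝ) ^ (j + 1)
      ≤ (2 * P.m * P.l * Y) * 1 := by
        gcongr
        exact sum_half J
    _ = _ := by ring

lemma log_L_bound {J : ℕ} {Y : ℝ} (hY : 0 ≤ Y) :
    ∑ j ∈ Finset.range J, (P.L j : ℝ) * (Y / 4 ^ j) ≤ 2 * P.l * Y := by
  have h1 : ∀ j ∈ Finset.range J, (P.L j : ℝ) * (Y / 4 ^ j) = (2 * P.l * Y) * (1 / 2) ^ (j + 1) := by
    intro j _
    unfold L
    have e : (4 : ℝ) ^ j = 2 ^ j * 2 ^ j := by rw [← mul_pow]; norm_num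
    push_cast
    rw [e, pow_succ, one_div, inv_pow]
    field_simp
  rw [Finset.sum_congr rfl h1, ← Finset.mul_sum]
  calc (2 * P.l * Y) * ∑ j ∈ Finset.range J, (1 / 2 : ℝ) ^ (j + 1)
      ≤ (2 * P.l * Y) * 1 := by
        gcongr
        exact sum_half J
    _ = _ := by ring

/-- a product of terms of the shape `exp(eta) * exp(x) + exp(-M)` -/
lemma prod_bound (J : ℕ) (x : ℕ → ℝ) (hx : ∀ j ∈ Finset.range J, 0 ≤ x j) (u v : ℕ → ℝ)
    (hu0 : ∀ j ∈ Finset.range J, 0 ≤ u j) (hv0 : ∀ j ∈ Finset.range J, 0 ≤ v j)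
    (hu : ∀ j ∈ Finset.range J, u j ≤ Real.exp (P.eta j) * Real.exp (x j))
    (hv : ∀ j ∈ Finset.range J, v j ≤ Real.exp (-(P.M j : ℝ))) :
    ∏ j ∈ Finset.range J, (u j + v j) ≤ Real.exp (∑ j ∈ Finset.range J, x j + 1) := by
  have h1 : ∀ j ∈ Finset.range J, u j + v j ≤ Real.exp (x j + (1 / 2) ^ (j + 1)) := by
    intro j hj
    have he := P.eta_nonneg j
    have h2 : Real.exp (-(P.M j : ℝ)) ≤ Real.exp (P.eta j + x j) * Real.exp (-(P.M j : ℝ)) := by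
      have : 1 ≤ Real.exp (P.eta j + x j) := Real.one_le_exp (by linarith [hx j hj])
      nlinarith [Real.exp_pos (-(P.M j : ℝ))]
    calc u j + v j ≤ Real.exp (P.eta j) * Real.exp (x j)
          + Real.exp (P.eta j + x j) * Real.exp (-(P.M j : ℝ)) := by
          linarith [hu j hj, hv j hj]
      _ = Real.exp (P.eta j + x j) * (Real.exp (-(P.M j : ℝ)) + 1) := by
          rw [Real.exp_add]; ring
      _ ≤ Real.exp (P.eta j + x j) * Real.exp (Real.exp (-(P.M j : ℝ))) := by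
          gcongr
          exact Real.add_one_le_exp _
      _ = Real.exp (x j + (P.eta j + Real.exp (-(P.M j : ℝ)))) := by
          rw [← Real.exp_add]; congr 1; ring
      _ ≤ _ := by
          gcongr
          exact P.eta_bound j
  calc ∏ j ∈ Finset.range J, (u j + v j)
      ≤ ∏ j ∈ Finset.range J, Real.exp (x j + (1 / 2) ^ (j + 1)) :=
        Finset.prod_le_prod (fun j hj => add_nonneg (hu0 j hj) (hv0 j hj)) h1
    _ = Real.exp (∑ j ∈ Finset.range J, x j + ∑ j ∈ Finset.range J, (1 / 2) ^ (j + 1)) := by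
        rw [← Real.exp_sum, Finset.sum_add_distrib]
    _ ≤ _ := by
        gcongr
        exact sum_half J

/-- the short mollifier-type polynomial -/
noncomputable def A (I : ℕ → Finset ℕ) (J : ℕ) : DP :=
  ∏ j ∈ Finset.range J, expo P.a (P.L j) (I j)

theorem upper {ν : Measure ℝ} [IsFiniteMeasure ν] {ρ Lam Y : ℝ} (hY : 0 < Y)
    (hLam : 2 * P.m * P.l * Y ≤ Lam)
    (hρ : ∀ a b : ℕ, 1 ≤ a → 1 ≤ b → b ≤ ⌊Real.exp Lam⌋₊ → a ≠ b →
      ‖charFun ν (Real.log b - Real.log a)‖ ≤ ρ)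
    (hρ0 : 0 ≤ ρ) (J p0 : ℕ) :
    ∫ t, ‖ev t (P.A (sc Y p0) J)‖ ^ (2 * P.k / P.a) ∂ν
      ≤ ν.real univ * Real.exp (P.k ^ 2 * (∑ j ∈ Finset.range J, VV (sc Y p0 j)) + 1)
        + ρ * ⌊Real.exp Lam⌋₊ * Real.exp (2 * P.k * (∑ j ∈ Finset.range J, VV (sc Y p0 j)) + 1) := by
  have hprime : ∀ j, ∀ p ∈ sc Y p0 j, p.Prime := fun j p hp => sc_prime hp
  have hVV : ∀ j, VV (sc Y p0 j) ≤ 12 := fun j => VV_sc_le hY p0 j
  have hk := P.k_pos
  have hcone : ∀ (j : ℕ) (n : ℕ), n ∈ Smo (sc Y p0 j : Set ℕ) → Ω n ≤ P.M j →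
      n ∈ {n | n ∈ Smo (sc Y p0 j : Set ℕ) ∧ Real.log n ≤ (P.M j : ℝ) * (Y / 4 ^ j)} := by
    intro j n h1 h2
    refine ⟨h1, log_le_of_Omega (fun p hp => ?_) (by positivity) h1 h2⟩
    exact sc_log_le (by simpa using hp)
  have hmain := upper_abstract hρ hρ0 J (sc Y p0) (fun i _ j _ hij => sc_disjoint hY hij)
    (fun j => (P.M j : ℝ) * (Y / 4 ^ j)) ((P.log_M_bound hY.le).trans hLam)
    (P.G0 (sc Y p0)) (P.G1 (sc Y p0))
    (fun j _ => ((cone_expo (hprime j) hk.le (P.M j)).smul (Real.exp_pos _).le).mono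
      (fun n hn => hcone j n hn.1 hn.2))
    (fun j _ => ((cone_PP_pow (hprime j) (P.M j)).smul (P.cQ_pos j).le).mono
      (fun n hn => hcone j n hn.1 hn.2.le))
    (fun j t => ‖ev t (expo P.a (P.L j) (sc Y p0 j))‖ ^ (2 * P.k / P.a))
    (fun j _ t => by positivity) (fun j _ t => P.majorant _ j t)
  have e : ∀ t, ‖ev t (P.A (sc Y p0) J)‖ ^ (2 * P.k / P.a)
      = ∏ j ∈ Finset.range J, ‖ev t (expo P.a (P.L j) (sc Y p0 j))‖ ^ (2 * P.k / P.a) := by
    intro t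
    unfold A
    rw [map_prod, norm_prod, ← Real.finsetProd_rpow]
    intro i _
    exact norm_nonneg _
  simp_rw [e]
  refine hmain.trans ?_
  have hV0 : ∀ j, 0 ≤ VV (sc Y p0 j) := fun j => VV_nonneg _
  have hc0 : ∀ j, Cone univ (P.G0 (sc Y p0) j) := fun j =>
    ((cone_expo (hprime j) hk.le (P.M j)).smul (Real.exp_pos _).le).mono (subset_univ _)
  have hc1 : ∀ j, Cone univ (P.G1 (sc Y p0) j) := fun j =>
    ((cone_PP_pow (hprime j) (P.M j)).smul (P.cQ_pos j).le).mono (subset_univ _)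
  have b1 := P.prod_bound J (fun j => P.k ^ 2 * VV (sc Y p0 j))
    (fun j _ => mul_nonneg (by positivity) (hV0 j))
    (fun j => BK K1 (P.G0 (sc Y p0) j) (P.G0 (sc Y p0) j))
    (fun j => BK K1 (P.G1 (sc Y p0) j) (P.G1 (sc Y p0) j))
    (fun j _ => BK_nonneg (hc0 j) (hc0 j) K1_nonneg)
    (fun j _ => BK_nonneg (hc1 j) (hc1 j) K1_nonneg)
    (fun j _ => P.BK_G0 (hprime j)) (fun j _ => P.BK_G1 (hprime j) (hVV j))
  have b2 := P.prod_bound J (fun j => 2 * P.k * VV (sc Y p0 j))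
    (fun j _ => mul_nonneg (by positivity) (hV0 j))
    (fun j => ev1 (P.G0 (sc Y p0) j) ^ 2)
    (fun j => ev1 (P.G1 (sc Y p0) j) ^ 2)
    (fun j _ => by positivity) (fun j _ => by positivity)
    (fun j _ => P.ev1_G0 (hprime j)) (fun j _ => P.ev1_G1 (hVV j))
  rw [← Finset.mul_sum] at b1 b2
  have hW : 0 ≤ ν.real univ := by positivity
  have hZ : 0 ≤ ρ * ⌊Real.exp Lam⌋₊ := by positivity
  exact add_le_add (mul_le_mul_of_nonneg_left b1 hW) (mul_le_mul_of_nonneg_left b2 hZ)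

end Par

end Pool.Agent.Lib.MP_f9aece_nt
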