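import Mathlib
import Pool.Agent.Lib.MP_f9aece_nt.Upper2
import Pool.Agent.Lib.MP_f9aece_nt.SPoly
import Pool.Agent.Lib.MP_f9aece_nt.EM

/-!
Lower bound for the mean square of zeta times a polynomial.
-/

set_option autoImplicit false

namespace Pool.Agent.Lib.MP_f9aece_nt

open Complex Set Filter Topology MeasureTheory ComplexConjugate
open scoped ArithmeticFunction.Omega

/-- the partial sum of zeta -/
noncomputable def ZP (N : ℕ) : DP := ∑ n ∈ Finset.Icc 1 N, MonoidAlgebra.single n 1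

lemma ev_ZP (t : ℝ) (N : ℕ) :
    ev t (ZP N) = ∑ n ∈ Finset.Icc 1 N, (n : ℂ) ^ (-(1 / 2 + I * t : ℂ)) := by
  rw [ZP, map_sum]
  refine Finset.sum_congr rfl fun n _ => ?_
  rw [ev_single]
  simp

lemma cone_ZP (N : ℕ) : Cone {n | 1 ≤ n ∧ n ≤ N} (ZP N) :=
  Cone.sum _ fun n hn => Cone.single (by simpa using hn) zero_le_one

lemma coeff_ZP_mul (N : ℕ) {A : DP} {n : ℕ} (hn : 1 ≤ n) (hnN : n ≤ N) :
    (ZP N * A).coeff n = pair (fun h => if h ∣ n then 1 else 0) A := by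
  classical
  have hn0 : n ≠ 0 := by omega
  rw [ZP, Finset.sum_mul, MonoidAlgebra.coeff_sum, Finsupp.finsetSum_apply]
  have h1 : ∑ l ∈ Finset.Icc 1 N, (MonoidAlgebra.single l (1 : ℝ) * A).coeff n
      = ∑ l ∈ n.divisors, A.coeff (n / l) := by
    have h2 : n.divisors ⊆ Finset.Icc 1 N := by
      intro l hl
      rw [Nat.mem_divisors] at hl
      rw [Finset.mem_Icc]
      exact ⟨Nat.pos_of_dvd_of_pos hl.1 (by omega), (Nat.le_of_dvd (by omega) hl.1).trans hnN⟩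
    rw [← Finset.sum_subset h2]
    · refine Finset.sum_congr rfl fun l hl => ?_
      rw [Nat.mem_divisors] at hl
      rw [coeff_single_mul l (Nat.pos_of_dvd_of_pos hl.1 (by omega)).ne', if_pos hl.1]
    · intro l hl hl'
      rw [Finset.mem_Icc] at hl
      rw [coeff_single_mul l (by omega), if_neg]
      intro hd
      exact hl' (Nat.mem_divisors.mpr ⟨hd, hn0⟩)
  rw [h1, Nat.sum_div_divisors n (fun d => A.coeff d), pair_def]
  have h3 : ∑ a ∈ A.coeff.support, A.coeff a * (if a ∣ n then (1 : ℝ) else 0)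
      = ∑ a ∈ A.coeff.support ∪ n.divisors, A.coeff a * (if a ∣ n then (1 : ℝ) else 0) := by
    refine Finset.sum_subset Finset.subset_union_left fun a _ ha => ?_
    rw [Finsupp.notMem_support_iff] at ha
    rw [ha, zero_mul]
  rw [h3]
  symm
  rw [← Finset.sum_subset (Finset.subset_union_right : n.divisors ⊆ A.coeff.support ∪ n.divisors)]
  · refine Finset.sum_congr rfl fun a ha => ?_
    rw [Nat.mem_divisors] at ha
    rw [if_pos ha.1, mul_one]
  · intro a _ ha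
    rw [if_neg, mul_zero]
    intro hd
    exact ha (Nat.mem_divisors.mpr ⟨hd, hn0⟩)

/-- truncation of a Dirichlet polynomial -/
noncomputable def tru (X : ℕ) (D : DP) : DP :=
  ∑ n ∈ Finset.Icc 1 X, MonoidAlgebra.single n (D.coeff n)

lemma coeff_tru (X : ℕ) (D : DP) (n : ℕ) :
    (tru X D).coeff n = if n ∈ Finset.Icc 1 X then D.coeff n else 0 := by
  classical
  rw [tru, MonoidAlgebra.coeff_sum, Finsupp.finsetSum_apply]
  simp_rw [MonoidAlgebra.coeff_single, Finsupp.single_apply]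
  rw [Finset.sum_ite_eq']

lemma cone_tru (X : ℕ) {D : DP} {A : Set ℕ} (hD : Cone A D) : Cone {n | 1 ≤ n ∧ n ≤ X} (tru X D) :=
  Cone.sum _ fun n hn => Cone.single (by simpa using hn) (hD n).1

lemma BK_K1_tru (X : ℕ) (D g : DP) :
    BK K1 (tru X D) g = ∑ n ∈ Finset.Icc 1 X, D.coeff n * (g.coeff n * (n : ℝ)⁻¹) := by
  rw [tru, BK_sum_left]
  refine Finset.sum_congr rfl fun n _ => ?_
  rw [BK_K1_eq, pair_single]

lemma BK_K1_tru_self (X : ℕ) (D : DP) :
    BK K1 (tru X D) (tru X D) = ∑ n ∈ Finset.Icc 1 X, D.coeff n ^ 2 * (n : ℝ)⁻¹ := by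
  rw [BK_K1_tru]
  refine Finset.sum_congr rfl fun n hn => ?_
  rw [coeff_tru, if_pos hn]
  ring

lemma BK_K1_tru_left (X : ℕ) (D : DP) :
    BK K1 D (tru X D) = ∑ n ∈ Finset.Icc 1 X, D.coeff n ^ 2 * (n : ℝ)⁻¹ := by
  rw [BK_K1_comm, BK_K1_tru]
  refine Finset.sum_congr rfl fun n hn => ?_
  ring

lemma harmonic_dvd {X a b z : ℕ} (hX : 1 ≤ X) (ha : 1 ≤ a) (hb : 1 ≤ b) (haz : a ≤ z) (hbz : b ≤ z) :
    K2 a b * Real.log ((X : ℝ) / (z : ℝ) ^ 2)
      ≤ ∑ n ∈ Finset.Icc 1 X, (if a ∣ n then (1 : ℝ) else 0) * (if b ∣ n then 1 else 0) * (n : ℝ)⁻¹ := by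
  classical
  set L := Nat.lcm a b with hL
  have hL0 : 0 < L := Nat.lcm_pos ha hb
  have hLz : L ≤ z ^ 2 := by
    have h1 : L ≤ a * b := Nat.le_of_dvd (by positivity) (Nat.lcm_dvd_mul a b)
    nlinarith
  have hLr : (0 : ℝ) < L := by exact_mod_cast hL0
  have hXr : (0 : ℝ) < X := by exact_mod_cast hX
  have hzr : (0 : ℝ) < z := by exact_mod_cast (by omega : 0 < z)
  rw [K2_eq_inv_lcm (by omega) (by omega), ← hL]
  have h1 : ∀ n, (if a ∣ n then (1 : ℝ) else 0) * (if b ∣ n then 1 else 0) * (n : ℝ)⁻¹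
      = if L ∣ n then (n : ℝ)⁻¹ else 0 := by
    intro n
    by_cases h : L ∣ n
    · have h2 := (Nat.lcm_dvd_iff.mp h)
      rw [if_pos h, if_pos h2.1, if_pos h2.2]
      ring
    · rw [if_neg h]
      by_cases h3 : a ∣ n
      · by_cases h4 : b ∣ n
        · exact absurd (Nat.lcm_dvd h3 h4) h
        · rw [if_neg h4]; ring
      · rw [if_neg h3]; ring
  simp_rw [h1]
  rw [← Finset.sum_filter]
  have h2 : (Finset.Icc 1 (X / L)).image (fun m => L * m) ⊆ (Finset.Icc 1 X).filter (fun n => L ∣ n) := by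
    intro n hn
    rw [Finset.mem_image] at hn
    obtain ⟨m, hm, rfl⟩ := hn
    rw [Finset.mem_Icc] at hm
    rw [Finset.mem_filter, Finset.mem_Icc]
    refine ⟨⟨Nat.mul_pos hL0 hm.1, ?_⟩, dvd_mul_right _ _⟩
    calc L * m ≤ L * (X / L) := by gcongr; exact hm.2
      _ ≤ X := Nat.mul_div_le X L
  have h3 : ∑ n ∈ (Finset.Icc 1 (X / L)).image (fun m => L * m), (n : ℝ)⁻¹
      ≤ ∑ n ∈ (Finset.Icc 1 X).filter (fun n => L ∣ n), (n : ℝ)⁻¹ :=
    Finset.sum_le_sum_of_subset_of_nonneg h2 fun _ _ _ => by positivity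
  refine le_trans ?_ h3
  rw [Finset.sum_image (by
    intro x _ y _ hxy
    exact Nat.eq_of_mul_eq_mul_left hL0 hxy)]
  push_cast
  simp_rw [mul_inv]
  rw [← Finset.mul_sum]
  gcongr
  have h4 : ∑ m ∈ Finset.Icc 1 (X / L), (m : ℝ)⁻¹ = (harmonic (X / L) : ℝ) := by
    rw [harmonic_eq_sum_Icc]
    push_cast
    rfl
  rw [h4]
  refine le_trans ?_ (log_add_one_le_harmonic (X / L))
  apply Real.log_le_log (by positivity)
  have h5 : (X : ℝ) / (z : ℝ) ^ 2 ≤ (X : ℝ) / L := by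
    gcongr
    exact_mod_cast hLz
  refine h5.trans ?_
  have h6 : (X : ℝ) / L < ((X / L : ℕ) : ℝ) + 1 := by
    rw [div_lt_iff₀ hLr]
    have : X < (X / L + 1) * L := by
      have := Nat.lt_div_mul_add hL0 (a := X)
      rw [add_mul, one_mul]
      exact this
    exact_mod_cast this
  exact_mod_cast h6.le

/-- the quadratic form with the divisor kernel -/
lemma G_ge {N X z : ℕ} (hX : 1 ≤ X) (hXN : X ≤ N) {A : DP} (hA : Cone {n | 1 ≤ n ∧ n ≤ z} A) :
    Real.log ((X : ℝ) / (z : ℝ) ^ 2) * BK K2 A A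
      ≤ ∑ n ∈ Finset.Icc 1 X, (ZP N * A).coeff n ^ 2 * (n : ℝ)⁻¹ := by
  have hA1 : Cone {n | 1 ≤ n} A := hA.mono fun n hn => hn.1
  have h1 : ∑ n ∈ Finset.Icc 1 X, (ZP N * A).coeff n ^ 2 * (n : ℝ)⁻¹
      = pair (fun a => pair (fun b => ∑ n ∈ Finset.Icc 1 X,
        (if a ∣ n then (1 : ℝ) else 0) * (if b ∣ n then 1 else 0) * (n : ℝ)⁻¹) A) A := by
    simp only [pair_def]
    have h2 : ∀ n ∈ Finset.Icc 1 X, (ZP N * A).coeff n ^ 2 * (n : ℝ)⁻¹
        = ∑ a ∈ A.coeff.support, ∑ b ∈ A.coeff.support, A.coeff a * (A.coeff b *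
          ((if a ∣ n then (1 : ℝ) else 0) * (if b ∣ n then 1 else 0) * (n : ℝ)⁻¹)) := by
      intro n hn
      rw [Finset.mem_Icc] at hn
      rw [coeff_ZP_mul N hn.1 (hn.2.trans hXN), pair_def, sq, Finset.sum_mul_sum, Finset.sum_mul]
      refine Finset.sum_congr rfl fun a _ => ?_
      rw [Finset.sum_mul]
      exact Finset.sum_congr rfl fun b _ => by ring
    rw [Finset.sum_congr rfl h2, Finset.sum_comm]
    refine Finset.sum_congr rfl fun a _ => ?_
    rw [Finset.sum_comm, Finset.mul_sum]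
    refine Finset.sum_congr rfl fun b _ => ?_
    rw [Finset.mul_sum, Finset.mul_sum]
  rw [h1, BK, ← pair_const_mul]
  refine pair_mono hA fun a ha => ?_
  rw [← pair_const_mul]
  refine pair_mono hA fun b hb => ?_
  rw [mul_comm]
  exact harmonic_dvd hX ha.1 hb.1 ha.2 hb.2


lemma continuous_zeta : Continuous (fun t : ℝ => riemannZeta (1 / 2 + I * t)) := by
  rw [continuous_iff_continuousAt]
  intro t
  have h1 : (1 / 2 + I * t : ℂ) ≠ 1 := by
    intro h
    have := congrArg Complex.re h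
    norm_num at this
  have h2 : ContinuousAt riemannZeta (1 / 2 + I * t) := (differentiableAt_riemannZeta h1).continuousAt
  have h3 : ContinuousAt (fun t : ℝ => (1 / 2 + I * t : ℂ)) t := by fun_prop
  exact ContinuousAt.comp (f := fun t : ℝ => (1 / 2 + I * t : ℂ)) h2 h3

lemma lower_abstract {ν : Measure ℝ} [IsFiniteMeasure ν] {ρ ε ε1 : ℝ} {N X z : ℕ}
    (hρ : ∀ a b : ℕ, 1 ≤ a → 1 ≤ b → b ≤ X → a ≠ b → ‖charFun ν (Real.log b - Real.log a)‖ ≤ ρ)
    (hρ0 : 0 ≤ ρ) (hX : 1 ≤ X) (hXN : X ≤ N) {A : DP} (hA : Cone {n | 1 ≤ n ∧ n ≤ z} A)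
    (hA1 : 1 ≤ A.coeff 1)
    (hζ : ∀ᵐ t : ℝ ∂ν, ‖riemannZeta (1 / 2 + I * t) - ev t (ZP N)‖ ≤ ε1) (hε10 : 0 ≤ ε1)
    (hε : 0 ≤ ε) (hε' : ε ≤ 1 / 10)
    (h1 : ρ * evh (ZP N * A) ^ 2 ≤ ε * ν.real univ) (h2 : ε1 * evh A ≤ ε) :
    ν.real univ * (∑ n ∈ Finset.Icc 1 X, (ZP N * A).coeff n ^ 2 * (n : ℝ)⁻¹) * (1 - 7 * ε)
      ≤ ∫ t : ℝ, ‖riemannZeta (1 / 2 + I * t) * ev t A‖ ^ 2 ∂ν := by
  set D := ZP N * A with hD
  set C := tru X D with hC
  set G := ∑ n ∈ Finset.Icc 1 X, D.coeff n ^ 2 * (n : ℝ)⁻¹ with hG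
  set W := ν.real univ with hW
  have hW0 : 0 ≤ W := by positivity
  have hA' : Cone {n | 1 ≤ n} A := hA.mono fun n hn => hn.1
  have hDc : Cone {n | 1 ≤ n} D := (cone_ZP N).mul hA' fun a ha b hb => by
    have h3 := ha.1
    simp only [mem_ofPred_eq] at hb ⊢
    exact Nat.mul_pos h3 hb
  have hCc : Cone {n | 1 ≤ n ∧ n ≤ X} C := cone_tru X hDc
  have hevC0 : 0 ≤ evh C := by
    rw [evh_apply]
    exact pair_nonneg hCc fun a _ => by positivity
  have hevA0 : 0 ≤ evh A := by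
    rw [evh_apply]
    exact pair_nonneg hA fun a _ => by positivity
  have hevCD : evh C ≤ evh D := by
    rw [evh_apply, evh_apply]
    refine pair_le_of_coeff_le (fun n => (hCc n).1) (fun n => ?_) (fun a => by positivity)
    rw [hC, coeff_tru]
    split_ifs
    · exact le_rfl
    · exact (hDc n).1
  have hevD0 : 0 ≤ evh D := hevC0.trans hevCD
  -- G is at least one
  have hG1 : 1 ≤ G := by
    have h3 : (1 : ℝ) ≤ D.coeff 1 := by
      rw [hD, coeff_ZP_mul N le_rfl (hX.trans hXN), pair_def]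
      have h4 : 1 ∈ A.coeff.support := by
        rw [Finsupp.mem_support_iff]
        linarith
      calc (1 : ℝ) ≤ A.coeff 1 := hA1
        _ = A.coeff 1 * (if 1 ∣ 1 then (1 : ℝ) else 0) := by simp
        _ ≤ _ := Finset.single_le_sum (f := fun a => A.coeff a * (if a ∣ 1 then (1 : ℝ) else 0))
            (fun a _ => mul_nonneg (hA a).1 (by split_ifs <;> norm_num)) h4
    have h5 : D.coeff 1 ^ 2 * ((1 : ℕ) : ℝ)⁻¹ ≤ G :=
      Finset.single_le_sum (f := fun n => D.coeff n ^ 2 * (n : ℝ)⁻¹) (fun n _ => by positivity)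
        (Finset.mem_Icc.mpr ⟨le_rfl, hX⟩)
    refine le_trans ?_ h5
    push_cast
    nlinarith
  -- mean values
  have m1 := mv hρ hρ0 hDc hCc
  rw [hC, BK_K1_tru_left, ← hC, ← hG, ← hW] at m1
  have m2 := mv_sq hρ hρ0 hCc
  rw [hC, BK_K1_tru_self, ← hC, ← hG, ← hW] at m2
  have e1 : ρ * evh D * evh C ≤ ε * W := by
    refine le_trans ?_ h1
    rw [sq, ← mul_assoc]
    gcongr
  have e2 : ρ * evh C ^ 2 ≤ ε * W := by
    refine le_trans ?_ h1
    gcongr
  set S2 := ∫ t : ℝ, ‖ev t C‖ ^ 2 ∂ν with hS2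
  have hWG : W ≤ W * G := by nlinarith
  have hS2le : S2 ≤ W * G * (1 + ε) := by
    have := (abs_le.mp m2).2
    nlinarith
  have hev : ∀ t, ‖ev t C‖ ≤ evh C := norm_ev_le hCc (fun a ha => ha.1)
  have hevA : ∀ t, ‖ev t A‖ ≤ evh A := norm_ev_le hA (fun a ha => ha.1)
  have hcont : Continuous (fun t : ℝ => riemannZeta (1 / 2 + I * t) * ev t A) :=
    continuous_zeta.mul (continuous_ev A)
  set B := (evh (ZP N) + ε1) * evh A with hB
  have hFb : ∀ᵐ t : ℝ ∂ν, ‖riemannZeta (1 / 2 + I * t) * ev t A‖ ≤ B := by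
    filter_upwards [hζ] with t ht
    rw [norm_mul, hB]
    have h3 : ‖riemannZeta (1 / 2 + I * t)‖ ≤ evh (ZP N) + ε1 := by
      have h4 : ‖ev t (ZP N)‖ ≤ evh (ZP N) := norm_ev_le (cone_ZP N) (fun a ha => ha.1) t
      calc ‖riemannZeta (1 / 2 + I * t)‖
          = ‖ev t (ZP N) + (riemannZeta (1 / 2 + I * t) - ev t (ZP N))‖ := by congr 1; ring
        _ ≤ ‖ev t (ZP N)‖ + ‖riemannZeta (1 / 2 + I * t) - ev t (ZP N)‖ := norm_add_le _ _
        _ ≤ _ := by linarith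
    have h5 := hevA t
    gcongr
    exact le_trans (norm_nonneg _) h3
  have iF2 : Integrable (fun t : ℝ => ‖riemannZeta (1 / 2 + I * t) * ev t A‖ ^ 2) ν := by
    refine Integrable.of_bound (hcont.norm.pow 2).aestronglyMeasurable (B ^ 2) ?_
    filter_upwards [hFb] with t ht
    rw [Real.norm_eq_abs, abs_of_nonneg (by positivity)]
    exact pow_le_pow_left₀ (norm_nonneg _) ht 2
  have iFC : Integrable (fun t : ℝ => ‖riemannZeta (1 / 2 + I * t) * ev t A‖ * ‖ev t C‖) ν := by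
    refine Integrable.of_bound (hcont.norm.mul (continuous_ev C).norm).aestronglyMeasurable
      (B * evh C) ?_
    filter_upwards [hFb] with t ht
    rw [Real.norm_eq_abs, abs_of_nonneg (by positivity)]
    have := hev t
    gcongr
    exact le_trans (norm_nonneg _) ht
  have iC2 : Integrable (fun t => ‖ev t C‖ ^ 2) ν := integrable_norm_ev_sq ν hCc (fun a ha => ha.1)
  have iC : Integrable (fun t => ‖ev t C‖) ν := by
    refine Integrable.of_bound (continuous_ev C).norm.aestronglyMeasurable (evh C)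
      (Eventually.of_forall fun t => ?_)
    rw [norm_norm]
    exact hev t
  have iDC : Integrable (fun t => ev t D * conj (ev t C)) ν := by
    refine Integrable.of_bound ((continuous_ev D).mul
      (Complex.continuous_conj.comp (continuous_ev C))).aestronglyMeasurable (evh D * evh C)
      (Eventually.of_forall fun t => ?_)
    rw [norm_mul, RCLike.norm_conj]
    have h3 := hev t
    have h4 : ‖ev t D‖ ≤ evh D := norm_ev_le hDc (fun a ha => ha) t
    gcongr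
  -- error term
  have hevC1 : ∫ t : ℝ, ‖ev t C‖ ∂ν ≤ W * G * (1 + ε) := by
    have h3 : ∫ t : ℝ, ‖ev t C‖ ∂ν ≤ ∫ t : ℝ, ((‖ev t C‖ ^ 2 + 1) / 2) ∂ν := by
      refine integral_mono iC ((iC2.add (integrable_const 1)).div_const 2) fun t => ?_
      simp only
      nlinarith [sq_nonneg (‖ev t C‖ - 1)]
    have h4 : ∫ t : ℝ, ((‖ev t C‖ ^ 2 + 1) / 2) ∂ν = (S2 + W) / 2 := by
      rw [integral_div, integral_add iC2 (integrable_const 1)]
      simp [hS2, hW]
    rw [h4] at h3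
    nlinarith
  have herr : ‖∫ t : ℝ, (ev t D * conj (ev t C)) ∂ν‖
      ≤ (∫ t : ℝ, ‖riemannZeta (1 / 2 + I * t) * ev t A‖ * ‖ev t C‖ ∂ν) + ε * (W * G * (1 + ε)) := by
    refine (norm_integral_le_integral_norm _).trans ?_
    have h3 : ∫ t : ℝ, ‖ev t D * conj (ev t C)‖ ∂ν
        ≤ ∫ t : ℝ, (‖riemannZeta (1 / 2 + I * t) * ev t A‖ * ‖ev t C‖ + ε * ‖ev t C‖) ∂ν := by
      refine integral_mono_ae iDC.norm (iFC.add (iC.const_mul ε)) ?_
      filter_upwards [hζ] with t ht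
      rw [norm_mul, RCLike.norm_conj, ← add_mul]
      gcongr
      have h4 : ev t D = riemannZeta (1 / 2 + I * t) * ev t A
          - (riemannZeta (1 / 2 + I * t) - ev t (ZP N)) * ev t A := by
        rw [hD, map_mul]; ring
      rw [h4]
      refine (norm_sub_le _ _).trans ?_
      gcongr
      rw [norm_mul]
      refine le_trans ?_ h2
      have := hevA t
      gcongr
    refine h3.trans ?_
    rw [integral_add iFC (iC.const_mul ε), integral_const_mul]
    gcongr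
  have hP : W * G * (1 - 3 * ε)
      ≤ ∫ t : ℝ, ‖riemannZeta (1 / 2 + I * t) * ev t A‖ * ‖ev t C‖ ∂ν := by
    have h3 : W * G - ε * W ≤ ‖∫ t : ℝ, (ev t D * conj (ev t C)) ∂ν‖ := by
      have h4 : ‖((W * G : ℝ) : ℂ)‖ ≤ ‖∫ t : ℝ, (ev t D * conj (ev t C)) ∂ν‖
          + ‖(∫ t : ℝ, (ev t D * conj (ev t C)) ∂ν) - ((W * G : ℝ) : ℂ)‖ := by
        calc ‖((W * G : ℝ) : ℂ)‖ = ‖(∫ t : ℝ, (ev t D * conj (ev t C)) ∂ν)
              - ((∫ t : ℝ, (ev t D * conj (ev t C)) ∂ν) - ((W * G : ℝ) : ℂ))‖ := by congr 1; ring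
          _ ≤ _ := norm_sub_le _ _
      rw [Complex.norm_real, Real.norm_eq_abs, abs_of_nonneg (by positivity)] at h4
      linarith
    have h5 : 0 ≤ W * G := by positivity
    have h6 : ε * W ≤ ε * (W * G) := mul_le_mul_of_nonneg_left hWG hε
    have h7 : ε * (W * G * (1 + ε)) ≤ ε * (W * G * 2) := by
      have : 1 + ε ≤ 2 := by linarith
      gcongr
    linarith
  -- conclusion
  set SF := ∫ t : ℝ, ‖riemannZeta (1 / 2 + I * t) * ev t A‖ ^ 2 ∂ν with hSF
  set Pc := ∫ t : ℝ, ‖riemannZeta (1 / 2 + I * t) * ev t A‖ * ‖ev t C‖ ∂ν with hPc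
  set lam := (1 - 3 * ε) / (1 + ε) with hlam
  have hlam0 : 0 ≤ lam := div_nonneg (by linarith) (by linarith)
  have hquad : 0 ≤ SF - 2 * lam * Pc + lam ^ 2 * S2 := by
    have h3 : ∫ t : ℝ, (‖riemannZeta (1 / 2 + I * t) * ev t A‖ - lam * ‖ev t C‖) ^ 2 ∂ν
        = SF - 2 * lam * Pc + lam ^ 2 * S2 := by
      have h4 : ∀ t : ℝ, (‖riemannZeta (1 / 2 + I * t) * ev t A‖ - lam * ‖ev t C‖) ^ 2
          = ‖riemannZeta (1 / 2 + I * t) * ev t A‖ ^ 2
            - 2 * lam * (‖riemannZeta (1 / 2 + I * t) * ev t A‖ * ‖ev t C‖)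
            + lam ^ 2 * ‖ev t C‖ ^ 2 := fun t => by ring
      simp_rw [h4]
      have i1 : Integrable (fun t : ℝ => ‖riemannZeta (1 / 2 + I * t) * ev t A‖ ^ 2
          - 2 * lam * (‖riemannZeta (1 / 2 + I * t) * ev t A‖ * ‖ev t C‖)) ν :=
        iF2.sub (iFC.const_mul _)
      rw [integral_add i1 (iC2.const_mul _),
        integral_sub iF2 (iFC.const_mul _), integral_const_mul, integral_const_mul]
    rw [← h3]
    exact integral_nonneg fun t => by positivity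
  have hWG0 : 0 ≤ W * G := by positivity
  have h1ε : 0 < 1 + ε := by linarith
  have h6 : 2 * lam * (W * G * (1 - 3 * ε)) - lam ^ 2 * (W * G * (1 + ε)) ≤ SF := by
    have h7 : 2 * lam * (W * G * (1 - 3 * ε)) ≤ 2 * lam * Pc := by gcongr
    have h8 : lam ^ 2 * S2 ≤ lam ^ 2 * (W * G * (1 + ε)) := by gcongr
    linarith
  have h9 : 2 * lam * (W * G * (1 - 3 * ε)) - lam ^ 2 * (W * G * (1 + ε))
      = W * G * ((1 - 3 * ε) ^ 2 / (1 + ε)) := by
    rw [hlam]
    field_simp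
    ring
  have h10 : 1 - 7 * ε ≤ (1 - 3 * ε) ^ 2 / (1 + ε) := by
    rw [le_div_iff₀ h1ε]
    nlinarith [sq_nonneg ε]
  rw [h9] at h6
  exact le_trans (mul_le_mul_of_nonneg_left h10 hWG0) h6

end Pool.Agent.Lib.MP_f9aece_nt
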