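import Mathlib

/-!
The randomly shifted moment, and a lower bound for the distance of logarithms of distinct
positive integers.
-/

set_option autoImplicit false

namespace Pool.Agent.Lib.MP_f9aece_nt

open Complex MeasureTheory

/-- the randomly shifted moment -/
noncomputable def mom (β x T : ℝ) : ℝ :=
  ∫ u in (0 : ℝ)..1, ‖riemannZeta (1 / 2 + I * x + I * u * T)‖ ^ β

lemma abs_log_sub_ge {a b : ℕ} (ha : 1 ≤ a) (hb : 1 ≤ b) (hab : a ≠ b) :
    1 / (2 * (b : ℝ)) ≤ |Real.log b - Real.log a| := by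
  have ha0 : (0 : ℝ) < a := by exact_mod_cast ha
  have hb0 : (0 : ℝ) < b := by exact_mod_cast hb
  have hb1 : (1 : ℝ) ≤ b := by exact_mod_cast hb
  have ha1 : (1 : ℝ) ≤ a := by exact_mod_cast ha
  rcases lt_or_gt_of_ne hab with h | h
  · have h1 : (a : ℝ) + 1 ≤ b := by exact_mod_cast h
    have h2 : Real.log (a / b) ≤ a / b - 1 := Real.log_le_sub_one_of_pos (by positivity)
    rw [Real.log_div ha0.ne' hb0.ne'] at h2
    have h3 : 1 / (2 * (b : ℝ)) ≤ 1 - a / b := by
      rw [div_le_iff₀ (by positivity)]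
      have : (1 - (a : ℝ) / b) * (2 * b) = 2 * (b - a) := by field_simp
      rw [this]
      linarith
    refine le_trans ?_ (le_abs_self _)
    linarith
  · have h1 : (b : ℝ) + 1 ≤ a := by exact_mod_cast h
    have h2 : Real.log (b / a) ≤ b / a - 1 := Real.log_le_sub_one_of_pos (by positivity)
    rw [Real.log_div hb0.ne' ha0.ne'] at h2
    have h3 : 1 / (2 * (b : ℝ)) ≤ 1 - b / a := by
      have : 1 - (b : ℝ) / a = (a - b) / a := by field_simp
      rw [this, div_le_div_iff₀ (by positivity) ha0]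
      nlinarith
    refine le_trans ?_ (neg_le_abs _)
    linarith

end Pool.Agent.Lib.MP_f9aece_nt
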