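import Mathlib
import Pool.Agent.Lib.MP_f9aece_nt.Lower

/-!
The quadratic form of the short polynomial.
-/

set_option autoImplicit false

namespace Pool.Agent.Lib.MP_f9aece_nt

open Complex Set Filter Topology MeasureTheory ComplexConjugate
open scoped ArithmeticFunction.Omega

lemma cone_prod_log (s : Finset ℕ) (I : ℕ → Finset ℕ) (lam : ℕ → ℝ) (f : ℕ → DP)
    (hf : ∀ j ∈ s, Cone {n | n ∈ Smo (I j : Set ℕ) ∧ Real.log n ≤ lam j} (f j)) :
    Cone {n | 1 ≤ n ∧ Real.log n ≤ ∑ j ∈ s, lam j} (∏ j ∈ s, f j) := by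
  classical
  induction s using Finset.induction_on with
  | empty =>
    simp only [Finset.prod_empty, Finset.sum_empty]
    exact Cone.one ⟨le_rfl, by simp⟩
  | insert a s ha ih =>
    rw [Finset.prod_insert ha, Finset.sum_insert ha]
    refine (hf a (Finset.mem_insert_self _ _)).mul
      (ih fun j hj => hf j (Finset.mem_insert_of_mem hj)) ?_
    rintro x ⟨hx1, hx2⟩ y ⟨hy1, hy2⟩
    have hx := Smo_pos hx1
    refine ⟨Nat.mul_pos hx hy1, ?_⟩
    push_cast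
    rw [Real.log_mul (by exact_mod_cast (by omega : x ≠ 0)) (by exact_mod_cast (by omega : y ≠ 0))]
    linarith

lemma pair_ind (f : DP) : pair (fun n => if n = 1 then 1 else 0) f = f.coeff 1 := by
  classical
  rw [pair_def]
  simp only [mul_ite, mul_one, mul_zero]
  by_cases h : 1 ∈ f.coeff.support
  · rw [Finset.sum_ite_eq', if_pos h]
  · rw [Finset.sum_ite_eq', if_neg h]
    rw [Finsupp.notMem_support_iff] at h
    exact h.symm

lemma coeff_one_mul (f g : DP) : (f * g).coeff 1 = f.coeff 1 * g.coeff 1 := by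
  rw [← pair_ind, ← pair_ind f, ← pair_ind g, pair_mul, ← pair_mul_const]
  refine pair_congr _ fun a _ => ?_
  rw [← pair_const_mul]
  refine pair_congr _ fun b _ => ?_
  by_cases ha : a = 1
  · subst ha
    simp
  · simp [ha]

lemma coeff_one_one : (1 : DP).coeff 1 = 1 := by
  simp [MonoidAlgebra.one_def]

lemma coeff_one_prod_ge (s : Finset ℕ) (f : ℕ → DP) (hf : ∀ j ∈ s, 1 ≤ (f j).coeff 1) :
    1 ≤ (∏ j ∈ s, f j).coeff 1 := by
  classical
  induction s using Finset.induction_on with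
  | empty => rw [Finset.prod_empty, coeff_one_one]
  | insert a s ha ih =>
    rw [Finset.prod_insert ha, coeff_one_mul]
    have h1 := hf a (Finset.mem_insert_self _ _)
    have h2 := ih fun j hj => hf j (Finset.mem_insert_of_mem hj)
    nlinarith

lemma coeff_one_expo {I : Finset ℕ} (hI : ∀ p ∈ I, p.Prime) {c : ℝ} (hc : 0 ≤ c) (M : ℕ) :
    1 ≤ (expo c M I).coeff 1 := by
  rw [expo, MonoidAlgebra.coeff_sum, Finsupp.finsetSum_apply]
  have h1 : ((c ^ 0 / ((Nat.factorial 0 : ℕ) : ℝ)) • (PP I) ^ 0).coeff 1 = 1 := by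
    rw [pow_zero, pow_zero, MonoidAlgebra.coeff_smul, Finsupp.smul_apply, coeff_one_one]
    simp
  rw [← h1]
  refine Finset.single_le_sum
    (f := fun r => ((c ^ r / ((Nat.factorial r : ℕ) : ℝ)) • (PP I) ^ r).coeff 1) (fun r _ => ?_)
    (Finset.mem_range.mpr (Nat.succ_pos M))
  exact (((cone_PP_pow hI r).smul (by positivity)) 1).1

lemma exp_le_one_add {y : ℝ} (hy : 0 ≤ y) : Real.exp (y - y ^ 2 / 2) ≤ 1 + y := by
  rw [← Real.le_log_iff_exp_le (by linarith)]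
  refine le_trans ?_ (Real.le_log_one_add_of_nonneg hy)
  rw [le_div_iff₀ (by linarith)]
  nlinarith [pow_nonneg hy 3]

lemma prod_one_add_ge {I : Finset ℕ} {x : ℝ} (hx : 0 ≤ x) :
    Real.exp (x * VV I - x ^ 2 / 2 * ∑ p ∈ I, ((p : ℝ)⁻¹) ^ 2) ≤ ∏ p ∈ I, (1 + x / (p : ℝ)) := by
  have h1 : x * VV I - x ^ 2 / 2 * ∑ p ∈ I, ((p : ℝ)⁻¹) ^ 2
      = ∑ p ∈ I, (x / p - (x / p) ^ 2 / 2) := by
    rw [VV, Finset.mul_sum, Finset.mul_sum, ← Finset.sum_sub_distrib]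
    refine Finset.sum_congr rfl fun p _ => ?_
    rw [div_eq_mul_inv]
    ring
  rw [h1, Real.exp_sum]
  refine Finset.prod_le_prod (fun p _ => (Real.exp_pos _).le) fun p _ => ?_
  exact exp_le_one_add (by positivity)

namespace Par

variable (P : Par)

lemma cone_A {Y : ℝ} (hY : 0 < Y) (p0 J : ℕ) {z : ℕ} (hz : Real.exp (2 * P.l * Y) < z + 1) :
    Cone {n | 1 ≤ n ∧ n ≤ z} (P.A (sc Y p0) J) := by
  have h1 : Cone {n | 1 ≤ n ∧ Real.log n ≤ ∑ j ∈ Finset.range J, (P.L j : ℝ) * (Y / 4 ^ j)}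
      (P.A (sc Y p0) J) := by
    refine cone_prod_log (Finset.range J) (sc Y p0) _ _ fun j _ => ?_
    refine (cone_expo (fun p hp => sc_prime hp) P.ha.le (P.L j)).mono fun n hn => ?_
    refine ⟨hn.1, log_le_of_Omega (fun p hp => ?_) (by positivity) hn.1 hn.2⟩
    exact sc_log_le (by simpa using hp)
  refine h1.mono fun n hn => ⟨hn.1, ?_⟩
  have h2 : Real.log n ≤ 2 * P.l * Y := hn.2.trans (P.log_L_bound hY.le)
  rw [Real.log_le_iff_le_exp (by exact_mod_cast hn.1)] at h2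
  have h3 : (n : ℝ) < ((z + 1 : ℕ) : ℝ) := by push_cast; linarith
  have h4 : n < z + 1 := by exact_mod_cast h3
  omega

lemma coeff_one_A (Y : ℝ) (p0 J : ℕ) : 1 ≤ (P.A (sc Y p0) J).coeff 1 :=
  coeff_one_prod_ge _ _ fun _ _ => coeff_one_expo (fun _ hp => sc_prime hp) P.ha.le _

lemma ev1_A_le {Y : ℝ} (hY : 0 < Y) (p0 J : ℕ) :
    ev1 (P.A (sc Y p0) J) ≤ Real.exp (P.a * (1 + Y)) := by
  unfold A
  rw [map_prod]
  have ha := P.ha
  calc ∏ j ∈ Finset.range J, ev1 (expo P.a (P.L j) (sc Y p0 j))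
      ≤ ∏ j ∈ Finset.range J, Real.exp (P.a * VV (sc Y p0 j)) := by
        refine Finset.prod_le_prod (fun j _ => ?_) fun j _ => ev1_expo_le ha.le _
        rw [ev1_apply]
        refine pair_nonneg (cone_expo (fun p hp => sc_prime hp) ha.le (P.L j)) fun a _ => ?_
        positivity
    _ = Real.exp (P.a * ∑ j ∈ Finset.range J, VV (sc Y p0 j)) := by
        rw [← Real.exp_sum, Finset.mul_sum]
    _ ≤ _ := by
        gcongr
        exact sum_VV_le hY p0 J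

lemma tau_bound (j : ℕ) {V : ℝ} (hV : V ≤ 12) :
    (1 / 2) ^ (P.L j) * Real.exp ((3 * P.a + 2 * P.a ^ 2) * V) ≤ 3 / 1000 / P.m * (1 / 2) ^ j := by
  have ha := P.ha
  have hk1 := P.k_ge
  have hak : P.a ≤ P.k := by have := P.hk; linarith
  have hl1 := P.hl1
  have hl2 : (P.m : ℝ) + 20 ≤ P.l := by exact_mod_cast P.hl2
  have hm : (1 : ℝ) ≤ P.m := by exact_mod_cast P.m_pos
  have h1 : (1 / 2 : ℝ) ^ (P.L j) ≤ (1 / 2) ^ P.l * (1 / 2) ^ j := by
    rw [← pow_add]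
    exact pow_le_pow_of_le_one (by norm_num) (by norm_num) (P.L_ge j)
  have h2 : (3 * P.a + 2 * P.a ^ 2) * V ≤ 60 * P.k ^ 2 := by
    have e1 : (3 * P.a + 2 * P.a ^ 2) * V ≤ (3 * P.a + 2 * P.a ^ 2) * 12 := by gcongr
    have e2 : P.a ≤ P.k ^ 2 := by nlinarith
    have e3 : P.a ^ 2 ≤ P.k ^ 2 := by gcongr
    linarith
  have h3 : (1 / 2 : ℝ) ^ P.l ≤ Real.exp (-(P.l * (69 / 100))) := by
    have e1 : (1 / 2 : ℝ) = Real.exp (-Real.log 2) := by
      rw [Real.exp_neg, Real.exp_log (by norm_num)]; norm_num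
    have e2 : Real.log 2 > 0.69 := by linarith [Real.log_two_gt_d9]
    rw [e1, ← Real.exp_nat_mul]
    apply Real.exp_le_exp.mpr
    have e3 : (0 : ℝ) ≤ P.l := Nat.cast_nonneg _
    nlinarith
  have h4 : Real.exp (-(P.l * (34 / 100))) ≤ 3 / P.m := by
    rw [Real.exp_neg]
    have e1 : (P.m : ℝ) / 3 ≤ Real.exp (P.l * (34 / 100)) := by
      have := Real.add_one_le_exp ((P.l : ℝ) * (34 / 100))
      linarith
    calc (Real.exp (P.l * (34 / 100)))⁻¹ ≤ ((P.m : ℝ) / 3)⁻¹ := by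
          apply inv_anti₀ (by positivity) e1
      _ = 3 / P.m := by rw [inv_div]
  have h5 : Real.exp (60 * P.k ^ 2 - P.l * (35 / 100)) ≤ 1 / 1000 := by
    have e1 : 60 * P.k ^ 2 - P.l * (35 / 100) ≤ -1000 := by nlinarith
    calc Real.exp (60 * P.k ^ 2 - P.l * (35 / 100)) ≤ Real.exp (-1000) := Real.exp_le_exp.mpr e1
      _ = (Real.exp 1000)⁻¹ := by rw [Real.exp_neg]
      _ ≤ (1000 : ℝ)⁻¹ := by
          apply inv_anti₀ (by norm_num)
          linarith [Real.add_one_le_exp (1000 : ℝ)]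
      _ = 1 / 1000 := by norm_num
  calc (1 / 2) ^ (P.L j) * Real.exp ((3 * P.a + 2 * P.a ^ 2) * V)
      ≤ ((1 / 2) ^ P.l * (1 / 2) ^ j) * Real.exp (60 * P.k ^ 2) := by gcongr
    _ ≤ (Real.exp (-(P.l * (69 / 100))) * (1 / 2) ^ j) * Real.exp (60 * P.k ^ 2) := by gcongr
    _ = (Real.exp (-(P.l * (34 / 100))) * Real.exp (60 * P.k ^ 2 - P.l * (35 / 100))) * (1 / 2) ^ j := by
        have e1 : Real.exp (-(P.l * (34 / 100))) * Real.exp (60 * P.k ^ 2 - P.l * (35 / 100))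
            = Real.exp (-(P.l * (69 / 100))) * Real.exp (60 * P.k ^ 2) := by
          rw [← Real.exp_add, ← Real.exp_add]; congr 1; ring
        rw [e1]; ring
    _ ≤ (3 / P.m * (1 / 1000)) * (1 / 2) ^ j := by gcongr
    _ = _ := by ring

lemma BK_K2_A_ge {Y : ℝ} (hY : 0 < Y) {p0 : ℕ} (hp0 : 1 ≤ p0) (hp0k : P.k ^ 4 ≤ p0) (J : ℕ) :
    Real.exp ((P.k ^ 2 - 1) * (∑ j ∈ Finset.range J, VV (sc Y p0 j)) - P.a / P.k - P.a / P.k / 10)
      ≤ BK K2 (P.A (sc Y p0) J) (P.A (sc Y p0) J) := by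
  have ha := P.ha
  have hk0 := P.k_pos
  have hk1 := P.k_ge
  have hk := P.hk
  set x := 2 * P.a + P.a ^ 2 with hx
  have hx0 : 0 ≤ x := by positivity
  have hxk : x = P.k ^ 2 - 1 := by rw [hx, hk]; ring
  have hm : (1 : ℝ) ≤ P.m := by exact_mod_cast P.m_pos
  have hmk : 1 / (P.m : ℝ) ≤ P.a / P.k := by
    rw [div_le_div_iff₀ (by positivity) hk0]
    have := P.hm1
    linarith
  have hprime : ∀ j, ∀ p ∈ sc Y p0 j, p.Prime := fun j p hp => sc_prime hp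
  have hVV : ∀ j, VV (sc Y p0 j) ≤ 12 := fun j => VV_sc_le hY p0 j
  have h1 : BK K2 (P.A (sc Y p0) J) (P.A (sc Y p0) J)
      = ∏ j ∈ Finset.range J, BK K2 (expo P.a (P.L j) (sc Y p0 j)) (expo P.a (P.L j) (sc Y p0 j)) := by
    refine BK_prod mulKer_K2 _ (sc Y p0) (fun i _ j _ hij => sc_disjoint hY hij) _ _ ?_ ?_ <;>
    exact fun j _ => (cone_expo (hprime j) ha.le (P.L j)).mono fun n hn => hn.1
  rw [h1]
  have h2 : ∀ j ∈ Finset.range J,
      Real.exp (x * VV (sc Y p0 j) - x ^ 2 / 2 * ∑ p ∈ sc Y p0 j, ((p : ℝ)⁻¹) ^ 2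
        - 4 * (3 / 1000 / P.m * (1 / 2) ^ j))
      ≤ BK K2 (expo P.a (P.L j) (sc Y p0 j)) (expo P.a (P.L j) (sc Y p0 j)) := by
    intro j _
    refine le_trans ?_ (BK_K2_expo_ge (hprime j) ha.le (P.L j))
    have h3 := P.tau_bound j (hVV j)
    set τ := (1 / 2) ^ (P.L j) * Real.exp ((3 * P.a + 2 * P.a ^ 2) * VV (sc Y p0 j)) with hτ
    have hτ0 : 0 ≤ τ := by positivity
    have h4 : 3 / 1000 / (P.m : ℝ) * (1 / 2) ^ j ≤ 3 / 1000 := by
      have e1 : (1 / 2 : ℝ) ^ j ≤ 1 := pow_le_one₀ (by norm_num) (by norm_num)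
      have e2 : 3 / 1000 / (P.m : ℝ) ≤ 3 / 1000 := by
        rw [div_le_iff₀ (by positivity)]
        nlinarith
      calc 3 / 1000 / (P.m : ℝ) * (1 / 2) ^ j ≤ 3 / 1000 * 1 := by gcongr
        _ = _ := by ring
    have h5 := inv_one_sub_le (x := 2 * τ) (by positivity) (by linarith)
    have h6 : Real.exp (-(4 * τ)) ≤ 1 - 2 * τ := by
      have e1 : Real.exp (-(4 * τ)) = Real.exp (-(4 * τ)) * 1 := by ring
      rw [e1]
      calc Real.exp (-(4 * τ)) * 1 ≤ Real.exp (-(4 * τ)) * (Real.exp (2 * (2 * τ)) * (1 - 2 * τ)) := by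
            gcongr
        _ = 1 - 2 * τ := by
            rw [← mul_assoc, ← Real.exp_add]
            have : -(4 * τ) + 2 * (2 * τ) = 0 := by ring
            rw [this, Real.exp_zero, one_mul]
    calc Real.exp (x * VV (sc Y p0 j) - x ^ 2 / 2 * ∑ p ∈ sc Y p0 j, ((p : ℝ)⁻¹) ^ 2
          - 4 * (3 / 1000 / P.m * (1 / 2) ^ j))
        ≤ Real.exp ((x * VV (sc Y p0 j) - x ^ 2 / 2 * ∑ p ∈ sc Y p0 j, ((p : ℝ)⁻¹) ^ 2)
          + (-(4 * τ))) := by
          apply Real.exp_le_exp.mpr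
          linarith
      _ = Real.exp (x * VV (sc Y p0 j) - x ^ 2 / 2 * ∑ p ∈ sc Y p0 j, ((p : ℝ)⁻¹) ^ 2)
          * Real.exp (-(4 * τ)) := Real.exp_add _ _
      _ ≤ (∏ p ∈ sc Y p0 j, (1 + x / (p : ℝ))) * (1 - 2 * τ) := by
          gcongr
          exact prod_one_add_ge hx0
  refine le_trans ?_ (Finset.prod_le_prod (fun j _ => (Real.exp_pos _).le) h2)
  rw [← Real.exp_sum]
  apply Real.exp_le_exp.mpr
  rw [Finset.sum_sub_distrib, Finset.sum_sub_distrib, ← Finset.mul_sum, ← Finset.mul_sum,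
    ← Finset.mul_sum, ← Finset.mul_sum, hxk]
  have h7 := sum_sq_sc_le hY hp0 J
  have h8 : ∑ j ∈ Finset.range J, (1 / 2 : ℝ) ^ j ≤ 2 := by
    have := sum_half J
    simp_rw [pow_succ] at this
    rw [← Finset.sum_mul] at this
    linarith
  have h9 : (P.k ^ 2 - 1) ^ 2 / 2 * ∑ j ∈ Finset.range J, ∑ p ∈ sc Y p0 j, ((p : ℝ)⁻¹) ^ 2
      ≤ P.a / P.k := by
    calc (P.k ^ 2 - 1) ^ 2 / 2 * ∑ j ∈ Finset.range J, ∑ p ∈ sc Y p0 j, ((p : ℝ)⁻¹) ^ 2
        ≤ (P.k ^ 2 - 1) ^ 2 / 2 * (1 / p0) := by gcongr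
      _ ≤ (P.k ^ 2 - 1) ^ 2 / 2 * (1 / P.k ^ 4) := by
          gcongr
      _ ≤ P.a / P.k := by
          have e : P.a = P.k - 1 := by rw [hk]; ring
          rw [e, mul_one_div, div_le_div_iff₀ (by positivity) hk0]
          have e1 : P.k ^ 2 - 1 = (P.k - 1) * (P.k + 1) := by ring
          have e2 : (P.k - 1) * P.k ^ 4 - (P.k ^ 2 - 1) ^ 2 / 2 * P.k
              = (P.k - 1) * P.k * (P.k ^ 3 - (P.k - 1) * (P.k + 1) ^ 2 / 2) := by ring
          have e3 : 0 ≤ P.k ^ 3 - (P.k - 1) * (P.k + 1) ^ 2 / 2 := by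
            nlinarith [sq_nonneg (P.k - 1), mul_nonneg hk0.le (sq_nonneg (P.k - 1))]
          have e4 : 0 ≤ (P.k - 1) * P.k * (P.k ^ 3 - (P.k - 1) * (P.k + 1) ^ 2 / 2) := by
            have : 0 ≤ P.k - 1 := by linarith
            positivity
          linarith
  have h10 : 4 * (3 / 1000 / (P.m : ℝ) * ∑ j ∈ Finset.range J, (1 / 2 : ℝ) ^ j) ≤ P.a / P.k / 10 := by
    have e : 3 / 1000 / (P.m : ℝ) = 3 / 1000 * (1 / P.m) := by ring
    rw [e]
    have hak0 : 0 ≤ P.a / P.k := by positivity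
    calc 4 * (3 / 1000 * (1 / (P.m : ℝ)) * ∑ j ∈ Finset.range J, (1 / 2 : ℝ) ^ j)
        ≤ 4 * (3 / 1000 * (P.a / P.k) * 2) := by gcongr
      _ ≤ P.a / P.k / 10 := by linarith
  linarith

end Par

end Pool.Agent.Lib.MP_f9aece_nt
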