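import Mathlib
import Pool.Agent.Lib.MP_f9aece_nt.Lower2

/-!
Lower bound for a smoothed moment, with explicit error hypotheses.
-/

set_option autoImplicit false

namespace Pool.Agent.Lib.MP_f9aece_nt

open Complex Set Filter Topology MeasureTheory ComplexConjugate
open scoped ArithmeticFunction.Omega

namespace Par

variable (P : Par)

lemma holder {ν : Measure ℝ} [IsFiniteMeasure ν] {ε1 : ℝ} {N : ℕ}
    (hζ : ∀ᵐ t : ℝ ∂ν, ‖riemannZeta (1 / 2 + I * t) - ev t (ZP N)‖ ≤ ε1)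
    {A : DP} (hA : Cone {n | 1 ≤ n} A) :
    (∫ t : ℝ, ‖riemannZeta (1 / 2 + I * t) * ev t A‖ ^ 2 ∂ν) ^ P.k
      ≤ (∫ t : ℝ, ‖riemannZeta (1 / 2 + I * t)‖ ^ (2 * P.k) ∂ν)
        * (∫ t : ℝ, ‖ev t A‖ ^ (2 * P.k / P.a) ∂ν) ^ P.a := by
  have ha := P.ha
  have hk0 := P.k_pos
  have hk := P.hk
  have hconj : P.k.HolderConjugate (P.k / P.a) := by
    rw [Real.holderConjugate_iff]
    refine ⟨by linarith, ?_⟩
    rw [inv_div]
    field_simp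
    linarith
  have hevA : ∀ t, ‖ev t A‖ ≤ evh A := norm_ev_le hA (fun a ha => ha)
  have hZb : ∀ᵐ t : ℝ ∂ν, ‖riemannZeta (1 / 2 + I * t)‖ ≤ evh (ZP N) + ε1 := by
    filter_upwards [hζ] with t ht
    have h4 : ‖ev t (ZP N)‖ ≤ evh (ZP N) := norm_ev_le (cone_ZP N) (fun a ha => ha.1) t
    calc ‖riemannZeta (1 / 2 + I * t)‖
        = ‖ev t (ZP N) + (riemannZeta (1 / 2 + I * t) - ev t (ZP N))‖ := by congr 1; ring
      _ ≤ ‖ev t (ZP N)‖ + ‖riemannZeta (1 / 2 + I * t) - ev t (ZP N)‖ := norm_add_le _ _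
      _ ≤ _ := by linarith
  have hc1 : Continuous (fun t : ℝ => ‖riemannZeta (1 / 2 + I * t)‖ ^ 2) := continuous_zeta.norm.pow 2
  have hc2 : Continuous (fun t : ℝ => ‖ev t A‖ ^ 2) := (continuous_ev A).norm.pow 2
  have i1 : MemLp (fun t : ℝ => ‖riemannZeta (1 / 2 + I * t)‖ ^ 2) (ENNReal.ofReal P.k) ν := by
    refine MemLp.of_bound hc1.aestronglyMeasurable ((evh (ZP N) + ε1) ^ 2) ?_
    filter_upwards [hZb] with t ht
    rw [Real.norm_eq_abs, abs_of_nonneg (by positivity)]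
    exact pow_le_pow_left₀ (norm_nonneg _) ht 2
  have i2 : MemLp (fun t : ℝ => ‖ev t A‖ ^ 2) (ENNReal.ofReal (P.k / P.a)) ν := by
    refine MemLp.of_bound hc2.aestronglyMeasurable ((evh A) ^ 2) ?_
    filter_upwards with t
    rw [Real.norm_eq_abs, abs_of_nonneg (by positivity)]
    exact pow_le_pow_left₀ (norm_nonneg _) (hevA t) 2
  have h1 := integral_mul_le_Lp_mul_Lq_of_nonneg hconj
    (Eventually.of_forall fun t : ℝ => by positivity :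
      0 ≤ᵐ[ν] fun t : ℝ => ‖riemannZeta (1 / 2 + I * t)‖ ^ 2)
    (Eventually.of_forall fun t : ℝ => by positivity : 0 ≤ᵐ[ν] fun t : ℝ => ‖ev t A‖ ^ 2) i1 i2
  have e1 : ∀ t : ℝ, (‖riemannZeta (1 / 2 + I * t)‖ ^ 2) ^ P.k
      = ‖riemannZeta (1 / 2 + I * t)‖ ^ (2 * P.k) := by
    intro t
    rw [← Real.rpow_natCast, ← Real.rpow_mul (norm_nonneg _)]
    norm_num
  have e2 : ∀ t : ℝ, (‖ev t A‖ ^ 2) ^ (P.k / P.a) = ‖ev t A‖ ^ (2 * P.k / P.a) := by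
    intro t
    rw [← Real.rpow_natCast, ← Real.rpow_mul (norm_nonneg _)]
    congr 1
    push_cast
    ring
  have e3 : ∀ t : ℝ, ‖riemannZeta (1 / 2 + I * t)‖ ^ 2 * ‖ev t A‖ ^ 2
      = ‖riemannZeta (1 / 2 + I * t) * ev t A‖ ^ 2 := by
    intro t
    rw [norm_mul, mul_pow]
  simp_rw [e1, e2, e3] at h1
  set SZ := ∫ t : ℝ, ‖riemannZeta (1 / 2 + I * t)‖ ^ (2 * P.k) ∂ν with hSZ
  set SA := ∫ t : ℝ, ‖ev t A‖ ^ (2 * P.k / P.a) ∂ν with hSA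
  set SF := ∫ t : ℝ, ‖riemannZeta (1 / 2 + I * t) * ev t A‖ ^ 2 ∂ν with hSF
  have hSZ0 : 0 ≤ SZ := integral_nonneg fun t => by positivity
  have hSA0 : 0 ≤ SA := integral_nonneg fun t => by positivity
  have hSF0 : 0 ≤ SF := integral_nonneg fun t => by positivity
  calc SF ^ P.k ≤ (SZ ^ (1 / P.k) * SA ^ (1 / (P.k / P.a))) ^ P.k := by
        exact Real.rpow_le_rpow hSF0 h1 hk0.le
    _ = SZ * SA ^ P.a := by
        rw [Real.mul_rpow (by positivity) (by positivity), ← Real.rpow_mul hSZ0,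
          ← Real.rpow_mul hSA0]
        congr 1
        · rw [one_div, inv_mul_cancel₀ hk0.ne', Real.rpow_one]
        · congr 1
          field_simp

theorem moment {ν : Measure ℝ} [IsFiniteMeasure ν] {ρ Lam Y ε ε1 : ℝ} {N X z p0 J : ℕ}
    (hY : 1 ≤ Y) (hp0 : 1 ≤ p0) (hp0k : P.k ^ 4 ≤ p0)
    (hLam : 2 * P.m * P.l * Y ≤ Lam)
    (hρ : ∀ a b : ℕ, 1 ≤ a → 1 ≤ b → (b ≤ X ∨ b ≤ ⌊Real.exp Lam⌋₊) → a ≠ b →
      ‖charFun ν (Real.log b - Real.log a)‖ ≤ ρ)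
    (hρ0 : 0 ≤ ρ) (hz : Real.exp (2 * P.l * Y) < z + 1) (hX : 1 ≤ X) (hXN : X ≤ N)
    (hζ : ∀ᵐ t : ℝ ∂ν, ‖riemannZeta (1 / 2 + I * t) - ev t (ZP N)‖ ≤ ε1) (hε10 : 0 ≤ ε1)
    (hε : 0 ≤ ε) (hε' : ε ≤ 1 / 10)
    (h1 : ρ * evh (ZP N * P.A (sc Y p0) J) ^ 2 ≤ ε * ν.real univ)
    (h2 : ε1 * evh (P.A (sc Y p0) J) ≤ ε)
    (h3 : ρ * ⌊Real.exp Lam⌋₊ * Real.exp (2 * P.k * (1 + Y) + 1) ≤ ν.real univ)
    (hW : 0 < ν.real univ) (hlog : 0 ≤ Real.log ((X : ℝ) / (z : ℝ) ^ 2)) :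
    ν.real univ * (Real.log ((X : ℝ) / (z : ℝ) ^ 2) * (1 - 7 * ε)) ^ P.k
        * Real.exp (P.k * P.a * (∑ j ∈ Finset.range J, VV (sc Y p0 j)) - (31 / 10) * P.a)
      ≤ ∫ t : ℝ, ‖riemannZeta (1 / 2 + I * t)‖ ^ (2 * P.k) ∂ν := by
  have hY0 : 0 < Y := by linarith
  have ha := P.ha
  have hk0 := P.k_pos
  have hk := P.hk
  set A := P.A (sc Y p0) J with hAdef
  set V := ∑ j ∈ Finset.range J, VV (sc Y p0 j) with hV
  set W := ν.real univ with hWdef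
  set Lg := Real.log ((X : ℝ) / (z : ℝ) ^ 2) with hLg
  have hV0 : 0 ≤ V := Finset.sum_nonneg fun j _ => VV_nonneg _
  have hV1 : V ≤ 1 + Y := sum_VV_le hY0 p0 J
  have hA : Cone {n | 1 ≤ n ∧ n ≤ z} A := P.cone_A hY0 p0 J hz
  -- lower bound
  have hlow := lower_abstract (fun a b h1 h2 h3 h4 => hρ a b h1 h2 (Or.inl h3) h4) hρ0 hX hXN hA
    (P.coeff_one_A Y p0 J) hζ hε10 hε hε' h1 h2
  have hG := G_ge hX hXN hA
  have hK2 := P.BK_K2_A_ge hY0 hp0 hp0k J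
  rw [← hAdef, ← hV] at hK2
  rw [← hWdef] at hlow
  rw [← hLg] at hG
  -- upper bound
  have hup := P.upper hY0 hLam (fun a b h1 h2 h3 h4 => hρ a b h1 h2 (Or.inr h3) h4) hρ0 J p0
  rw [← hAdef, ← hV, ← hWdef] at hup
  -- Hoelder
  have hh := P.holder hζ (hA.mono fun n hn => hn.1)
  set SZ := ∫ t : ℝ, ‖riemannZeta (1 / 2 + I * t)‖ ^ (2 * P.k) ∂ν with hSZ
  set SA := ∫ t : ℝ, ‖ev t A‖ ^ (2 * P.k / P.a) ∂ν with hSA
  set SF := ∫ t : ℝ, ‖riemannZeta (1 / 2 + I * t) * ev t A‖ ^ 2 ∂ν with hSF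
  have hSZ0 : 0 ≤ SZ := integral_nonneg fun t => by positivity
  have hSA0 : 0 ≤ SA := integral_nonneg fun t => by positivity
  have h7ε : 0 ≤ 1 - 7 * ε := by linarith
  set E1 := Real.exp ((P.k ^ 2 - 1) * V - P.a / P.k - P.a / P.k / 10) with hE1
  have s1 : W * (Lg * (1 - 7 * ε)) * E1 ≤ SF := by
    refine le_trans ?_ hlow
    calc W * (Lg * (1 - 7 * ε)) * E1 = W * (Lg * E1) * (1 - 7 * ε) := by ring
      _ ≤ W * (Lg * BK K2 A A) * (1 - 7 * ε) := by gcongr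
      _ ≤ _ := by gcongr
  have s2 : SA ≤ W * Real.exp (P.k ^ 2 * V + 2) := by
    have e1 : ρ * ⌊Real.exp Lam⌋₊ * Real.exp (2 * P.k * V + 1) ≤ W := by
      refine le_trans ?_ h3
      gcongr
    have e2 : Real.exp (P.k ^ 2 * V + 2) = Real.exp (P.k ^ 2 * V + 1) * Real.exp 1 := by
      rw [← Real.exp_add]; congr 1; ring
    have e3 : 2 ≤ Real.exp 1 := by linarith [Real.add_one_le_exp (1 : ℝ)]
    have e4 : 1 ≤ Real.exp (P.k ^ 2 * V + 1) := Real.one_le_exp (by positivity)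
    calc SA ≤ W * Real.exp (P.k ^ 2 * V + 1) + W * 1 := by linarith
      _ ≤ W * Real.exp (P.k ^ 2 * V + 1) + W * Real.exp (P.k ^ 2 * V + 1) := by gcongr
      _ = W * (Real.exp (P.k ^ 2 * V + 1) * 2) := by ring
      _ ≤ W * (Real.exp (P.k ^ 2 * V + 1) * Real.exp 1) := by gcongr
      _ = _ := by rw [e2]
  have s3 : (W * (Lg * (1 - 7 * ε)) * E1) ^ P.k ≤ SZ * (W * Real.exp (P.k ^ 2 * V + 2)) ^ P.a := by
    calc (W * (Lg * (1 - 7 * ε)) * E1) ^ P.k ≤ SF ^ P.k := by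
          apply Real.rpow_le_rpow (by positivity) s1 hk0.le
      _ ≤ SZ * SA ^ P.a := hh
      _ ≤ _ := by
          gcongr
  -- conclusion
  have hE : 0 < (W * Real.exp (P.k ^ 2 * V + 2)) ^ P.a := by positivity
  have s4 : W * (Lg * (1 - 7 * ε)) ^ P.k * Real.exp (P.k * P.a * V - (31 / 10) * P.a)
      * (W * Real.exp (P.k ^ 2 * V + 2)) ^ P.a = (W * (Lg * (1 - 7 * ε)) * E1) ^ P.k := by
    have hq : 0 ≤ Lg * (1 - 7 * ε) := by positivity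
    have e1 : (W * Real.exp (P.k ^ 2 * V + 2)) ^ P.a
        = W ^ P.a * Real.exp ((P.k ^ 2 * V + 2) * P.a) := by
      rw [Real.mul_rpow hW.le (Real.exp_pos _).le, ← Real.exp_mul]
    have e2 : (W * (Lg * (1 - 7 * ε)) * E1) ^ P.k
        = W ^ P.k * (Lg * (1 - 7 * ε)) ^ P.k
          * Real.exp (((P.k ^ 2 - 1) * V - P.a / P.k - P.a / P.k / 10) * P.k) := by
      rw [Real.mul_rpow (by positivity) (Real.exp_pos _).le, Real.mul_rpow hW.le hq,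
        ← Real.exp_mul]
    have e3 : W ^ P.k = W * W ^ P.a := by
      rw [hk, Real.rpow_add hW, Real.rpow_one]
    have e4 : ((P.k ^ 2 - 1) * V - P.a / P.k - P.a / P.k / 10) * P.k
        = (P.k * P.a * V - (31 / 10) * P.a) + (P.k ^ 2 * V + 2) * P.a := by
      have h5 : P.a / P.k * P.k = P.a := by field_simp
      have h6 : ((P.k ^ 2 - 1) * V - P.a / P.k - P.a / P.k / 10) * P.k
          = (P.k ^ 2 - 1) * P.k * V - (P.a / P.k * P.k) - (P.a / P.k * P.k) / 10 := by ring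
      rw [h6, h5]
      have h7 : P.a = P.k - 1 := by linarith
      rw [h7]
      ring
    rw [e1, e2, e3, e4, Real.exp_add]
    ring
  have s5 : W * (Lg * (1 - 7 * ε)) ^ P.k * Real.exp (P.k * P.a * V - (31 / 10) * P.a)
      * (W * Real.exp (P.k ^ 2 * V + 2)) ^ P.a
      ≤ SZ * (W * Real.exp (P.k ^ 2 * V + 2)) ^ P.a := by
    rw [s4]; exact s3
  exact le_of_mul_le_mul_right s5 hE

end Par

end Pool.Agent.Lib.MP_f9aece_nt
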