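import Mathlib
import Pool.Agent.Lib.MP_f9aece_nt.Moment
import Pool.Agent.Lib.MP_f9aece_nt.LogSub
import Pool.Agent.Lib.MP_f9aece_nt.Weight

/-!
Assembly: choice of the parameters as functions of `T`.
-/

set_option autoImplicit false

namespace Pool.Agent.Lib.MP_f9aece_nt

open Complex Set Filter Topology MeasureTheory ComplexConjugate
open scoped ArithmeticFunction.Omega

lemma floor_half {y : ℝ} (hy : 1 ≤ y) : y / 2 ≤ (⌊y⌋₊ : ℝ) := by
  have h1 : y < ⌊y⌋₊ + 1 := Nat.lt_floor_add_one y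
  have h2 : (1 : ℝ) ≤ ⌊y⌋₊ := by exact_mod_cast Nat.one_le_iff_ne_zero.mpr (Nat.floor_pos.mpr hy).ne'
  linarith

lemma zeta_approx_T {T t : ℝ} (hT : 1 ≤ T) (h1 : T ^ (7 / 8 : ℝ) ≤ t) (h2 : t ≤ T) :
    ‖riemannZeta (1 / 2 + I * t) - ev t (ZP ⌊T ^ (3 / 2 : ℝ)⌋₊)‖ ≤ 30 * T ^ (-(1 / 8) : ℝ) := by
  have hT0 : 0 < T := by linarith
  have ht1 : 1 ≤ t := le_trans (Real.one_le_rpow hT (by norm_num)) h1
  have ht0 : 0 < t := by linarith
  have hT32 : 1 ≤ T ^ (3 / 2 : ℝ) := Real.one_le_rpow hT (by norm_num)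
  set N := ⌊T ^ (3 / 2 : ℝ)⌋₊ with hN
  have hN1 : 1 ≤ N := Nat.one_le_iff_ne_zero.mpr (Nat.floor_pos.mpr hT32).ne'
  have hNlo : T ^ (3 / 2 : ℝ) / 2 ≤ N := floor_half hT32
  have hNhi : (N : ℝ) ≤ T ^ (3 / 2 : ℝ) := Nat.floor_le (by positivity)
  have hN0 : (0 : ℝ) < N := by exact_mod_cast hN1
  rw [ev_ZP]
  refine (zeta_approx ht1 hN1).trans ?_
  have hpos : 0 < T ^ (-(1 / 8) : ℝ) := by positivity
  have a1 : (N : ℝ) ^ (-(1 / 2) : ℝ) ≤ 2 * T ^ (-(1 / 8) : ℝ) := by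
    calc (N : ℝ) ^ (-(1 / 2) : ℝ) ≤ (T ^ (3 / 2 : ℝ) / 2) ^ (-(1 / 2) : ℝ) :=
          Real.rpow_le_rpow_of_nonpos (by positivity) hNlo (by norm_num)
      _ = 2 ^ (1 / 2 : ℝ) * T ^ (-(3 / 4) : ℝ) := by
          rw [Real.div_rpow (by positivity) (by norm_num), ← Real.rpow_mul hT0.le,
            Real.rpow_neg (by norm_num : (0 : ℝ) ≤ 2)]
          norm_num
          ring
      _ ≤ 2 * T ^ (-(1 / 8) : ℝ) := by
          have e1 : (2 : ℝ) ^ (1 / 2 : ℝ) ≤ 2 ^ (1 : ℝ) :=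
            Real.rpow_le_rpow_of_exponent_le (by norm_num) (by norm_num)
          rw [Real.rpow_one] at e1
          have e2 : T ^ (-(3 / 4) : ℝ) ≤ T ^ (-(1 / 8) : ℝ) :=
            Real.rpow_le_rpow_of_exponent_le hT (by norm_num)
          gcongr
  have a2 : (N : ℝ) ^ (1 / 2 : ℝ) / t ≤ T ^ (-(1 / 8) : ℝ) := by
    calc (N : ℝ) ^ (1 / 2 : ℝ) / t ≤ (T ^ (3 / 2 : ℝ)) ^ (1 / 2 : ℝ) / T ^ (7 / 8 : ℝ) := by
          gcongr
      _ = T ^ (-(1 / 8) : ℝ) := by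
          rw [← Real.rpow_mul hT0.le, ← Real.rpow_sub hT0]
          norm_num
  have a3 : 9 * t ^ 2 * (N : ℝ) ^ (-(3 / 2) : ℝ) ≤ 27 * T ^ (-(1 / 8) : ℝ) := by
    have e1 : (N : ℝ) ^ (-(3 / 2) : ℝ) ≤ 3 * T ^ (-(9 / 4) : ℝ) := by
      calc (N : ℝ) ^ (-(3 / 2) : ℝ) ≤ (T ^ (3 / 2 : ℝ) / 2) ^ (-(3 / 2) : ℝ) :=
            Real.rpow_le_rpow_of_nonpos (by positivity) hNlo (by norm_num)
        _ = 2 ^ (3 / 2 : ℝ) * T ^ (-(9 / 4) : ℝ) := by
            rw [Real.div_rpow (by positivity) (by norm_num), ← Real.rpow_mul hT0.le,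
              Real.rpow_neg (by norm_num : (0 : ℝ) ≤ 2)]
            norm_num
            ring
        _ ≤ 3 * T ^ (-(9 / 4) : ℝ) := by
            have e1 : (2 : ℝ) ^ (3 / 2 : ℝ) ≤ 3 := by
              have e2 : ((2 : ℝ) ^ (3 / 2 : ℝ)) ^ 2 = 8 := by
                rw [← Real.rpow_natCast, ← Real.rpow_mul (by norm_num)]
                norm_num
              nlinarith [Real.rpow_nonneg (by norm_num : (0 : ℝ) ≤ 2) (3 / 2)]
            gcongr
    calc 9 * t ^ 2 * (N : ℝ) ^ (-(3 / 2) : ℝ) ≤ 9 * T ^ 2 * (3 * T ^ (-(9 / 4) : ℝ)) := by gcongr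
      _ = 27 * (T ^ (2 : ℝ) * T ^ (-(9 / 4) : ℝ)) := by
          rw [Real.rpow_two]; ring
      _ = 27 * T ^ (-(1 / 4) : ℝ) := by
          rw [← Real.rpow_add hT0]; norm_num
      _ ≤ 27 * T ^ (-(1 / 8) : ℝ) := by
          have : T ^ (-(1 / 4) : ℝ) ≤ T ^ (-(1 / 8) : ℝ) :=
            Real.rpow_le_rpow_of_exponent_le hT (by norm_num)
          gcongr
  linarith

lemma mom_ge {β x T : ℝ} (hβ : 0 ≤ β) (hT : 0 < T) {ν : Measure ℝ} (hν : ν ≤ volume)
    {a b : ℝ} (hsupp : ∀ᵐ t ∂ν, t ∈ Icc a b) (ha : x ≤ a) (hb : b ≤ x + T) :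
    (∫ t : ℝ, ‖riemannZeta (1 / 2 + I * t)‖ ^ β ∂ν) / T ≤ mom β x T := by
  have hcont : Continuous (fun t : ℝ => ‖riemannZeta (1 / 2 + I * t)‖ ^ β) :=
    continuous_zeta.norm.rpow_const fun _ => Or.inr hβ
  have h1 : mom β x T = (∫ t in x..(x + T), ‖riemannZeta (1 / 2 + I * t)‖ ^ β) / T := by
    have h2 := intervalIntegral.integral_comp_mul_add (a := 0) (b := 1)
      (fun t : ℝ => ‖riemannZeta (1 / 2 + I * t)‖ ^ β) hT.ne' x
    simp only [mul_zero, zero_add, mul_one, smul_eq_mul] at h2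
    unfold mom
    rw [add_comm T x] at h2
    rw [div_eq_inv_mul (∫ t in x..(x + T), ‖riemannZeta (1 / 2 + I * t)‖ ^ β) T, ← h2]
    refine intervalIntegral.integral_congr fun u _ => ?_
    congr 3
    push_cast
    ring
  rw [h1]
  gcongr
  rw [intervalIntegral.integral_of_le (by linarith), ← integral_Icc_eq_integral_Ioc]
  have h3 : ∫ t : ℝ, ‖riemannZeta (1 / 2 + I * t)‖ ^ β ∂ν
      = ∫ t in Icc x (x + T), ‖riemannZeta (1 / 2 + I * t)‖ ^ β ∂ν := by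
    rw [Measure.restrict_eq_self_of_ae_mem]
    filter_upwards [hsupp] with t ht
    exact ⟨ha.trans ht.1, ht.2.trans hb⟩
  rw [h3]
  refine integral_mono_measure (Measure.restrict_mono_measure hν _)
    (Eventually.of_forall fun t => by positivity) ?_
  exact (hcont.continuousOn).integrableOn_compact isCompact_Icc

namespace Par

variable (P : Par)

/-- the short exponent -/
noncomputable def dl : ℝ := 1 / (64 * P.m * P.l)

/-- the support exponent -/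
noncomputable def dz : ℝ := 1 / (32 * P.m)

lemma m_one : (1 : ℝ) ≤ P.m := by exact_mod_cast P.m_pos

lemma l_one : (1 : ℝ) ≤ P.l := by
  have := P.l_pos
  exact_mod_cast (by omega : 1 ≤ P.l)

lemma dz_pos : 0 < P.dz := by have := P.m_one; unfold dz; positivity

lemma dz_le : P.dz ≤ 1 / 32 := by
  have := P.m_one
  unfold dz
  rw [div_le_div_iff₀ (by positivity) (by norm_num)]
  linarith

lemma dl_pos : 0 < P.dl := by have := P.m_one; have := P.l_one; unfold dl; positivity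

lemma two_l_dl : 2 * P.l * P.dl = P.dz := by
  have := P.m_one; have := P.l_one
  unfold dl dz
  field_simp
  norm_num

lemma two_ml_dl : 2 * P.m * P.l * P.dl = 1 / 32 := by
  have := P.m_one; have := P.l_one
  unfold dl
  field_simp
  norm_num

lemma k_dl : 2 * P.k * P.dl ≤ 1 / 32 := by
  have h1 := P.m_one; have h2 := P.l_one
  have h3 := P.k_ge
  have h4 := P.hl1
  have h5 : P.k ≤ P.m * P.l := by nlinarith
  calc 2 * P.k * P.dl ≤ 2 * (P.m * P.l) * P.dl := by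
        have := P.dl_pos
        gcongr
    _ = 1 / 32 := by rw [← P.two_ml_dl]; ring

/-- finite form: explicit hypotheses on `T` -/
theorem finite_T {x T ε : ℝ} {r p0 : ℕ} (hp0 : 1 ≤ p0) (hp0k : P.k ^ 4 ≤ p0)
    (hε : 0 < ε) (hε' : ε ≤ 1 / 10)
    (hr : 1280 * P.m ≤ r)
    (E0 : 1 ≤ T) (E1 : 1 ≤ P.dl * Real.log T) (E2 : 2 ≤ T ^ P.dz)
    (E3 : T * Real.exp (-(P.a / 10)) ≤ T - 2 * |x| - r * T ^ (1 - P.dz) - T ^ (7 / 8 : ℝ))
    (E4 : (4 : ℝ) ^ r ≤ T ^ (20 : ℝ)) (hr2 : r ≤ 1280 * P.m)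
    (E5 : Real.exp (2 * P.a) * T ^ (-(15 : ℝ)) ≤ ε)
    (E6 : 900 * Real.exp (2 * P.a) * T ^ (-(3 / 16) : ℝ) ≤ ε ^ 2)
    (E7 : Real.exp (2 * P.k + 1) * T ^ (-(15 : ℝ)) ≤ 1) :
    Real.exp (-(P.a / 10)) * ((1 - 5 * P.dz) * Real.log T * (1 - 7 * ε)) ^ P.k
        * Real.exp (P.k * P.a * (Real.log (P.dl * Real.log T) - 2 - Real.log p0) - (31 / 10) * P.a)
      ≤ mom (2 * P.k) x T := by
  have ha := P.ha
  have hk0 := P.k_pos
  have hk1 := P.k_ge
  have hk := P.hk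
  have hm := P.m_one
  have hl := P.l_one
  have hdl := P.dl_pos
  have hdz := P.dz_pos
  have hdz2 := P.dz_le
  have hT0 : 0 < T := by linarith
  have hLt : 0 ≤ Real.log T := Real.log_nonneg E0
  set Y := P.dl * Real.log T with hYdef
  have hY0 : 0 < Y := by linarith
  set h := T ^ (1 - P.dz) with hh
  have hh0 : 0 < h := by positivity
  set a' := |x| + T ^ (7 / 8 : ℝ) with ha'
  set b' := T - |x| - r * h with hb'
  have hW : b' - a' = T - 2 * |x| - r * T ^ (1 - P.dz) - T ^ (7 / 8 : ℝ) := by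
    rw [hb', ha', hh]; ring
  have hWT : T * Real.exp (-(P.a / 10)) ≤ b' - a' := by rw [hW]; exact E3
  have hW0 : 0 < b' - a' := lt_of_lt_of_le (by positivity) hWT
  set ν := nu a' b' h r with hν
  have hνfin : IsFiniteMeasure ν := nu_finite a' b' hh0 r
  have hνW : ν.real univ = b' - a' := nu_real_univ hh0 (by linarith) r
  set Lam := Real.log T / 32 with hLam
  have hexpLam : Real.exp Lam = T ^ (1 / 32 : ℝ) := by
    rw [hLam, Real.rpow_def_of_pos hT0]; congr 1; ring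
  have hexpz : Real.exp (2 * P.l * Y) = T ^ P.dz := by
    rw [hYdef, Real.rpow_def_of_pos hT0, ← P.two_l_dl]; congr 1; ring
  set X := ⌊T ^ (1 - 2 * P.dz)⌋₊ with hX
  set N := ⌊T ^ (3 / 2 : ℝ)⌋₊ with hN
  set z := ⌊T ^ P.dz⌋₊ with hz
  set J := ⌈Y⌉₊ + 1 with hJ
  have hXone : 1 ≤ T ^ (1 - 2 * P.dz) := Real.one_le_rpow E0 (by linarith)
  have hX1 : 1 ≤ X := Nat.one_le_iff_ne_zero.mpr (Nat.floor_pos.mpr hXone).ne'
  have hXhi : (X : ℝ) ≤ T ^ (1 - 2 * P.dz) := Nat.floor_le (by positivity)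
  have hXN : X ≤ N := Nat.floor_le_floor (Real.rpow_le_rpow_of_exponent_le E0 (by linarith))
  have hzhi : (z : ℝ) ≤ T ^ P.dz := Nat.floor_le (by positivity)
  -- the decay rate
  set q := (4 * T ^ (-P.dz)) ^ r with hq
  have hq0 : 0 ≤ q := by positivity
  have hq20 : q ≤ T ^ (-(20 : ℝ)) := by
    have e1 : q = (4 : ℝ) ^ r * T ^ (-(40 : ℝ)) := by
      rw [hq, mul_pow]
      congr 1
      rw [← Real.rpow_natCast, ← Real.rpow_mul hT0.le]
      congr 1
      have e2 : r = 1280 * P.m := le_antisymm hr2 hr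
      rw [e2]
      unfold dz
      push_cast
      field_simp
      norm_num
    calc q = (4 : ℝ) ^ r * T ^ (-(40 : ℝ)) := e1
      _ ≤ T ^ (20 : ℝ) * T ^ (-(40 : ℝ)) := by gcongr
      _ = T ^ (-(20 : ℝ)) := by rw [← Real.rpow_add hT0]; norm_num
  have hρ : ∀ a b : ℕ, 1 ≤ a → 1 ≤ b → (b ≤ X ∨ b ≤ ⌊Real.exp Lam⌋₊) → a ≠ b →
      ‖charFun ν (Real.log b - Real.log a)‖ ≤ (b' - a') * q := by
    intro a b ha1 hb1 hb hab
    have hb0 : (0 : ℝ) < b := by exact_mod_cast hb1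
    have hbX : (b : ℝ) ≤ T ^ (1 - 2 * P.dz) := by
      rcases hb with hb | hb
      · exact le_trans (by exact_mod_cast hb) hXhi
      · have e1 : (b : ℝ) ≤ T ^ (1 / 32 : ℝ) := by
          rw [← hexpLam]
          exact le_trans (by exact_mod_cast hb) (Nat.floor_le (Real.exp_pos _).le)
        refine e1.trans (Real.rpow_le_rpow_of_exponent_le E0 (by linarith))
    have hξ := abs_log_sub_ge ha1 hb1 hab
    have hξ0 : Real.log b - Real.log a ≠ 0 := by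
      intro e
      rw [e, abs_zero] at hξ
      have : 0 < 1 / (2 * (b : ℝ)) := by positivity
      linarith
    refine (charFun_nu_norm hh0 (by linarith) hξ0 r).trans ?_
    have hξpos : 0 < |Real.log b - Real.log a| := abs_pos.mpr hξ0
    rw [hq]
    gcongr
    rw [div_le_iff₀ (by positivity)]
    have e1 : T ^ (-P.dz) * h = T ^ (1 - 2 * P.dz) := by
      rw [hh, ← Real.rpow_add hT0]; congr 1; ring
    calc (2 : ℝ) = 4 * b * (1 / (2 * b)) := by field_simp; norm_num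
      _ ≤ 4 * T ^ (1 - 2 * P.dz) * |Real.log b - Real.log a| := by gcongr
      _ = 4 * T ^ (-P.dz) * (h * |Real.log b - Real.log a|) := by rw [← e1]; ring
  -- sizes of the polynomial
  have hzlt : Real.exp (2 * P.l * Y) < z + 1 := by rw [hexpz]; exact Nat.lt_floor_add_one _
  have hAc := P.cone_A hY0 p0 J hzlt
  set A := P.A (sc Y p0) J with hA
  have hevA0 : 0 ≤ evh A := by
    rw [evh_apply]
    exact pair_nonneg hAc fun a _ => by positivity
  have hadl : 2 * P.a * P.dl ≤ 1 / 32 := by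
    have e1 := P.k_dl
    have e2 : P.a ≤ P.k := by linarith
    calc 2 * P.a * P.dl ≤ 2 * P.k * P.dl := by gcongr
      _ ≤ _ := e1
  have hevA2 : evh A ^ 2 ≤ Real.exp (2 * P.a) * T ^ (1 / 16 : ℝ) := by
    have e1 := evh_le hAc
    have e2 := P.ev1_A_le hY0 p0 J
    rw [← hA] at e2
    have e3 : 0 ≤ ev1 A := by
      rw [ev1_apply]
      exact pair_nonneg hAc fun a _ => by positivity
    have e4 : Real.exp (P.a * (1 + Y)) ^ 2 = Real.exp (2 * P.a) * T ^ (2 * P.a * P.dl) := by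
      rw [← Real.exp_nat_mul, Real.rpow_def_of_pos hT0, ← Real.exp_add]
      congr 1
      rw [hYdef]
      push_cast
      ring
    calc evh A ^ 2 ≤ z * ev1 A ^ 2 := e1
      _ ≤ T ^ P.dz * Real.exp (P.a * (1 + Y)) ^ 2 := by gcongr
      _ = Real.exp (2 * P.a) * (T ^ P.dz * T ^ (2 * P.a * P.dl)) := by rw [e4]; ring
      _ = Real.exp (2 * P.a) * T ^ (P.dz + 2 * P.a * P.dl) := by rw [← Real.rpow_add hT0]
      _ ≤ Real.exp (2 * P.a) * T ^ (1 / 16 : ℝ) := by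
          have : T ^ (P.dz + 2 * P.a * P.dl) ≤ T ^ (1 / 16 : ℝ) :=
            Real.rpow_le_rpow_of_exponent_le E0 (by linarith)
          gcongr
  have hevZ : evh (ZP N) ≤ T ^ (3 / 2 : ℝ) := by
    have e1 : evh (ZP N) ≤ N := by
      rw [ZP, map_sum]
      calc ∑ n ∈ Finset.Icc 1 N, evh (MonoidAlgebra.single n 1)
          ≤ ∑ n ∈ Finset.Icc 1 N, (1 : ℝ) := by
            refine Finset.sum_le_sum fun n hn => ?_
            rw [Finset.mem_Icc] at hn
            rw [evh_apply, pair_single, one_mul]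
            exact Real.rpow_le_one_of_one_le_of_nonpos (by exact_mod_cast hn.1) (by norm_num)
        _ = N := by simp
    exact e1.trans (Nat.floor_le (by positivity))
  have hevZ0 : 0 ≤ evh (ZP N) := by
    rw [evh_apply]
    exact pair_nonneg (cone_ZP N) fun a _ => by positivity
  have hζ : ∀ᵐ t : ℝ ∂ν, ‖riemannZeta (1 / 2 + I * t) - ev t (ZP N)‖ ≤ 30 * T ^ (-(1 / 8) : ℝ) := by
    filter_upwards [nu_ae (a := a') (b := b') hh0 r] with t ht
    refine zeta_approx_T E0 ?_ ?_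
    · have := ht.1
      rw [ha'] at this
      linarith [abs_nonneg x]
    · have := ht.2
      rw [hb'] at this
      linarith [abs_nonneg x]
  have hh1 : (b' - a') * q * evh (ZP N * A) ^ 2 ≤ ε * (b' - a') := by
    rw [map_mul, mul_pow]
    have e1 : evh (ZP N) ^ 2 ≤ T ^ (3 : ℝ) := by
      calc evh (ZP N) ^ 2 ≤ (T ^ (3 / 2 : ℝ)) ^ 2 := by gcongr
        _ = T ^ (3 : ℝ) := by
            rw [← Real.rpow_natCast, ← Real.rpow_mul hT0.le]; norm_num
    have e2 : q * (evh (ZP N) ^ 2 * evh A ^ 2) ≤ ε := by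
      calc q * (evh (ZP N) ^ 2 * evh A ^ 2)
          ≤ T ^ (-(20 : ℝ)) * (T ^ (3 : ℝ) * (Real.exp (2 * P.a) * T ^ (1 / 16 : ℝ))) := by gcongr
        _ = Real.exp (2 * P.a) * (T ^ (-(20 : ℝ)) * T ^ (3 : ℝ) * T ^ (1 / 16 : ℝ)) := by ring
        _ = Real.exp (2 * P.a) * T ^ (-(20 : ℝ) + 3 + 1 / 16) := by
            rw [← Real.rpow_add hT0, ← Real.rpow_add hT0]
        _ ≤ Real.exp (2 * P.a) * T ^ (-(15 : ℝ)) := by
            have : T ^ (-(20 : ℝ) + 3 + 1 / 16) ≤ T ^ (-(15 : ℝ)) :=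
              Real.rpow_le_rpow_of_exponent_le E0 (by norm_num)
            gcongr
        _ ≤ ε := E5
    calc (b' - a') * q * (evh (ZP N) ^ 2 * evh A ^ 2)
        = (b' - a') * (q * (evh (ZP N) ^ 2 * evh A ^ 2)) := by ring
      _ ≤ (b' - a') * ε := by gcongr
      _ = _ := by ring
  have hh2 : 30 * T ^ (-(1 / 8) : ℝ) * evh A ≤ ε := by
    refine abs_le_of_sq_le_sq' ?_ hε.le |>.2
    calc (30 * T ^ (-(1 / 8) : ℝ) * evh A) ^ 2
        = 900 * (T ^ (-(1 / 8) : ℝ)) ^ 2 * evh A ^ 2 := by ring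
      _ ≤ 900 * (T ^ (-(1 / 8) : ℝ)) ^ 2 * (Real.exp (2 * P.a) * T ^ (1 / 16 : ℝ)) := by gcongr
      _ = 900 * Real.exp (2 * P.a) * ((T ^ (-(1 / 8) : ℝ)) ^ 2 * T ^ (1 / 16 : ℝ)) := by ring
      _ = 900 * Real.exp (2 * P.a) * T ^ (-(3 / 16) : ℝ) := by
          rw [← Real.rpow_natCast, ← Real.rpow_mul hT0.le, ← Real.rpow_add hT0]
          norm_num
      _ ≤ ε ^ 2 := E6
  have hh3 : (b' - a') * q * ⌊Real.exp Lam⌋₊ * Real.exp (2 * P.k * (1 + Y) + 1) ≤ b' - a' := by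
    have e1 : Real.exp (2 * P.k * (1 + Y) + 1) = Real.exp (2 * P.k + 1) * T ^ (2 * P.k * P.dl) := by
      rw [Real.rpow_def_of_pos hT0, ← Real.exp_add]
      congr 1
      rw [hYdef]
      ring
    have e2 : (⌊Real.exp Lam⌋₊ : ℝ) ≤ T ^ (1 / 32 : ℝ) := by
      rw [← hexpLam]
      exact Nat.floor_le (Real.exp_pos _).le
    have e3 : q * ⌊Real.exp Lam⌋₊ * Real.exp (2 * P.k * (1 + Y) + 1) ≤ 1 := by
      calc q * ⌊Real.exp Lam⌋₊ * Real.exp (2 * P.k * (1 + Y) + 1)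
          ≤ T ^ (-(20 : ℝ)) * T ^ (1 / 32 : ℝ) * (Real.exp (2 * P.k + 1) * T ^ (2 * P.k * P.dl)) := by
            rw [e1]; gcongr
        _ = Real.exp (2 * P.k + 1) * (T ^ (-(20 : ℝ)) * T ^ (1 / 32 : ℝ) * T ^ (2 * P.k * P.dl)) := by
            ring
        _ = Real.exp (2 * P.k + 1) * T ^ (-(20 : ℝ) + 1 / 32 + 2 * P.k * P.dl) := by
            rw [← Real.rpow_add hT0, ← Real.rpow_add hT0]
        _ ≤ Real.exp (2 * P.k + 1) * T ^ (-(15 : ℝ)) := by
            have e4 := P.k_dl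
            have : T ^ (-(20 : ℝ) + 1 / 32 + 2 * P.k * P.dl) ≤ T ^ (-(15 : ℝ)) :=
              Real.rpow_le_rpow_of_exponent_le E0 (by linarith)
            gcongr
        _ ≤ 1 := E7
    calc (b' - a') * q * ⌊Real.exp Lam⌋₊ * Real.exp (2 * P.k * (1 + Y) + 1)
        = (b' - a') * (q * ⌊Real.exp Lam⌋₊ * Real.exp (2 * P.k * (1 + Y) + 1)) := by ring
      _ ≤ (b' - a') * 1 := by gcongr
      _ = _ := by ring
  -- the logarithm
  have hlog : (1 - 5 * P.dz) * Real.log T ≤ Real.log ((X : ℝ) / (z : ℝ) ^ 2) := by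
    have hz1 : (1 : ℝ) ≤ z := by
      have : 1 ≤ z := Nat.one_le_iff_ne_zero.mpr (Nat.floor_pos.mpr (by linarith)).ne'
      exact_mod_cast this
    have e1 : T ^ (1 - 5 * P.dz) ≤ (X : ℝ) / (z : ℝ) ^ 2 := by
      rw [le_div_iff₀ (by positivity)]
      have e2 : T ^ (1 - 2 * P.dz) / 2 ≤ X := floor_half hXone
      have e3 : (z : ℝ) ^ 2 ≤ T ^ (2 * P.dz) := by
        calc (z : ℝ) ^ 2 ≤ (T ^ P.dz) ^ 2 := by gcongr
          _ = T ^ (2 * P.dz) := by
              rw [← Real.rpow_natCast, ← Real.rpow_mul hT0.le]; congr 1; push_cast; ring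
      calc T ^ (1 - 5 * P.dz) * (z : ℝ) ^ 2 ≤ T ^ (1 - 5 * P.dz) * T ^ (2 * P.dz) := by gcongr
        _ = T ^ (1 - 2 * P.dz) * T ^ (-P.dz) := by
            rw [← Real.rpow_add hT0, ← Real.rpow_add hT0]; congr 1; ring
        _ ≤ T ^ (1 - 2 * P.dz) * (1 / 2) := by
            have : T ^ (-P.dz) ≤ 1 / 2 := by
              rw [Real.rpow_neg hT0.le, one_div]
              exact inv_anti₀ (by norm_num) E2
            gcongr
        _ ≤ X := by linarith
    calc (1 - 5 * P.dz) * Real.log T = Real.log (T ^ (1 - 5 * P.dz)) := by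
          rw [Real.log_rpow hT0]
      _ ≤ _ := Real.log_le_log (by positivity) e1
  have h5dz : 0 ≤ 1 - 5 * P.dz := by linarith
  have hlog0 : 0 ≤ Real.log ((X : ℝ) / (z : ℝ) ^ 2) := le_trans (by positivity) hlog
  have hmom := P.moment (ν := ν) (ρ := (b' - a') * q) (ε := ε) (J := J) (z := z) (X := X)
    (by linarith : 1 ≤ Y) hp0 hp0k
    (by rw [hYdef, hLam, ← mul_assoc, P.two_ml_dl]; linarith : 2 * P.m * P.l * Y ≤ Lam)
    hρ (by positivity) hzlt hX1 hXN hζ (by positivity) hε.le hε' (by rw [hνW]; exact hh1)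
    hh2 (by rw [hνW]; exact hh3) (by rw [hνW]; exact hW0) hlog0
  rw [hνW] at hmom
  -- the sum over primes
  have hJ' : Y / 4 ^ J < Real.log 2 := by
    have e1 : Y < 4 ^ ⌈Y⌉₊ := by
      calc Y ≤ ⌈Y⌉₊ := Nat.le_ceil Y
        _ < 4 ^ ⌈Y⌉₊ := by exact_mod_cast Nat.lt_pow_self (by norm_num)
    have e2 : Y / 4 ^ J < 1 / 4 := by
      rw [hJ, pow_succ, div_lt_div_iff₀ (by positivity) (by norm_num)]
      linarith
    linarith [Real.log_two_gt_d9]
  have hV := sum_VV_ge (by linarith : 1 ≤ Y) hp0 hJ'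
  have h7 : 0 ≤ 1 - 7 * ε := by linarith
  -- integrals
  have hint := mom_ge (β := 2 * P.k) (x := x) (T := T) (by positivity) hT0 (ν := ν) (nu_le hh0 r)
    (nu_ae hh0 r) (by rw [ha']; linarith [le_abs_self x, Real.rpow_nonneg hT0.le (7 / 8)])
    (by rw [hb', hh]; linarith [neg_abs_le x])
  refine le_trans ?_ hint
  rw [le_div_iff₀ hT0]
  refine le_trans ?_ hmom
  calc Real.exp (-(P.a / 10)) * ((1 - 5 * P.dz) * Real.log T * (1 - 7 * ε)) ^ P.k
        * Real.exp (P.k * P.a * (Real.log Y - 2 - Real.log p0) - (31 / 10) * P.a) * T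
      = (T * Real.exp (-(P.a / 10))) * ((1 - 5 * P.dz) * Real.log T * (1 - 7 * ε)) ^ P.k
        * Real.exp (P.k * P.a * (Real.log Y - 2 - Real.log p0) - (31 / 10) * P.a) := by ring
    _ ≤ _ := by gcongr

end Par

end Pool.Agent.Lib.MP_f9aece_nt
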