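import Mathlib
import Pool.Agent.Lib.MP_f9aece_nt.Assemble

/-!
# Lower bounds for moments of zeta on the critical line with explicit constants, sharp at `β = 2+`

For `β > 2` and every real `x` the moment `∫₀¹ |ζ(1/2 + ix + iuT)|^β du` is eventually at least
`exp(-6 β (β - 2) log(β + 1/(β - 2))) (log T)^(β²/4)`.  The constant tends to `1 = c(2)` as `β`
decreases to `2`.
-/

set_option autoImplicit false

namespace Pool.Agent.Lib.MP_f9aece_nt

open Filter Topology Set Complex MeasureTheory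

lemma le_one_sub {y : ℝ} (hy0 : 0 ≤ y) (hy : y ≤ 1 / 2) : Real.exp (-(2 * y)) ≤ 1 - y := by
  have h := inv_one_sub_le hy0 hy
  calc Real.exp (-(2 * y)) = Real.exp (-(2 * y)) * 1 := by ring
    _ ≤ Real.exp (-(2 * y)) * (Real.exp (2 * y) * (1 - y)) := by gcongr
    _ = 1 - y := by
        rw [← mul_assoc, ← Real.exp_add]
        have : -(2 * y) + 2 * y = 0 := by ring
        rw [this, Real.exp_zero, one_mul]

lemma exp_six : Real.exp (28 / 5) ≤ 404 := by
  have h1 : Real.exp 1 < 2.7182818286 := Real.exp_one_lt_d9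
  have h2 : Real.exp 6 = Real.exp 1 ^ 6 := by rw [← Real.exp_nat_mul]; norm_num
  calc Real.exp (28 / 5) ≤ Real.exp 6 := Real.exp_le_exp.mpr (by norm_num)
    _ = Real.exp 1 ^ 6 := h2
    _ ≤ 2.7182818286 ^ 6 := by gcongr
    _ ≤ 404 := by norm_num

/-- numerical comparison of constants -/
lemma num_bound {B c m l p : ℝ} (hB : 4 ≤ B) (hc0 : 0 < c) (hc : c ≤ B) (hm0 : 0 < m)
    (hm : m ≤ 2 * B) (hl : l = 16000 * c ^ 2 + m + 20) (hp : p = c ^ 4) :
    28 / 5 + Real.log p + Real.log (64 * m * l) ≤ 24 * Real.log B := by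
  have hB0 : 0 < B := by linarith
  have hl0 : 0 < l := by rw [hl]; positivity
  have hlB : l ≤ 16020 * B ^ 2 := by
    rw [hl]
    have h1 : c ^ 2 ≤ B ^ 2 := by gcongr
    nlinarith
  have hpB : p ≤ B ^ 4 := by rw [hp]; gcongr
  have hp0 : 0 < p := by rw [hp]; positivity
  have h1 : 28 / 5 + Real.log p + Real.log (64 * m * l)
      = Real.log (Real.exp (28 / 5) * p * (64 * m * l)) := by
    rw [Real.log_mul (x := Real.exp (28 / 5) * p) (by positivity) (by positivity),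
      Real.log_mul (x := Real.exp (28 / 5)) (by positivity) (by positivity), Real.log_exp]
  have h2 : 24 * Real.log B = Real.log (B ^ 24) := by rw [Real.log_pow]; norm_num
  rw [h1, h2]
  apply Real.log_le_log (by positivity)
  calc Real.exp (28 / 5) * p * (64 * m * l)
      ≤ 404 * B ^ 4 * (64 * (2 * B) * (16020 * B ^ 2)) := by
        gcongr
        exact exp_six
    _ = 828426240 * B ^ 7 := by ring
    _ ≤ 4 ^ 17 * B ^ 7 := by gcongr; norm_num
    _ ≤ B ^ 17 * B ^ 7 := by gcongr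
    _ = B ^ 24 := by ring

/-- the parameters attached to an exponent -/
noncomputable def par (β : ℝ) (hβ : 2 < β) : Par where
  k := β / 2
  a := β / 2 - 1
  m := ⌈(β / 2) / (β / 2 - 1)⌉₊
  l := 16000 * ⌈β / 2⌉₊ ^ 2 + ⌈(β / 2) / (β / 2 - 1)⌉₊ + 20
  ha := by linarith
  hk := by ring
  hm1 := by
    have h1 : 0 < β / 2 - 1 := by linarith
    have h2 := Nat.le_ceil ((β / 2) / (β / 2 - 1))
    rw [div_le_iff₀ h1] at h2
    linarith
  hm2 := by
    have h1 : 0 < β / 2 - 1 := by linarith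
    have h2 := (Nat.ceil_lt_add_one (a := (β / 2) / (β / 2 - 1)) (by positivity)).le
    calc (β / 2 - 1) * (⌈(β / 2) / (β / 2 - 1)⌉₊ : ℝ)
        ≤ (β / 2 - 1) * ((β / 2) / (β / 2 - 1) + 1) := by gcongr
      _ = β / 2 + (β / 2 - 1) := by rw [mul_add, mul_div_cancel₀ _ h1.ne', mul_one]
  hl1 := by
    push_cast
    have h2 := Nat.le_ceil (β / 2)
    have h3 : (β / 2) ^ 2 ≤ (⌈β / 2⌉₊ : ℝ) ^ 2 := by gcongr
    have h4 : (0 : ℝ) ≤ (⌈(β / 2) / (β / 2 - 1)⌉₊ : ℝ) := Nat.cast_nonneg _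
    linarith
  hl2 := by omega

theorem lower (β : ℝ) (hβ : 2 < β) (x : ℝ) :
    ∀ᶠ T in atTop, Real.exp (-(6 * β * (β - 2) * Real.log (β + 1 / (β - 2))))
      * Real.log T ^ (β ^ 2 / 4) ≤ mom β x T := by
  set P := par β hβ with hP
  have hk : P.k = β / 2 := rfl
  have ha : P.a = β / 2 - 1 := rfl
  have hm : P.m = ⌈(β / 2) / (β / 2 - 1)⌉₊ := rfl
  have hl : P.l = 16000 * ⌈β / 2⌉₊ ^ 2 + ⌈(β / 2) / (β / 2 - 1)⌉₊ + 20 := rfl
  have ha0 : 0 < P.a := P.ha
  have hk0 := P.k_pos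
  have hk1 := P.k_ge
  have hdl := P.dl_pos
  have hdz := P.dz_pos
  have hdz2 := P.dz_le
  set p0 : ℕ := ⌈β / 2⌉₊ ^ 4 with hp0
  set B : ℝ := β + 1 / (β - 2) with hB
  have hβ2 : 0 < β - 2 := by linarith
  have hB4 : 4 ≤ B := by
    have h1 : β - 2 + 1 / (β - 2) ≥ 2 := by
      have : (β - 2) * (1 / (β - 2)) = 1 := by field_simp
      have h2 : 0 < 1 / (β - 2) := by positivity
      nlinarith [sq_nonneg (β - 2 - 1 / (β - 2))]
    rw [hB]; linarith
  have hc1 : (β / 2 : ℝ) ≤ ⌈β / 2⌉₊ := Nat.le_ceil _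
  have hc0 : (0 : ℝ) < ⌈β / 2⌉₊ := by linarith
  have hcB : (⌈β / 2⌉₊ : ℝ) ≤ B := by
    have h1 := (Nat.ceil_lt_add_one (a := β / 2) (by positivity)).le
    have h2 : 0 < 1 / (β - 2) := by positivity
    rw [hB]; linarith
  have hm0 : (0 : ℝ) < P.m := by have := P.m_one; linarith
  have hmB : (P.m : ℝ) ≤ 2 * B := by
    rw [hm]
    have h1 := (Nat.ceil_lt_add_one (a := (β / 2) / (β / 2 - 1)) (by positivity)).le
    have h2 : (β / 2) / (β / 2 - 1) = 1 + 2 / (β - 2) := by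
      have : β / 2 - 1 ≠ 0 := by linarith
      have : β - 2 ≠ 0 := by linarith
      field_simp
      ring
    have h3 : 2 / (β - 2) = 2 * (1 / (β - 2)) := by ring
    rw [hB]; linarith
  have hp01 : 1 ≤ p0 := by
    rw [hp0]
    apply Nat.one_le_pow
    exact Nat.ceil_pos.mpr (by linarith)
  have hp0k : P.k ^ 4 ≤ (p0 : ℝ) := by
    rw [hp0, hk]
    push_cast
    gcongr
  have hnum := num_bound (B := B) (c := ⌈β / 2⌉₊) (m := P.m) (l := P.l) (p := p0) hB4 hc0 hcB hm0 hmB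
    (by rw [hl, hm]; push_cast; ring) (by rw [hp0]; push_cast; ring)
  set ε : ℝ := P.a / (200 * P.k) with hε
  have hak : P.a ≤ P.k := by rw [ha, hk]; linarith
  have hε0 : 0 < ε := by positivity
  have hε1 : ε ≤ 1 / 200 := by
    rw [hε, div_le_div_iff₀ (by positivity) (by norm_num)]
    linarith
  have hεk : ε * P.k = P.a / 200 := by rw [hε]; field_simp
  set r : ℕ := 1280 * P.m with hr
  -- eventual conditions
  have E0 : ∀ᶠ T : ℝ in atTop, 1 ≤ T := eventually_ge_atTop 1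
  have E1 : ∀ᶠ T : ℝ in atTop, 1 ≤ P.dl * Real.log T :=
    (Tendsto.const_mul_atTop hdl Real.tendsto_log_atTop).eventually_ge_atTop 1
  have E2 : ∀ᶠ T : ℝ in atTop, 2 ≤ T ^ P.dz := (tendsto_rpow_atTop hdz).eventually_ge_atTop 2
  have E4 : ∀ᶠ T : ℝ in atTop, (4 : ℝ) ^ r ≤ T ^ (20 : ℝ) :=
    (tendsto_rpow_atTop (by norm_num)).eventually_ge_atTop _
  have lim : ∀ c y : ℝ, 0 < y → Tendsto (fun T : ℝ => c * T ^ (-y)) atTop (𝓝 0) := by
    intro c y hy
    have := (tendsto_rpow_neg_atTop hy).const_mul c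
    simpa using this
  have E5 : ∀ᶠ T : ℝ in atTop, Real.exp (2 * P.a) * T ^ (-(15 : ℝ)) ≤ ε :=
    ((lim _ 15 (by norm_num)).eventually_lt_const hε0).mono fun _ h => h.le
  have E6 : ∀ᶠ T : ℝ in atTop, 900 * Real.exp (2 * P.a) * T ^ (-(3 / 16) : ℝ) ≤ ε ^ 2 :=
    ((lim _ (3 / 16) (by norm_num)).eventually_lt_const (by positivity)).mono fun _ h => h.le
  have E7 : ∀ᶠ T : ℝ in atTop, Real.exp (2 * P.k + 1) * T ^ (-(15 : ℝ)) ≤ 1 :=
    ((lim _ 15 (by norm_num)).eventually_lt_const one_pos).mono fun _ h => h.le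
  have E3 : ∀ᶠ T : ℝ in atTop, T * Real.exp (-(P.a / 10))
      ≤ T - 2 * |x| - r * T ^ (1 - P.dz) - T ^ (7 / 8 : ℝ) := by
    have h1 : Real.exp (-(P.a / 10)) < 1 := by
      rw [Real.exp_lt_one_iff]; linarith
    have t1 := lim (2 * |x|) 1 one_pos
    have t2 := lim (r : ℝ) P.dz hdz
    have t3 := lim 1 (1 / 8) (by norm_num)
    have t4 : Tendsto (fun T : ℝ => 1 - 2 * |x| * T ^ (-(1 : ℝ)) - r * T ^ (-P.dz)
        - 1 * T ^ (-(1 / 8) : ℝ)) atTop (𝓝 (1 - 0 - 0 - 0)) :=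
      (((tendsto_const_nhds).sub t1).sub t2).sub t3
    have t5 := t4.eventually_const_lt (by simpa using h1 : Real.exp (-(P.a / 10)) < 1 - 0 - 0 - 0)
    filter_upwards [t5, eventually_gt_atTop 0] with T hT hT0
    have e1 : T * T ^ (-(1 : ℝ)) = 1 := by
      rw [Real.rpow_neg_one]; field_simp
    have e2 : T * T ^ (-P.dz) = T ^ (1 - P.dz) := by
      nth_rw 1 [← Real.rpow_one T]
      rw [← Real.rpow_add hT0]; congr 1
    have e3 : T * T ^ (-(1 / 8) : ℝ) = T ^ (7 / 8 : ℝ) := by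
      nth_rw 1 [← Real.rpow_one T]
      rw [← Real.rpow_add hT0]; norm_num
    calc T * Real.exp (-(P.a / 10))
        ≤ T * (1 - 2 * |x| * T ^ (-(1 : ℝ)) - r * T ^ (-P.dz) - 1 * T ^ (-(1 / 8) : ℝ)) := by
          gcongr
      _ = T - 2 * |x| * (T * T ^ (-(1 : ℝ))) - r * (T * T ^ (-P.dz)) - T * T ^ (-(1 / 8) : ℝ) := by
          ring
      _ = _ := by rw [e1, e2, e3]; ring
  filter_upwards [E0, E1, E2, E3, E4, E5, E6, E7] with T e0 e1 e2 e3 e4 e5 e6 e7
  have hT0 : 0 < T := by linarith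
  have hmain := P.finite_T (x := x) hp01 hp0k hε0 (by linarith) (le_refl r) e0 e1 e2 e3 e4
    (le_refl r) e5 e6 e7
  have hmom : mom (2 * P.k) x T = mom β x T := by
    have : 2 * P.k = β := by rw [hk]; ring
    rw [this]
  rw [hmom] at hmain
  refine le_trans ?_ hmain
  have hLt : 0 < Real.log T := by
    by_contra h
    have : P.dl * Real.log T ≤ 0 := mul_nonpos_of_nonneg_of_nonpos hdl.le (not_lt.mp h)
    linarith
  set Lt := Real.log T with hLtdef
  have s1 : Real.exp (-(10 * P.dz + 14 * ε)) * Lt ≤ (1 - 5 * P.dz) * Lt * (1 - 7 * ε) := by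
    have q1 := le_one_sub (y := 5 * P.dz) (by positivity) (by linarith)
    have q2 := le_one_sub (y := 7 * ε) (by positivity) (by linarith)
    calc Real.exp (-(10 * P.dz + 14 * ε)) * Lt
        = Real.exp (-(2 * (5 * P.dz))) * Lt * Real.exp (-(2 * (7 * ε))) := by
          have : -(10 * P.dz + 14 * ε) = -(2 * (5 * P.dz)) + -(2 * (7 * ε)) := by ring
          rw [this, Real.exp_add]; ring
      _ ≤ (1 - 5 * P.dz) * Lt * (1 - 7 * ε) := by
          have q3 : 0 ≤ 1 - 5 * P.dz := by linarith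
          have q4 : 0 ≤ (1 - 5 * P.dz) * Lt := by positivity
          gcongr
  have s2 : Real.exp (-((10 * P.dz + 14 * ε) * P.k)) * Lt ^ P.k
      ≤ ((1 - 5 * P.dz) * Lt * (1 - 7 * ε)) ^ P.k := by
    calc Real.exp (-((10 * P.dz + 14 * ε) * P.k)) * Lt ^ P.k
        = (Real.exp (-(10 * P.dz + 14 * ε)) * Lt) ^ P.k := by
          rw [Real.mul_rpow (Real.exp_pos _).le hLt.le, ← Real.exp_mul]
          congr 2
          ring
      _ ≤ _ := Real.rpow_le_rpow (by positivity) s1 hk0.le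
  have s3 : Real.log (P.dl * Lt) = -Real.log (64 * P.m * P.l) + Real.log Lt := by
    have hl0 : (0 : ℝ) < P.l := by have := P.l_one; linarith
    rw [Real.log_mul hdl.ne' hLt.ne']
    congr 1
    have : P.dl = (64 * P.m * P.l : ℝ)⁻¹ := by unfold Par.dl; rw [one_div]
    rw [this, Real.log_inv]
  have s4 : Lt ^ (β ^ 2 / 4) = Lt ^ P.k * Real.exp (P.k * P.a * Real.log Lt) := by
    have : Real.exp (P.k * P.a * Real.log Lt) = Lt ^ (P.k * P.a) := by
      rw [Real.rpow_def_of_pos hLt]; congr 1; ring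
    rw [this, ← Real.rpow_add hLt]
    congr 1
    rw [hk, ha]; ring
  have s5 : 10 * P.dz * P.k ≤ 10 / 32 * P.a := by
    have h1 := P.hm1
    have : 10 * P.dz * P.k = 10 / 32 * (P.k / P.m) := by unfold Par.dz; field_simp
    rw [this]
    gcongr
    rw [div_le_iff₀ hm0]
    exact h1
  have s6 : 6 * β * (β - 2) * Real.log B = 24 * (P.k * P.a * Real.log B) := by
    rw [hk, ha]; ring
  have hka : 0 < P.k * P.a := by positivity
  have s7 : P.k * P.a * (28 / 5 + Real.log p0 + Real.log (64 * P.m * P.l))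
      ≤ P.k * P.a * (24 * Real.log B) := by gcongr
  have s8 : P.a ≤ P.k * P.a := by nlinarith
  calc Real.exp (-(6 * β * (β - 2) * Real.log B)) * Lt ^ (β ^ 2 / 4)
      ≤ Real.exp (-(P.a / 10) + -((10 * P.dz + 14 * ε) * P.k)
          + (P.k * P.a * (-Real.log (64 * P.m * P.l) - 2 - Real.log p0) - (31 / 10) * P.a))
          * (Lt ^ P.k * Real.exp (P.k * P.a * Real.log Lt)) := by
        rw [s4]
        gcongr
        rw [s6]
        have h14 : (10 * P.dz + 14 * ε) * P.k = 10 * P.dz * P.k + 14 * (ε * P.k) := by ring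
        rw [h14, hεk]
        nlinarith
    _ = Real.exp (-(P.a / 10)) * (Real.exp (-((10 * P.dz + 14 * ε) * P.k)) * Lt ^ P.k)
          * Real.exp (P.k * P.a * (Real.log (P.dl * Lt) - 2 - Real.log p0) - (31 / 10) * P.a) := by
        have h9 : P.k * P.a * (Real.log (P.dl * Lt) - 2 - Real.log p0) - (31 / 10) * P.a
            = (P.k * P.a * (-Real.log (64 * P.m * P.l) - 2 - Real.log p0) - (31 / 10) * P.a)
              + P.k * P.a * Real.log Lt := by rw [s3]; ring
        rw [h9, Real.exp_add, Real.exp_add, Real.exp_add]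
        ring
    _ ≤ _ := by gcongr

lemma limit_const :
    Tendsto (fun β : ℝ => Real.exp (-(6 * β * (β - 2) * Real.log (β + 1 / (β - 2)))))
      (𝓝[>] 2) (𝓝 1) := by
  have h1 : Tendsto (fun β : ℝ => β - 2) (𝓝[>] 2) (𝓝[>] 0) := by
    rw [tendsto_nhdsWithin_iff]
    refine ⟨?_, ?_⟩
    · have : Tendsto (fun β : ℝ => β - 2) (𝓝 2) (𝓝 (2 - 2)) := by
        exact (continuous_id.sub continuous_const).tendsto 2
      rw [sub_self] at this
      exact this.mono_left nhdsWithin_le_nhds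
    · filter_upwards [self_mem_nhdsWithin] with β hβ
      simpa using hβ
  have h2 : Tendsto (fun y : ℝ => y * Real.log y) (𝓝[>] 0) (𝓝 0) := by
    have := Real.continuous_mul_log.tendsto 0
    simp only [Real.log_zero, mul_zero] at this
    exact this.mono_left nhdsWithin_le_nhds
  have h3 : Tendsto (fun β : ℝ => (β - 2) * Real.log (β - 2)) (𝓝[>] 2) (𝓝 0) := h2.comp h1
  have h4 : Tendsto (fun β : ℝ => (β - 2) * Real.log (β * (β - 2) + 1)) (𝓝[>] 2) (𝓝 0) := by
    have h5 : ContinuousAt (fun β : ℝ => (β - 2) * Real.log (β * (β - 2) + 1)) 2 := by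
      refine ContinuousAt.mul (by fun_prop) (ContinuousAt.log (by fun_prop) (by norm_num))
    have h6 := h5.tendsto
    simp only [sub_self, zero_mul] at h6
    exact h6.mono_left nhdsWithin_le_nhds
  have h7 : Tendsto (fun β : ℝ => 6 * β) (𝓝[>] 2) (𝓝 (6 * 2)) :=
    ((continuous_const.mul continuous_id).tendsto 2).mono_left nhdsWithin_le_nhds
  have h8 : Tendsto (fun β : ℝ => -(6 * β * (β - 2) * Real.log (β + 1 / (β - 2)))) (𝓝[>] 2) (𝓝 0) := by
    have h9 := (h7.mul (h4.sub h3)).neg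
    simp only [sub_self, mul_zero, neg_zero] at h9
    refine h9.congr' ?_
    filter_upwards [self_mem_nhdsWithin] with β hβ
    have hβ2 : 0 < β - 2 := by
      have : (2 : ℝ) < β := hβ
      linarith
    have e : β + 1 / (β - 2) = (β * (β - 2) + 1) / (β - 2) := by field_simp
    rw [e, Real.log_div (by nlinarith) hβ2.ne']
    ring
  have := (Real.continuous_exp.tendsto 0).comp h8
  rw [Real.exp_zero] at this
  exact this

/-- Consequence: the lower constant tends to the conjectured one at two from the right. -/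
theorem sharp_at_two (ε : ℝ) (hε : 0 < ε) :
    ∃ β₀ : ℝ, 2 < β₀ ∧ ∀ β : ℝ, 2 < β → β < β₀ → ∀ x : ℝ, ∀ᶠ T in atTop,
      (1 - ε) * Real.log T ^ (β ^ 2 / 4) ≤ mom β x T := by
  have h1 := limit_const.eventually_const_lt (by linarith : 1 - ε < 1)
  rw [eventually_nhdsWithin_iff, Metric.eventually_nhds_iff] at h1
  obtain ⟨δ, hδ, h2⟩ := h1
  refine ⟨2 + δ, by linarith, fun β hβ hβ' x => ?_⟩
  have h3 := h2 (y := β) (by rw [Real.dist_eq, abs_lt]; constructor <;> linarith) hβ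
  filter_upwards [lower β hβ x, eventually_ge_atTop 1] with T hT hT1
  refine le_trans ?_ hT
  have : 0 ≤ Real.log T := Real.log_nonneg hT1
  gcongr

end Pool.Agent.Lib.MP_f9aece_nt
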